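import Pool.Agent.H85.GR.La

/-!
ROW Aa. `Gs (r+1) = Cs r + Cs r * (X K0) * Gs (r+1)`.
PROOF. In the ring `Module.End`, with `A = AA (r+1)`, `A' = AB r`, `K = io ∘ K0 ∘ pr` and `A = A' + K` (`AA_succ`):
`A^m = A'^m + ∑_{k < m} A'^k * K * A^(m-1-k)` (induction on `m`; `A^(m+1) = A^m * A` or `A * A^m`). Compose with `pr` and `io`, take `toMatrix'`
(`LinearMap.toMatrix'_comp`, `LinearMap.toMatrix'_toLin'`): `gm (r+1) m = cm r m + ∑_{k < m} cm r k * K0 r * gm (r+1) (m-1-k)`. This is the coefficient `m`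
of the claim (`PowerSeries.coeff_mul`, `PowerSeries.coeff_succ_X_mul` or `coeff_zero`; `Finset.Nat.antidiagonal` sums: `Finset.Nat.sum_antidiagonal_eq_sum_range_succ`).
-/

set_option autoImplicit false

open Finset

noncomputable section

namespace Pool.Agent.H85.GR

private theorem Aa_tele {R : Type*} [Ring R] (A B K : R) (h : A = B + K) (m : ℕ) :
    A ^ m = B ^ m + ∑ k ∈ range m, B ^ k * K * A ^ (m - 1 - k) := by
  induction m with
  | zero => simp
  | succ m ih =>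
    have e1 : A ^ (m + 1) = B * A ^ m + K * A ^ m := by
      rw [← add_mul, ← h, pow_succ']
    rw [e1, sum_range_succ']
    have e2 : B * A ^ m = B ^ (m + 1) + ∑ k ∈ range m, B ^ (k + 1) * K * A ^ (m + 1 - 1 - (k + 1)) := by
      conv_lhs => rw [ih]
      rw [mul_add, pow_succ' B m, mul_sum]
      congr 1
      refine sum_congr rfl fun k _ => ?_
      rw [pow_succ' B k, show m + 1 - 1 - (k + 1) = m - 1 - k by omega]
      simp only [mul_assoc]
    rw [e2]
    simp only [pow_zero, one_mul, add_tsub_cancel_right, Nat.sub_zero]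
    rw [add_assoc]

theorem gm_succ (r m : ℕ) : gm (r + 1) m = cm r m + ∑ k ∈ range m, cm r k * K0 r * gm (r + 1) (m - 1 - k) := by
  have key : pr (r + 1) ∘ₗ ((AA (r + 1)) ^ m : Module.End ℤ (ℕ → Wn (r + 1) → ℤ)) ∘ₗ io (r + 1) =
      pr (r + 1) ∘ₗ ((AB r) ^ m : Module.End ℤ (ℕ → Wn (r + 1) → ℤ)) ∘ₗ io (r + 1) +
      ∑ k ∈ range m, (pr (r + 1) ∘ₗ ((AB r) ^ k : Module.End ℤ (ℕ → Wn (r + 1) → ℤ)) ∘ₗ io (r + 1)) ∘ₗ
        (Matrix.toLin' (K0 r) ∘ₗ
          (pr (r + 1) ∘ₗ ((AA (r + 1)) ^ (m - 1 - k) : Module.End ℤ (ℕ → Wn (r + 1) → ℤ)) ∘ₗ io (r + 1))) := by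
    have h := Aa_tele (AA (r + 1) : Module.End ℤ (ℕ → Wn (r + 1) → ℤ)) (AB r)
      (io (r + 1) ∘ₗ (Matrix.toLin' (K0 r)) ∘ₗ pr (r + 1)) (AA_succ r) m
    refine LinearMap.ext fun f => ?_
    have h2 := congrArg (fun T : Module.End ℤ (ℕ → Wn (r + 1) → ℤ) => pr (r + 1) (T (io (r + 1) f))) h
    simp only [LinearMap.add_apply, LinearMap.sum_apply, Module.End.mul_apply, LinearMap.comp_apply, map_add, map_sum] at h2 ⊢
    exact h2
  unfold gm cm
  rw [key, map_add, map_sum]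
  congr 1
  refine sum_congr rfl fun k _ => ?_
  rw [LinearMap.toMatrix'_comp, LinearMap.toMatrix'_comp, LinearMap.toMatrix'_toLin', Matrix.mul_assoc]

theorem Gs_eq (r : ℕ) : Gs (r + 1) = Cs r + Cs r * ((PowerSeries.X : PowerSeries ℤ) • cst (K0 r)) * Gs (r + 1) := by
  have hF : Cs r * ((PowerSeries.X : PowerSeries ℤ) • cst (K0 r)) * Gs (r + 1) =
      (PowerSeries.X : PowerSeries ℤ) • (Cs r * cst (K0 r) * Gs (r + 1)) := by
    rw [Matrix.mul_smul, Matrix.smul_mul]
  rw [hF]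
  refine Matrix.ext fun c c' => ?_
  rw [Matrix.add_apply, Matrix.smul_apply, smul_eq_mul]
  have hG : ∀ (m : ℕ) (j : Wn (r + 1)), PowerSeries.coeff m (Gs (r + 1) j c') = gm (r + 1) m j c' := by
    intro m j
    unfold Gs
    rw [PowerSeries.coeff_mk]
  have hC : ∀ (m : ℕ) (i : Wn (r + 1)), PowerSeries.coeff m (Cs r c i) = cm r m c i := by
    intro m j
    unfold Cs
    rw [PowerSeries.coeff_mk]
  have hCK : ∀ (m : ℕ) (j : Wn (r + 1)), PowerSeries.coeff m ((Cs r * cst (K0 r)) c j) = (cm r m * K0 r) c j := by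
    intro m j
    rw [Matrix.mul_apply, Matrix.mul_apply, map_sum]
    refine sum_congr rfl fun i _ => ?_
    unfold cst
    rw [Matrix.map_apply, PowerSeries.coeff_mul_C, hC]
  refine PowerSeries.ext fun m => ?_
  rw [map_add]
  have hG' : PowerSeries.coeff m (Gs (r + 1) c c') = gm (r + 1) m c c' := hG m c
  rw [hG', hC, gm_succ, Matrix.add_apply]
  congr 1
  cases m with
  | zero => simp
  | succ m =>
    rw [PowerSeries.coeff_succ_X_mul, Matrix.mul_apply, map_sum]
    have e : ∀ j : Wn (r + 1), PowerSeries.coeff m ((Cs r * cst (K0 r)) c j * Gs (r + 1) j c') =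
        ∑ k ∈ range (m + 1), (cm r k * K0 r) c j * gm (r + 1) (m - k) j c' := by
      intro j
      rw [PowerSeries.coeff_mul,
        Finset.Nat.sum_antidiagonal_eq_sum_range_succ
          (fun a b => PowerSeries.coeff a ((Cs r * cst (K0 r)) c j) * PowerSeries.coeff b (Gs (r + 1) j c')) m]
      refine sum_congr rfl fun k _ => ?_
      rw [hCK, hG]
    simp only [e]
    rw [sum_comm, Matrix.sum_apply]
    refine sum_congr rfl fun k _ => ?_
    rw [Matrix.mul_apply]
    refine sum_congr rfl fun j _ => ?_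
    rw [show m + 1 - 1 - k = m - k by omega]

end Pool.Agent.H85.GR
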