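import Pool.Agent.H85.GR.La

/-!
ROW Ab. `Cs r = 1 + X B0 * Gs r * A0`.
PROOF. `(AB r)^0 = 1` and `pr ∘ io = id`. For `m + 1`: `(be ∘ al)^(m+1) = be ∘ (al ∘ be)^m ∘ al` (induction on `m`), so
`pr ∘ (AB r)^(m+1) ∘ io = pr ∘ be ∘ (AA r)^m ∘ al ∘ io = B0 ∘ pr ∘ (AA r)^m ∘ io ∘ A0` (`pr_be`, `al_io`); take `toMatrix'`.
-/

set_option autoImplicit false

open Finset

noncomputable section

namespace Pool.Agent.H85.GR

private theorem Ab_pr_io (r : ℕ) : pr r ∘ₗ io r = LinearMap.id := by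
  apply LinearMap.ext
  intro f
  funext c
  rfl

private theorem Ab_pow (r m : ℕ) : ((AB r) ^ (m + 1) : Module.End ℤ (ℕ → Wn (r + 1) → ℤ)) =
    be r ∘ₗ ((AA r) ^ m : Module.End ℤ (ℕ → Wn r → ℤ)) ∘ₗ al r := by
  induction m with
  | zero =>
    rw [zero_add, pow_one, pow_zero]
    rfl
  | succ m ih =>
    rw [pow_succ (AB r) (m + 1), ih, pow_succ (AA r) m]
    rfl

theorem cm_zero (r : ℕ) : cm r 0 = 1 := by
  unfold cm
  rw [pow_zero, Module.End.one_eq_id, LinearMap.id_comp, Ab_pr_io, LinearMap.toMatrix'_id]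

theorem cm_succ (r m : ℕ) : cm r (m + 1) = B0 r * gm r m * A0 r := by
  have h : pr (r + 1) ∘ₗ ((AB r) ^ (m + 1) : Module.End ℤ (ℕ → Wn (r + 1) → ℤ)) ∘ₗ io (r + 1) =
      (Matrix.toLin' (B0 r) ∘ₗ (pr r ∘ₗ ((AA r) ^ m : Module.End ℤ (ℕ → Wn r → ℤ)) ∘ₗ io r)) ∘ₗ
        Matrix.toLin' (A0 r) := by
    rw [Ab_pow]
    have h1 : pr (r + 1) ∘ₗ (be r ∘ₗ ((AA r) ^ m : Module.End ℤ (ℕ → Wn r → ℤ)) ∘ₗ al r) ∘ₗ
        io (r + 1) = (pr (r + 1) ∘ₗ be r) ∘ₗ ((AA r) ^ m : Module.End ℤ (ℕ → Wn r → ℤ)) ∘ₗ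
          (al r ∘ₗ io (r + 1)) := rfl
    rw [h1, pr_be, al_io]
    rfl
  unfold cm gm
  rw [h, LinearMap.toMatrix'_comp, LinearMap.toMatrix'_comp, LinearMap.toMatrix'_toLin',
    LinearMap.toMatrix'_toLin']

private theorem Ab_coeff (r m : ℕ) (c c' : Wn (r + 1)) :
    PowerSeries.coeff m ((cst (B0 r) * Gs r * cst (A0 r)) c c') = (B0 r * gm r m * A0 r) c c' := by
  rw [Matrix.mul_apply, Matrix.mul_apply, map_sum]
  refine sum_congr rfl fun k _ => ?_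
  have e1 : cst (A0 r) k c' = PowerSeries.C (A0 r k c') := rfl
  rw [e1, PowerSeries.coeff_mul_C, Matrix.mul_apply, Matrix.mul_apply, map_sum]
  congr 1
  refine sum_congr rfl fun l _ => ?_
  have e2 : cst (B0 r) c l = PowerSeries.C (B0 r c l) := rfl
  rw [e2, PowerSeries.coeff_C_mul]
  congr 1
  show PowerSeries.coeff m (PowerSeries.mk fun m => gm r m l k) = gm r m l k
  rw [PowerSeries.coeff_mk]

theorem Cs_eq (r : ℕ) : Cs r = 1 + (PowerSeries.X : PowerSeries ℤ) • (cst (B0 r) * Gs r * cst (A0 r)) := by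
  funext c c'
  ext n
  have e0 : Cs r c c' = PowerSeries.mk fun m => cm r m c c' := rfl
  have e1 : ((1 + (PowerSeries.X : PowerSeries ℤ) • (cst (B0 r) * Gs r * cst (A0 r)) :
      Matrix (Wn (r + 1)) (Wn (r + 1)) (PowerSeries ℤ))) c c' =
      (1 : Matrix (Wn (r + 1)) (Wn (r + 1)) (PowerSeries ℤ)) c c' +
        PowerSeries.X * (cst (B0 r) * Gs r * cst (A0 r)) c c' := rfl
  rw [e0, e1, PowerSeries.coeff_mk, map_add]
  rcases n with _ | m
  · rw [cm_zero, PowerSeries.coeff_zero_X_mul, add_zero, Matrix.one_apply, Matrix.one_apply]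
    split_ifs
    · rw [PowerSeries.coeff_zero_one]
    · rw [map_zero]
  · rw [cm_succ, PowerSeries.coeff_succ_X_mul, Ab_coeff, Matrix.one_apply]
    split_ifs
    · rw [PowerSeries.coeff_one, if_neg (Nat.succ_ne_zero m), zero_add]
    · rw [map_zero, zero_add]

end Pool.Agent.H85.GR
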