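import Pool.Agent.H85.GR.Aa

/-!
ROW Ac. The generating function of `Nn r`.
-/

set_option autoImplicit false

open Finset

noncomputable section

namespace Pool.Agent.H85.GR

theorem inv_series (r : ℕ) : (1 - (PowerSeries.X : PowerSeries ℤ) • (cst (K0 r) * Cs r)) *
    (1 + (PowerSeries.X : PowerSeries ℤ) • (cst (K0 r) * Gs (r + 1))) = 1 := by
  have h : cst (K0 r) * Gs (r + 1) = cst (K0 r) * Cs r +
      (cst (K0 r) * Cs r) * ((PowerSeries.X : PowerSeries ℤ) • (cst (K0 r) * Gs (r + 1))) := by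
    conv_lhs => rw [Gs_eq]
    rw [mul_add]
    congr 1
    simp only [Matrix.mul_smul, Matrix.smul_mul, Matrix.mul_assoc]
  set P := cst (K0 r) * Cs r with hP
  set Q := cst (K0 r) * Gs (r + 1) with hQ
  have h2 : (PowerSeries.X : PowerSeries ℤ) • Q = (PowerSeries.X : PowerSeries ℤ) • P +
      ((PowerSeries.X : PowerSeries ℤ) • P) * ((PowerSeries.X : PowerSeries ℤ) • Q) := by
    conv_lhs => rw [h]
    rw [smul_add, Matrix.smul_mul]
  rw [sub_mul, one_mul, mul_add, mul_one]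
  calc 1 + (PowerSeries.X : PowerSeries ℤ) • Q - ((PowerSeries.X : PowerSeries ℤ) • P +
        (PowerSeries.X : PowerSeries ℤ) • P * (PowerSeries.X : PowerSeries ℤ) • Q) =
      1 + (PowerSeries.X : PowerSeries ℤ) • Q - (PowerSeries.X : PowerSeries ℤ) • Q := by rw [← h2]
    _ = 1 := by abel

theorem mat_K (r j k : ℕ) :
    LinearMap.toMatrix' (pr (r + 1) ∘ₗ ((AB r) ^ j * (io (r + 1) ∘ₗ (Matrix.toLin' (K0 r)) ∘ₗ pr (r + 1)) * (AA (r + 1)) ^ k :
      Module.End ℤ (ℕ → Wn (r + 1) → ℤ)) ∘ₗ io (r + 1)) = cm r j * K0 r * gm (r + 1) k := by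
  have e : pr (r + 1) ∘ₗ ((AB r) ^ j * (io (r + 1) ∘ₗ (Matrix.toLin' (K0 r)) ∘ₗ pr (r + 1)) * (AA (r + 1)) ^ k :
      Module.End ℤ (ℕ → Wn (r + 1) → ℤ)) ∘ₗ io (r + 1) =
      (pr (r + 1) ∘ₗ ((AB r) ^ j : Module.End ℤ (ℕ → Wn (r + 1) → ℤ)) ∘ₗ io (r + 1)) ∘ₗ (Matrix.toLin' (K0 r)) ∘ₗ
      (pr (r + 1) ∘ₗ ((AA (r + 1)) ^ k : Module.End ℤ (ℕ → Wn (r + 1) → ℤ)) ∘ₗ io (r + 1)) := rfl
  rw [e, LinearMap.toMatrix'_comp, LinearMap.toMatrix'_comp, LinearMap.toMatrix'_toLin']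
  unfold cm gm
  rw [Matrix.mul_assoc]

theorem mat_step (r j k : ℕ) :
    LinearMap.toMatrix' (pr (r + 1) ∘ₗ ((AB r) ^ j * (AA (r + 1)) ^ (k + 1) : Module.End ℤ (ℕ → Wn (r + 1) → ℤ)) ∘ₗ io (r + 1)) =
    LinearMap.toMatrix' (pr (r + 1) ∘ₗ ((AB r) ^ (j + 1) * (AA (r + 1)) ^ k : Module.End ℤ (ℕ → Wn (r + 1) → ℤ)) ∘ₗ io (r + 1)) +
      cm r j * K0 r * gm (r + 1) k := by
  rw [← mat_K, ← map_add]
  congr 1
  have e : ((AB r) ^ j * (AA (r + 1)) ^ (k + 1) : Module.End ℤ (ℕ → Wn (r + 1) → ℤ)) =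
      (AB r) ^ (j + 1) * (AA (r + 1)) ^ k + (AB r) ^ j * (io (r + 1) ∘ₗ (Matrix.toLin' (K0 r)) ∘ₗ pr (r + 1)) * (AA (r + 1)) ^ k := by
    rw [pow_succ' (AA (r + 1)), pow_succ (AB r)]
    have h : AA (r + 1) * AA (r + 1) ^ k = (AB r + io (r + 1) ∘ₗ (Matrix.toLin' (K0 r)) ∘ₗ pr (r + 1)) * AA (r + 1) ^ k := by
      rw [← AA_succ r]
    rw [h]
    noncomm_ring
  rw [e]
  rw [LinearMap.add_comp, LinearMap.comp_add]

theorem mat_form (r n : ℕ) : ∀ m ≤ n,
    LinearMap.toMatrix' (pr (r + 1) ∘ₗ ((AB r) ^ (n - m) * (AA (r + 1)) ^ m : Module.End ℤ (ℕ → Wn (r + 1) → ℤ)) ∘ₗ io (r + 1)) =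
    cm r n + ∑ l ∈ range m, cm r (n - 1 - l) * K0 r * gm (r + 1) l := by
  intro m
  induction m with
  | zero =>
    intro _
    rw [pow_zero, mul_one, sum_range_zero, add_zero]
    rfl
  | succ m ih =>
    intro hm
    rw [mat_step, show n - (m + 1) + 1 = n - m by omega, ih (by omega), sum_range_succ, show n - (m + 1) = n - 1 - m by omega]
    abel

theorem dsum {M : Type*} [AddCommGroup M] (f : ℕ → M) (n : ℕ) :
    ∑ m ∈ range (n + 1), ∑ l ∈ range m, f l = ∑ l ∈ range n, ((n : ℤ) - l) • f l := by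
  induction n with
  | zero => simp
  | succ n ih =>
    rw [sum_range_succ, ih, sum_range_succ, sum_range_succ, ← add_assoc, ← sum_add_distrib]
    congr 1
    · refine sum_congr rfl fun l _ => ?_
      rw [show ((n + 1 : ℕ) : ℤ) - l = ((n : ℤ) - l) + 1 by push_cast; ring, add_smul, one_smul]
    · rw [show ((n + 1 : ℕ) : ℤ) - n = 1 by push_cast; ring, one_smul]

theorem mid (r n : ℕ) : ∑ k ∈ range (n + 1),
    LinearMap.toMatrix' (pr (r + 1) ∘ₗ ((AB r) ^ (n - k) * (AA (r + 1)) ^ k : Module.End ℤ (ℕ → Wn (r + 1) → ℤ)) ∘ₗ io (r + 1)) =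
    ((n : ℤ) + 1) • cm r n + ∑ q ∈ range n, ((q : ℤ) + 1) • (cm r q * K0 r * gm (r + 1) (n - 1 - q)) := by
  have h1 : ∀ k ∈ range (n + 1),
      LinearMap.toMatrix' (pr (r + 1) ∘ₗ ((AB r) ^ (n - k) * (AA (r + 1)) ^ k : Module.End ℤ (ℕ → Wn (r + 1) → ℤ)) ∘ₗ io (r + 1)) =
      cm r n + ∑ l ∈ range k, cm r (n - 1 - l) * K0 r * gm (r + 1) l := by
    intro k hk
    rw [mem_range] at hk
    exact mat_form r n k (by omega)
  rw [sum_congr rfl h1, sum_add_distrib, sum_const, card_range, dsum]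
  have h2 : (n + 1) • cm r n = ((n : ℤ) + 1) • cm r n := by
    rw [← Nat.cast_smul_eq_nsmul ℤ]
    push_cast
    rfl
  rw [h2]
  congr 1
  rw [← sum_range_reflect]
  refine sum_congr rfl fun q hq => ?_
  rw [mem_range] at hq
  rw [show n - 1 - (n - 1 - q) = q by omega]
  congr 1
  omega

/-- coefficients of a matrix of power series -/
def cf {m n : Type*} (k : ℕ) (M : Matrix m n (PowerSeries ℤ)) : Matrix m n ℤ := M.map (PowerSeries.coeff k)

theorem cf_mul {l m n : Type*} [Fintype m] (k : ℕ) (M : Matrix l m (PowerSeries ℤ)) (N : Matrix m n (PowerSeries ℤ)) :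
    cf k (M * N) = ∑ p ∈ antidiagonal k, cf p.1 M * cf p.2 N := by
  ext i j
  unfold cf
  rw [Matrix.map_apply, Matrix.mul_apply, map_sum, Matrix.sum_apply]
  simp only [PowerSeries.coeff_mul, Matrix.mul_apply, Matrix.map_apply]
  rw [sum_comm]

theorem cf_cst_mul {l m n : Type*} [Fintype m] (k : ℕ) (K : Matrix l m ℤ) (N : Matrix m n (PowerSeries ℤ)) :
    cf k (cst K * N) = K * cf k N := by
  ext i j
  unfold cf cst
  rw [Matrix.map_apply, Matrix.mul_apply, map_sum, Matrix.mul_apply]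
  refine sum_congr rfl fun x _ => ?_
  rw [Matrix.map_apply, Matrix.map_apply, PowerSeries.coeff_C_mul]

theorem cf_X_zero {m n : Type*} (M : Matrix m n (PowerSeries ℤ)) : cf 0 ((PowerSeries.X : PowerSeries ℤ) • M) = 0 := by
  ext i j
  unfold cf
  simp

theorem cf_X_succ {m n : Type*} (k : ℕ) (M : Matrix m n (PowerSeries ℤ)) : cf (k + 1) ((PowerSeries.X : PowerSeries ℤ) • M) = cf k M := by
  ext i j
  unfold cf
  simp [PowerSeries.coeff_succ_X_mul]

theorem cf_DM {m n : Type*} (k : ℕ) (M : Matrix m n (PowerSeries ℤ)) : cf k (DM M) = (k : ℤ) • cf k M := by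
  ext i j
  unfold cf DM
  rcases k with _ | k
  · simp
  · simp only [Matrix.map_apply, Matrix.smul_apply, PowerSeries.coeff_succ_X_mul, PowerSeries.coeff_derivative, smul_eq_mul]
    push_cast
    ring

theorem cf_Cs (r k : ℕ) : cf k (Cs r) = cm r k := by
  ext i j
  unfold cf Cs
  simp

theorem cf_Gs (r k : ℕ) : cf k (Gs r) = gm r k := by
  ext i j
  unfold cf Gs
  simp

theorem cf_trace {n : Type*} [Fintype n] (k : ℕ) (M : Matrix n n (PowerSeries ℤ)) :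
    PowerSeries.coeff k (Matrix.trace M) = Matrix.trace (cf k M) := by
  unfold Matrix.trace cf
  rw [map_sum]
  rfl

theorem cf_one_zero {n : Type*} [DecidableEq n] : cf 0 (1 : Matrix n n (PowerSeries ℤ)) = 1 := by
  ext i j
  unfold cf
  by_cases h : i = j
  · subst h; simp
  · simp [h]

theorem cf_one_succ {n : Type*} [DecidableEq n] (k : ℕ) : cf (k + 1) (1 : Matrix n n (PowerSeries ℤ)) = 0 := by
  ext i j
  unfold cf
  by_cases h : i = j
  · subst h; simp [PowerSeries.coeff_one]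
  · simp [h]

theorem cf_add {m n : Type*} (k : ℕ) (M N : Matrix m n (PowerSeries ℤ)) : cf k (M + N) = cf k M + cf k N := by
  ext i j
  unfold cf
  simp

theorem Nn_series (r : ℕ) : PowerSeries.mk (Nn r) =
    Matrix.trace (DM ((PowerSeries.X : PowerSeries ℤ) • (cst (K0 r) * Cs r)) * (1 + (PowerSeries.X : PowerSeries ℤ) • (cst (K0 r) * Gs (r + 1)))) := by
  ext n
  rw [PowerSeries.coeff_mk, cf_trace, cf_mul]
  rcases n with _ | n
  · rw [Finset.Nat.antidiagonal_zero, sum_singleton, cf_DM, Nat.cast_zero, zero_smul, zero_mul, Matrix.trace_zero]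
    unfold Nn
    simp
  · rw [Nat.sum_antidiagonal_eq_sum_range_succ_mk, sum_range_succ']
    rw [cf_DM, Nat.cast_zero, zero_smul, zero_mul, add_zero]
    rw [sum_range_succ]
    rw [Nat.sub_self, cf_add, cf_one_zero, cf_X_zero, add_zero, mul_one, cf_DM, cf_X_succ, cf_cst_mul, cf_Cs]
    have h1 : ∀ q ∈ range n, cf (q + 1) (DM ((PowerSeries.X : PowerSeries ℤ) • (cst (K0 r) * Cs r))) *
        cf (n + 1 - (q + 1)) (1 + (PowerSeries.X : PowerSeries ℤ) • (cst (K0 r) * Gs (r + 1))) =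
        ((q : ℤ) + 1) • (K0 r * (cm r q * K0 r * gm (r + 1) (n - 1 - q))) := by
      intro q hq
      rw [mem_range] at hq
      rw [show n + 1 - (q + 1) = (n - 1 - q) + 1 by omega, cf_add, cf_one_succ, cf_X_succ, cf_cst_mul, cf_Gs, zero_add,
        cf_DM, cf_X_succ, cf_cst_mul, cf_Cs, Matrix.smul_mul]
      push_cast
      simp only [Matrix.mul_assoc]
    rw [sum_congr rfl h1]
    have h2 : Nn r (n + 1) = Matrix.trace (K0 r * ∑ k ∈ range (n + 1),
        LinearMap.toMatrix' (pr (r + 1) ∘ₗ ((AB r) ^ (n - k) * (AA (r + 1)) ^ k : Module.End ℤ (ℕ → Wn (r + 1) → ℤ)) ∘ₗ io (r + 1))) := by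
      unfold Nn
      rw [Matrix.mul_sum, Matrix.trace_sum]
      rfl
    rw [h2, mid, mul_add, Matrix.mul_sum, Matrix.mul_smul]
    congr 1
    refine (add_comm _ _).trans ?_
    congr 1
    · refine sum_congr rfl fun q _ => ?_
      rw [Matrix.mul_smul]

end Pool.Agent.H85.GR
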