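import Pool.Agent.H85.GR.La

/-!
ROW Ba. The trace over the heights `< L`.
PROOF. `A^d - A'^d = ∑_{k < d} A^k * K * A'^(d-1-k)` with `A = AA (r+1)`, `A' = AB r`, `K = io ∘ K0 ∘ pr` (`AA_succ`; induction on `d`). Fix `k`, `j = d-1-k`.
`(A^k (io (K0 (pr (A'^j (delw h c)))))) h c`. Put `a c₁ h c = (A^k (io e_{c₁})) h c` (`e` the standard basis, `io f = ∑ f c₁ • io e_{c₁}`) and
`b c₂ h c = (A'^j (delw h c)) 0 c₂`. The term is `∑_{c₁ c₂} a c₁ h c * K0 c₁ c₂ * b c₂ h c`. Sum over `c` and `h < L`: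
`∑_{h < L, c} b c₂ h c * a c₁ h c = (A'^j (A^k (io e_{c₁}))) 0 c₂`, because `A'^j F` at height `0` only depends on the values of `F` at heights `≤ j < L`
(`A' F` at height `h` only depends on the values at heights `≤ h + 1`) and `F = ∑_{h, c} F h c • delw h c` on these heights.
So the sum is `trace (K0 * toMatrix' (pr ∘ A'^j A^k ∘ io))` (up to the order in the trace, `Matrix.trace_mul_comm`).
-/

set_option autoImplicit false

open Finset

noncomputable section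

namespace Pool.Agent.H85.GR

theorem AB_loc (r n : ℕ) (F G : ℕ → Wn (r + 1) → ℤ) (h : ∀ m, m < n + 1 → F m = G m) :
    ∀ m, m < n → (AB r F) m = (AB r G) m := by
  intro m hm
  funext w
  simp only [AB, be, al, up, dn, LinearMap.comp_apply, LinearMap.coe_mk, AddHom.coe_mk]
  rw [h m (by omega), h (m + 1) (by omega), h (m - 1) (by omega), h (m - 1 + 1) (by omega)]

theorem AB_pow_loc (r j : ℕ) : ∀ (n : ℕ) (F G : ℕ → Wn (r + 1) → ℤ), (∀ m, m < n + j → F m = G m) →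
    ∀ m, m < n → (((AB r) ^ j) F) m = (((AB r) ^ j) G) m := by
  induction j with
  | zero =>
    intro n F G h m hm
    rw [pow_zero]
    exact h m (by omega)
  | succ j ih =>
    intro n F G h m hm
    rw [pow_succ', Module.End.mul_apply, Module.End.mul_apply]
    exact AB_loc r n _ _ (ih (n + 1) F G (fun m hm => h m (by omega))) m hm

theorem AB_expand (r j L : ℕ) (hj : j < L) (F : ℕ → Wn (r + 1) → ℤ) (c₂ : Wn (r + 1)) :
    (((AB r) ^ j) F) 0 c₂ = ∑ h ∈ range L, ∑ c : Wn (r + 1), F h c * (((AB r) ^ j) (delw h c)) 0 c₂ := by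
  have e : (((AB r) ^ j) F) 0 = (((AB r) ^ j) (∑ h ∈ range L, ∑ c : Wn (r + 1), F h c • delw h c)) 0 := by
    refine AB_pow_loc r j 1 F _ (fun m hm => ?_) 0 (by omega)
    funext w
    simp only [Finset.sum_apply, Pi.smul_apply, smul_eq_mul, delw]
    rw [Finset.sum_eq_single m]
    · rw [Finset.sum_eq_single w]
      · simp
      · intro c _ hc
        rw [if_neg (fun h => hc h.2.symm), mul_zero]
      · intro h
        exact absurd (Finset.mem_univ _) h
    · intro h _ hh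
      refine Finset.sum_eq_zero fun c _ => ?_
      rw [if_neg (fun h' => hh h'.1.symm), mul_zero]
    · intro h
      exact absurd (Finset.mem_range.mpr (by omega)) h
  rw [e, map_sum]
  simp only [map_sum, map_smul, Finset.sum_apply, Pi.smul_apply, smul_eq_mul]

theorem tele (r d : ℕ) : (AA (r + 1)) ^ d - (AB r) ^ d =
    ∑ k ∈ range d, (AA (r + 1)) ^ k * (AA (r + 1) - AB r) * (AB r) ^ (d - 1 - k) := by
  induction d with
  | zero => simp
  | succ d ih =>
    rw [Finset.sum_range_succ]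
    have e : ∑ k ∈ range d, (AA (r + 1)) ^ k * (AA (r + 1) - AB r) * (AB r) ^ (d + 1 - 1 - k) =
        (∑ k ∈ range d, (AA (r + 1)) ^ k * (AA (r + 1) - AB r) * (AB r) ^ (d - 1 - k)) * AB r := by
      rw [Finset.sum_mul]
      refine Finset.sum_congr rfl fun k hk => ?_
      have hk' := Finset.mem_range.mp hk
      rw [show d + 1 - 1 - k = (d - 1 - k) + 1 by omega, pow_succ, mul_assoc, mul_assoc, mul_assoc]
    rw [e, ← ih, show d + 1 - 1 - d = 0 by omega, pow_zero, mul_one, pow_succ, pow_succ, sub_mul, mul_sub]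
    abel

theorem io_expand (r : ℕ) (f : Wn r → ℤ) : io r f = ∑ c₁ : Wn r, f c₁ • io r (Pi.single c₁ 1) := by
  have e : f = ∑ c₁ : Wn r, f c₁ • (Pi.single c₁ (1 : ℤ) : Wn r → ℤ) := by
    funext w
    simp only [Finset.sum_apply, Pi.smul_apply, smul_eq_mul]
    rw [Finset.sum_eq_single w]
    · simp
    · intro c _ hc
      rw [Pi.single_eq_of_ne hc.symm, mul_zero]
    · intro h
      exact absurd (Finset.mem_univ _) h
  conv_lhs => rw [e]
  rw [map_sum]
  simp only [map_smul]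

theorem term_fin (r k j L : ℕ) (hj : j < L) :
    ∑ h ∈ range L, ∑ c : Wn (r + 1), (((AA (r + 1)) ^ k * (AA (r + 1) - AB r) * (AB r) ^ j) (delw h c)) h c =
    Matrix.trace (K0 r * LinearMap.toMatrix' (pr (r + 1) ∘ₗ ((AB r) ^ j * (AA (r + 1)) ^ k : Module.End ℤ (ℕ → Wn (r + 1) → ℤ)) ∘ₗ io (r + 1))) := by
  have hK : AA (r + 1) - AB r = io (r + 1) ∘ₗ (Matrix.toLin' (K0 r)) ∘ₗ pr (r + 1) := by
    rw [AA_succ]
    abel
  have e1 : ∀ h c, (((AA (r + 1)) ^ k * (AA (r + 1) - AB r) * (AB r) ^ j) (delw h c)) h c =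
      ∑ c₁ : Wn (r + 1), ∑ c₂ : Wn (r + 1), K0 r c₁ c₂ *
        ((((AA (r + 1)) ^ k) (io (r + 1) (Pi.single c₁ 1))) h c * (((AB r) ^ j) (delw h c)) 0 c₂) := by
    intro h c
    rw [Module.End.mul_apply, Module.End.mul_apply, hK, LinearMap.comp_apply, LinearMap.comp_apply, io_expand, map_sum]
    simp only [map_smul, Finset.sum_apply, Pi.smul_apply, smul_eq_mul]
    refine Finset.sum_congr rfl fun c₁ _ => ?_
    rw [Matrix.toLin'_apply]
    simp only [Matrix.mulVec, dotProduct]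
    rw [Finset.sum_mul]
    refine Finset.sum_congr rfl fun c₂ _ => ?_
    have e2 : pr (r + 1) (((AB r) ^ j) (delw h c)) c₂ = (((AB r) ^ j) (delw h c)) 0 c₂ := rfl
    rw [e2]
    ring
  have e3 : Matrix.trace (K0 r * LinearMap.toMatrix' (pr (r + 1) ∘ₗ ((AB r) ^ j * (AA (r + 1)) ^ k : Module.End ℤ (ℕ → Wn (r + 1) → ℤ)) ∘ₗ io (r + 1))) =
      ∑ c₁ : Wn (r + 1), ∑ c₂ : Wn (r + 1), K0 r c₁ c₂ *
        (((AB r) ^ j) (((AA (r + 1)) ^ k) (io (r + 1) (Pi.single c₁ 1)))) 0 c₂ := by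
    simp only [Matrix.trace, Matrix.diag, Matrix.mul_apply]
    refine Finset.sum_congr rfl fun c₁ _ => Finset.sum_congr rfl fun c₂ _ => ?_
    rw [LinearMap.toMatrix'_apply]
    congr 1
  rw [e3]
  simp only [e1]
  have e4 : ∀ c₁ c₂ : Wn (r + 1), (((AB r) ^ j) (((AA (r + 1)) ^ k) (io (r + 1) (Pi.single c₁ 1)))) 0 c₂ =
      ∑ h ∈ range L, ∑ c : Wn (r + 1), (((AA (r + 1)) ^ k) (io (r + 1) (Pi.single c₁ 1))) h c *
        (((AB r) ^ j) (delw h c)) 0 c₂ := fun c₁ c₂ => AB_expand r j L hj _ c₂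
  simp only [e4, Finset.mul_sum]
  calc _ = ∑ h ∈ range L, ∑ c₁ : Wn (r + 1), ∑ c : Wn (r + 1), ∑ c₂ : Wn (r + 1), K0 r c₁ c₂ *
        ((((AA (r + 1)) ^ k) (io (r + 1) (Pi.single c₁ 1))) h c * (((AB r) ^ j) (delw h c)) 0 c₂) :=
      Finset.sum_congr rfl fun h _ => Finset.sum_comm
    _ = ∑ c₁ : Wn (r + 1), ∑ h ∈ range L, ∑ c : Wn (r + 1), ∑ c₂ : Wn (r + 1), K0 r c₁ c₂ *
        ((((AA (r + 1)) ^ k) (io (r + 1) (Pi.single c₁ 1))) h c * (((AB r) ^ j) (delw h c)) 0 c₂) := Finset.sum_comm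
    _ = ∑ c₁ : Wn (r + 1), ∑ h ∈ range L, ∑ c₂ : Wn (r + 1), ∑ c : Wn (r + 1), K0 r c₁ c₂ *
        ((((AA (r + 1)) ^ k) (io (r + 1) (Pi.single c₁ 1))) h c * (((AB r) ^ j) (delw h c)) 0 c₂) :=
      Finset.sum_congr rfl fun c₁ _ => Finset.sum_congr rfl fun h _ => Finset.sum_comm
    _ = _ := Finset.sum_congr rfl fun c₁ _ => Finset.sum_comm

theorem trace_fin (r d L : ℕ) (hL : d ≤ L) :
    ∑ h ∈ range L, ∑ c : Wn (r + 1), (((AA (r + 1)) ^ d) (delw h c) h c - ((AB r) ^ d) (delw h c) h c) = Nn r d := by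
  have e1 : ∀ h c, (((AA (r + 1)) ^ d) (delw h c) h c - ((AB r) ^ d) (delw h c) h c) =
      ∑ k ∈ range d, (((AA (r + 1)) ^ k * (AA (r + 1) - AB r) * (AB r) ^ (d - 1 - k)) (delw h c)) h c := by
    intro h c
    have e2 : ((AA (r + 1)) ^ d) (delw h c) h c - ((AB r) ^ d) (delw h c) h c =
        (((AA (r + 1)) ^ d - (AB r) ^ d) (delw h c)) h c := rfl
    rw [e2, tele, LinearMap.sum_apply]
    simp only [Finset.sum_apply]
  simp only [e1]
  unfold Nn
  calc _ = ∑ h ∈ range L, ∑ k ∈ range d, ∑ c : Wn (r + 1),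
        (((AA (r + 1)) ^ k * (AA (r + 1) - AB r) * (AB r) ^ (d - 1 - k)) (delw h c)) h c :=
      Finset.sum_congr rfl fun h _ => Finset.sum_comm
    _ = ∑ k ∈ range d, ∑ h ∈ range L, ∑ c : Wn (r + 1),
        (((AA (r + 1)) ^ k * (AA (r + 1) - AB r) * (AB r) ^ (d - 1 - k)) (delw h c)) h c := Finset.sum_comm
    _ = _ := Finset.sum_congr rfl fun k hk => term_fin r k (d - 1 - k) L (by
        have := Finset.mem_range.mp hk
        omega)

end Pool.Agent.H85.GR
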