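import Pool.Agent.H85.GR.Df

/-!
ROW Bb. The trace over the windows of the `d`-th power is the sum over the cyclic words of length `d`.
PROOF. `unfold_TT`: for all `F`, `(TT^m F) h c = ∑_{y : Fin m → Bool} Pr T (sq c y) (r+1) m (fun h' => F h' (win c y)) h` where `sq c y : ℕ → Bool` is the word `c`
followed by `y` (length `r + 1 + m`, `false` afterwards) and `win c y` is the window of `sq c y` at the places `m, …, m + r`. Induction on `m`, with
`TT^(m+1) F = TT^m (TT F)` and `y` extended at the end (`Fin.snoc`): `(TT F) h' w = ∑ u, T (w 0) u (F · (sn (tl w) u)) h'`, `w 0 = sq m`, and `Pr (m+1) f = Pr m (T (s m) (s (m + r + 1)) f)`.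
(`Pr T s R m` only depends on `s i`, `i < m + R`, and is additive in `f`.)
For `F = delw h c` the sum over `c` and `y` runs over the pairs with `win c y = c`, i.e. the sequence `s = sq c y` satisfies `s (i + d) = s i` for `i ≤ r`; then
`s i = s (i mod d)` for `i < d + r + 1` (descend by `d`), and these pairs correspond to `u : Fin d → Bool`, `u i = s i` (inverse: `s = per u`). (`d` may be smaller than `r + 1`.)
You may choose another way to organize this (lists, functions `ℕ → Bool`, ...).
-/

set_option autoImplicit false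

open Finset

noncomputable section

namespace Pool.Agent.H85.GR

/-- the word `c` followed by `y` -/
def sqBb {r m : ℕ} (c : Wn (r + 1)) (y : Fin m → Bool) : ℕ → Bool := fun i =>
  if h : i < r + 1 then c ⟨i, h⟩ else if h2 : i - (r + 1) < m then y ⟨i - (r + 1), h2⟩ else false

/-- the last window of the word `c` followed by `y` -/
def winBb {r m : ℕ} (c : Wn (r + 1)) (y : Fin m → Bool) : Wn (r + 1) := fun i => sqBb c y (m + i)

theorem Pr_congr_Bb (T : Bool → Bool → Module.End ℤ (ℕ → ℤ)) {s s' : ℕ → Bool} {R : ℕ} :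
    ∀ (m : ℕ) (f : ℕ → ℤ), (∀ i < m + R, s i = s' i) → (∀ i < m, s i = s' i) →
      Pr T s R m f = Pr T s' R m f := by
  intro m
  induction m with
  | zero => intro f _ _; rfl
  | succ m ih =>
    intro f h h2
    change Pr T s R m (T (s m) (s (m + R)) f) = Pr T s' R m (T (s' m) (s' (m + R)) f)
    rw [ih _ (fun i hi => h i (by omega)) (fun i hi => h2 i (by omega)), h (m + R) (by omega),
      h2 m (by omega)]

theorem Pr_sum_Bb (T : Bool → Bool → Module.End ℤ (ℕ → ℤ)) (s : ℕ → Bool) (R : ℕ) {ι : Type*} :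
    ∀ (m : ℕ) (S : Finset ι) (f : ι → ℕ → ℤ),
      Pr T s R m (∑ u ∈ S, f u) = ∑ u ∈ S, Pr T s R m (f u) := by
  intro m
  induction m with
  | zero => intro S f; rfl
  | succ m ih =>
    intro S f
    change Pr T s R m (T (s m) (s (m + R)) (∑ u ∈ S, f u)) = _
    rw [map_sum, ih]
    rfl

theorem sqBb_snoc_lt {r m : ℕ} (c : Wn (r + 1)) (y : Fin m → Bool) (u : Bool) {i : ℕ}
    (hi : i < m + (r + 1)) :
    sqBb c (Fin.snoc (α := fun _ => Bool) y u : Fin (m + 1) → Bool) i = sqBb c y i := by
  unfold sqBb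
  by_cases h : i < r + 1
  · rw [dif_pos h, dif_pos h]
  · rw [dif_neg h, dif_neg h, dif_pos (show i - (r + 1) < m + 1 by omega),
      dif_pos (show i - (r + 1) < m by omega)]
    have e : (⟨i - (r + 1), by omega⟩ : Fin (m + 1)) =
        Fin.castSucc ⟨i - (r + 1), by omega⟩ := rfl
    rw [e, Fin.snoc_castSucc]

theorem sqBb_snoc_eq {r m : ℕ} (c : Wn (r + 1)) (y : Fin m → Bool) (u : Bool) :
    sqBb c (Fin.snoc (α := fun _ => Bool) y u : Fin (m + 1) → Bool) (m + (r + 1)) = u := by
  unfold sqBb
  rw [dif_neg (show ¬ m + (r + 1) < r + 1 by omega), dif_pos (show m + (r + 1) - (r + 1) < m + 1 by omega)]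
  have e : (⟨m + (r + 1) - (r + 1), by omega⟩ : Fin (m + 1)) = Fin.last m := by
    ext
    simp
  rw [e, Fin.snoc_last]

theorem winBb_snoc {r m : ℕ} (c : Wn (r + 1)) (y : Fin m → Bool) (u : Bool) :
    winBb c (Fin.snoc (α := fun _ => Bool) y u : Fin (m + 1) → Bool) = sn (tl (winBb c y)) u := by
  funext i
  unfold winBb sn tl
  refine Fin.lastCases ?_ (fun j => ?_) i
  · rw [Fin.snoc_last]
    have e : m + 1 + ((Fin.last r : Fin (r + 1)) : ℕ) = m + (r + 1) := by
      rw [Fin.val_last]
      omega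
    rw [e]
    exact sqBb_snoc_eq c y u
  · rw [Fin.snoc_castSucc]
    have e : m + 1 + ((Fin.castSucc j : Fin (r + 1)) : ℕ) = m + ((Fin.succ j : Fin (r + 1)) : ℕ) := by
      rw [Fin.val_castSucc, Fin.val_succ]
      omega
    rw [e]
    exact sqBb_snoc_lt c y u (by
      have := j.isLt
      rw [Fin.val_succ]
      omega)

theorem unfold_TT_Bb (r : ℕ) (T : Bool → Bool → Module.End ℤ (ℕ → ℤ)) (m : ℕ) :
    ∀ (F : ℕ → Wn (r + 1) → ℤ) (h : ℕ) (c : Wn (r + 1)), ((TT r T) ^ m) F h c =
      ∑ y : Fin m → Bool, Pr T (sqBb c y) (r + 1) m (fun h' => F h' (winBb c y)) h := by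
  induction m with
  | zero =>
    intro F h c
    rw [pow_zero, Module.End.one_apply, Fintype.sum_unique]
    change F h c = F h (winBb c _)
    congr 1
    funext i
    unfold winBb sqBb
    rw [dif_pos (show 0 + (i : ℕ) < r + 1 by have := i.isLt; omega)]
    congr 1
    ext
    simp
  | succ m ih =>
    intro F h c
    rw [pow_succ, Module.End.mul_apply, ih]
    have e1 : ∀ y : Fin m → Bool,
        Pr T (sqBb c y) (r + 1) m (fun h' => (TT r T F) h' (winBb c y)) h =
        ∑ u : Bool, Pr T (sqBb c (Fin.snoc (α := fun _ => Bool) y u : Fin (m + 1) → Bool)) (r + 1) (m + 1)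
          (fun h' => F h' (winBb c (Fin.snoc (α := fun _ => Bool) y u : Fin (m + 1) → Bool))) h := by
      intro y
      have e2 : (fun h' => (TT r T F) h' (winBb c y)) =
          ∑ u : Bool, T (winBb c y 0) u (fun h' => F h' (sn (tl (winBb c y)) u)) := by
        funext h'
        rw [Finset.sum_apply]
        rfl
      rw [e2, Pr_sum_Bb, Finset.sum_apply]
      refine sum_congr rfl fun u _ => ?_
      change _ = Pr T (sqBb c (Fin.snoc (α := fun _ => Bool) y u : Fin (m + 1) → Bool)) (r + 1) m
        (T (sqBb c (Fin.snoc (α := fun _ => Bool) y u : Fin (m + 1) → Bool) m)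
          (sqBb c (Fin.snoc (α := fun _ => Bool) y u : Fin (m + 1) → Bool) (m + (r + 1))) _) h
      rw [winBb_snoc, sqBb_snoc_eq, sqBb_snoc_lt c y u (show m < m + (r + 1) by omega)]
      rw [Pr_congr_Bb T (s := sqBb c (Fin.snoc (α := fun _ => Bool) y u : Fin (m + 1) → Bool)) (s' := sqBb c y) m _
        (fun i hi => sqBb_snoc_lt c y u hi) (fun i hi => sqBb_snoc_lt c y u (by omega))]
      rfl
    rw [sum_congr rfl fun y _ => e1 y]
    rw [← Equiv.sum_comp (Fin.snocEquiv (fun _ : Fin (m + 1) => Bool)), Fintype.sum_prod_type, sum_comm]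
    rfl

theorem sq_mod_Bb {d R : ℕ} (hd : 0 < d) (s : ℕ → Bool) (hs : ∀ i < R, s (d + i) = s i) :
    ∀ i < d + R, s i = s (i % d) := by
  intro i
  induction i using Nat.strong_induction_on with
  | _ i ih =>
    intro hi
    by_cases h : i < d
    · rw [Nat.mod_eq_of_lt h]
    · have e : d + (i - d) = i := by omega
      have h1 := hs (i - d) (by omega)
      rw [e] at h1
      rw [h1, ih (i - d) (by omega) (by omega)]
      congr 1
      conv_rhs => rw [← e]
      rw [Nat.add_mod_left]

theorem per_apply_Bb {d : ℕ} (hd : 0 < d) (u : Fin d → Bool) (i : ℕ) :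
    per hd u i = u ⟨i % d, Nat.mod_lt i hd⟩ := rfl

theorem sqBb_per {r d : ℕ} (hd : 0 < d) (u : Fin d → Bool) {i : ℕ} (hi : i < d + (r + 1)) :
    sqBb (fun j : Fin (r + 1) => per hd u j) (fun j : Fin d => per hd u (r + 1 + j)) i = per hd u i := by
  unfold sqBb
  by_cases h : i < r + 1
  · rw [dif_pos h]
  · rw [dif_neg h, dif_pos (show i - (r + 1) < d by omega)]
    change per hd u (r + 1 + (i - (r + 1))) = per hd u i
    congr 1
    omega

theorem closed_words (r : ℕ) (T : Bool → Bool → Module.End ℤ (ℕ → ℤ)) {d : ℕ} (hd : 0 < d) (h : ℕ) :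
    ∑ c : Wn (r + 1), ((TT r T) ^ d) (delw h c) h c = ∑ u : Fin d → Bool, Pr T (per hd u) (r + 1) d (del h) h := by
  have e1 : ∀ c : Wn (r + 1), ((TT r T) ^ d) (delw h c) h c =
      ∑ y : Fin d → Bool, if winBb c y = c then Pr T (sqBb c y) (r + 1) d (del h) h else 0 := by
    intro c
    rw [unfold_TT_Bb]
    refine sum_congr rfl fun y _ => ?_
    by_cases hw : winBb c y = c
    · rw [if_pos hw]
      congr 1
      congr 1
      funext h'
      unfold delw del
      simp only [hw, and_true]
    · rw [if_neg hw]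
      have e2 : (fun h' => delw h c h' (winBb c y)) = ∑ u ∈ (∅ : Finset ℕ), (fun _ : ℕ => (0 : ℤ)) := by
        rw [Finset.sum_empty]
        funext h'
        unfold delw
        simp only [hw, and_false, if_false]
        rfl
      rw [e2, Pr_sum_Bb, Finset.sum_empty]
      rfl
  rw [sum_congr rfl fun c _ => e1 c, ← Fintype.sum_prod_type' (f := fun (c : Wn (r + 1)) (y : Fin d → Bool) =>
    if winBb c y = c then Pr T (sqBb c y) (r + 1) d (del h) h else 0), ← Finset.sum_filter]
  symm
  refine Finset.sum_bij' (fun u _ => ((fun j : Fin (r + 1) => per hd u j, fun j : Fin d => per hd u (r + 1 + j)) :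
      Wn (r + 1) × (Fin d → Bool))) (fun p _ => fun i : Fin d => sqBb p.1 p.2 i) ?_ ?_ ?_ ?_ ?_
  · intro u _
    rw [Finset.mem_filter]
    refine ⟨Finset.mem_univ _, ?_⟩
    funext i
    unfold winBb
    have hi := i.isLt
    rw [sqBb_per hd u (show d + (i : ℕ) < d + (r + 1) by omega)]
    change u ⟨(d + (i : ℕ)) % d, Nat.mod_lt _ hd⟩ = u ⟨(i : ℕ) % d, Nat.mod_lt _ hd⟩
    congr 1
    ext
    exact Nat.add_mod_left _ _
  · intro p _
    exact Finset.mem_univ _
  · intro u _
    funext i
    change sqBb (fun j : Fin (r + 1) => per hd u j) (fun j : Fin d => per hd u (r + 1 + j)) i = u i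
    have hi := i.isLt
    rw [sqBb_per hd u (show (i : ℕ) < d + (r + 1) by omega), per_apply_Bb]
    congr 1
    ext
    exact Nat.mod_eq_of_lt hi
  · rintro ⟨c, y⟩ hp
    rw [Finset.mem_filter] at hp
    have hw : winBb c y = c := hp.2
    have hs : ∀ i < r + 1, sqBb c y (d + i) = sqBb c y i := by
      intro i hi
      have h1 := congrFun hw ⟨i, hi⟩
      unfold winBb at h1
      change sqBb c y (d + i) = _ at h1
      rw [h1]
      unfold sqBb
      rw [dif_pos hi]
    have hm := sq_mod_Bb hd (sqBb c y) hs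
    refine Prod.ext ?_ ?_
    · funext j
      change sqBb c y ((j : ℕ) % d) = c j
      have hj := j.isLt
      rw [← hm j (by omega)]
      unfold sqBb
      rw [dif_pos hj]
    · funext j
      change sqBb c y ((r + 1 + (j : ℕ)) % d) = y j
      have hj := j.isLt
      rw [← hm (r + 1 + j) (by omega)]
      unfold sqBb
      rw [dif_neg (by omega), dif_pos (show r + 1 + (j : ℕ) - (r + 1) < d by omega)]
      congr 1
      ext
      simp
  · intro u _
    refine congrFun ?_ h
    exact (Pr_congr_Bb T d (del h) (fun i hi => sqBb_per hd u hi) (fun i hi => sqBb_per hd u (by omega))).symm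

end Pool.Agent.H85.GR
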