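import Pool.Agent.H85.GR.Df

/-!
ROW Bc. The product of the step operators `TA` counts the second words `S ⊆ range (YY m)`.
PROOF. Induction on `m`: `Pr (m+1) f h = Pr m (T f) h` with `T` the operator of `(s m, s (m+R))`; use the induction hypothesis for the function `T f`. For `S ⊆ range (YY m)` satisfying the
constraints put `H = h + card S - UU m` (`cS S (YY m) = card S`). Cases of `(s m, s (m+R))`:
`(false, true)`: nothing changes. `(false, false)`: `YY (m+1) = YY m + 1`, `UU (m+1) = UU m`, `(up f) H = f H + f (H+1)`: the sets `S` and `insert (YY m) S`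
(`Finset.range_add_one`, `Finset.sum_powerset_insert`); the new constraint `i = m + 1` is automatic. `(true, true)`: `(dn f) H = f H + [H ≠ 0] f (H-1)`: `insert (YY m) S` gives `f H`,
`S` gives `f (H-1)` and is allowed iff `1 ≤ H`. `(true, false)`: two new elements `YY m`, `YY m + 1`, `TA`: `(up (dn f)) H = f H + [H ≠ 0] f (H-1) + f (H+1) + f H`
(the sets with `0, 1, 1, 2` new elements: heights `H - 1, H, H, H + 1`); `TB`: `(dn (up f)) H = f H + f (H+1) + [H ≠ 0] (f (H-1) + f H)`, where the sets without `YY m` (i.e. `S`, `insert (YY m + 1) S`) are allowed only if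
`1 ≤ H` (constraint in the middle: `UU (m+1) ≤ h + cS S (YY m + 1)`).
The old constraints only involve `cS S y` with `y ≤ YY m` (in the middle `YY i + 1 ≤ YY (i+1) ≤ YY m` if `s i = true`, `i < m`), which do not change when larger elements are inserted.
-/

set_option autoImplicit false

open Finset

noncomputable section

namespace Pool.Agent.H85.GR

theorem BcUU_succ (s : ℕ → Bool) (m : ℕ) : UU s (m + 1) = UU s m + (if s m = true then 1 else 0) := by
  unfold UU
  rw [sum_range_succ]

theorem BcYY_succ (s : ℕ → Bool) (R m : ℕ) : YY s R (m + 1) =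
    YY s R m + ((if s m = true then 1 else 0) + (if s (m + R) = true then 0 else 1)) := by
  unfold YY
  rw [sum_range_succ]

theorem BcYY_mono (s : ℕ → Bool) (R : ℕ) : Monotone (YY s R) := by
  refine monotone_nat_of_le_succ fun m => ?_
  rw [BcYY_succ]
  exact Nat.le_add_right _ _

theorem BccS_of_subset {S : Finset ℕ} {y : ℕ} (h : S ⊆ range y) : cS S y = S.card := by
  unfold cS
  rw [filter_true_of_mem]
  intro x hx
  exact mem_range.1 (h hx)

theorem BccS_union {S E : Finset ℕ} {y : ℕ} (h : ∀ x ∈ E, y ≤ x) : cS (E ∪ S) y = cS S y := by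
  unfold cS
  rw [filter_union, filter_false_of_mem, empty_union]
  intro x hx
  have := h x hx
  omega

/-- the constraints of `E ∪ S` where `E` consists of new elements -/
theorem Bc_key (s : ℕ → Bool) (R m h : ℕ) (S E : Finset ℕ) (hS : S ⊆ range (YY s R m))
    (hE : ∀ x ∈ E, YY s R m ≤ x ∧ x < YY s R (m + 1)) (f : ℕ → ℤ) :
    (if (∀ i ≤ m + 1, UU s i ≤ h + cS (E ∪ S) (YY s R i)) then
      f (h + (E ∪ S).card - UU s (m + 1)) else 0) =
    if (∀ i ≤ m, UU s i ≤ h + cS S (YY s R i)) then
      (if UU s (m + 1) ≤ h + (E.card + S.card) then f (h + (E.card + S.card) - UU s (m + 1)) else 0)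
      else 0 := by
  have hd : Disjoint E S := by
    rw [disjoint_left]
    intro x hx hx2
    have h1 := (hE x hx).1
    have h2 := mem_range.1 (hS hx2)
    omega
  have hc : (E ∪ S).card = E.card + S.card := card_union_of_disjoint hd
  have hsub : E ∪ S ⊆ range (YY s R (m + 1)) := by
    intro x hx
    rcases mem_union.1 hx with hx | hx
    · exact mem_range.2 (hE x hx).2
    · exact mem_range.2 ((mem_range.1 (hS hx)).trans_le (BcYY_mono s R (Nat.le_succ m)))
  have hiff : (∀ i ≤ m + 1, UU s i ≤ h + cS (E ∪ S) (YY s R i)) ↔
      ((∀ i ≤ m, UU s i ≤ h + cS S (YY s R i)) ∧ UU s (m + 1) ≤ h + (E.card + S.card)) := by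
    constructor
    · intro H
      refine ⟨fun i hi => ?_, ?_⟩
      · have := H i (by omega)
        rwa [BccS_union (fun x hx => (BcYY_mono s R hi).trans (hE x hx).1)] at this
      · have := H (m + 1) le_rfl
        rwa [BccS_of_subset hsub, hc] at this
    · rintro ⟨H1, H2⟩ i hi
      rcases Nat.lt_or_ge i (m + 1) with hlt | hge
      · have := H1 i (by omega)
        rwa [BccS_union (fun x hx => (BcYY_mono s R (by omega : i ≤ m)).trans (hE x hx).1)]
      · have e : i = m + 1 := by omega
        rw [e, BccS_of_subset hsub, hc]
        exact H2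
  rw [hc]
  by_cases h1 : ∀ i ≤ m, UU s i ≤ h + cS S (YY s R i)
  · by_cases h2 : UU s (m + 1) ≤ h + (E.card + S.card)
    · rw [if_pos (hiff.2 ⟨h1, h2⟩), if_pos h1, if_pos h2]
    · rw [if_neg (fun H => h2 (hiff.1 H).2), if_pos h1, if_neg h2]
  · rw [if_neg (fun H => h1 (hiff.1 H).1), if_neg h1]

theorem Bc_up (f : ℕ → ℤ) (h : ℕ) : up f h = f h + f (h + 1) := rfl
theorem Bc_dn (f : ℕ → ℤ) (h : ℕ) : dn f h = f h + (if h = 0 then 0 else f (h - 1)) := rfl

theorem Pr_TA (s : ℕ → Bool) (R m : ℕ) (f : ℕ → ℤ) (h : ℕ) : Pr TA s R m f h =
    ∑ S ∈ (range (YY s R m)).powerset,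
      if (∀ i ≤ m, UU s i ≤ h + cS S (YY s R i)) then f (h + S.card - UU s m) else 0 := by
  induction m generalizing f with
  | zero => simp [Pr, YY, UU]
  | succ m ih =>
    rw [Pr, ih]
    have hU := BcUU_succ s m
    have hY := BcYY_succ s R m
    have hle : ∀ S ∈ (range (YY s R m)).powerset, (∀ i ≤ m, UU s i ≤ h + cS S (YY s R i)) →
        UU s m ≤ h + S.card := by
      intro S hS H
      have := H m le_rfl
      rwa [BccS_of_subset (mem_powerset.1 hS)] at this
    set Y := YY s R m with hYdef
    rcases hs : s m with _ | _ <;> rcases hr : s (m + R) with _ | _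
    · -- `(false, false)`
      rw [hs] at hU
      rw [hs, hr] at hY
      simp only [Bool.false_eq_true, if_false, add_zero, zero_add] at hU hY
      rw [hY, range_add_one, sum_powerset_insert (by simp), ← sum_add_distrib]
      refine sum_congr rfl fun S hS => ?_
      have k0 := Bc_key s R m h S ∅ (mem_powerset.1 hS) (by simp) f
      have k1 := Bc_key s R m h S {Y} (mem_powerset.1 hS) (by
        intro x hx; rw [mem_singleton.1 hx, hY]; omega) f
      rw [empty_union, card_empty] at k0
      rw [← insert_eq, card_singleton] at k1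
      rw [k0, k1]
      by_cases H : ∀ i ≤ m, UU s i ≤ h + cS S (YY s R i)
      · have h3 := hle S hS H
        rw [if_pos H, if_pos H, if_pos H, if_pos (by omega), if_pos (by omega)]
        simp only [TA, Bc_up, hU]
        rw [show h + (0 + S.card) - UU s m = h + S.card - UU s m by omega,
          show h + (1 + S.card) - UU s m = h + S.card - UU s m + 1 by omega]
      · rw [if_neg H, if_neg H, if_neg H, add_zero]
    · -- `(false, true)`
      rw [hs] at hU
      rw [hs, hr] at hY
      simp only [Bool.false_eq_true, if_false, if_true, add_zero] at hU hY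
      rw [hY]
      refine sum_congr rfl fun S hS => ?_
      have k0 := Bc_key s R m h S ∅ (mem_powerset.1 hS) (by simp) f
      rw [empty_union, card_empty] at k0
      rw [k0]
      by_cases H : ∀ i ≤ m, UU s i ≤ h + cS S (YY s R i)
      · have h3 := hle S hS H
        rw [if_pos H, if_pos H, if_pos (by omega)]
        simp only [TA, hU, Module.End.one_apply, zero_add]
      · rw [if_neg H, if_neg H]
    · -- `(true, false)`
      rw [hs] at hU
      rw [hs, hr] at hY
      simp only [Bool.false_eq_true, if_false, if_true] at hU hY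
      rw [hY, show Y + (1 + 1) = (Y + 1) + 1 by omega, range_add_one,
        sum_powerset_insert (by simp), range_add_one,
        sum_powerset_insert (by simp), sum_powerset_insert (by simp),
        ← sum_add_distrib, ← sum_add_distrib, ← sum_add_distrib]
      refine sum_congr rfl fun S hS => ?_
      have k0 := Bc_key s R m h S ∅ (mem_powerset.1 hS) (by simp) f
      have k1 := Bc_key s R m h S {Y} (mem_powerset.1 hS) (by
        intro x hx; rw [mem_singleton.1 hx, hY]; omega) f
      have k2 := Bc_key s R m h S {Y + 1} (mem_powerset.1 hS) (by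
        intro x hx; rw [mem_singleton.1 hx, hY]; omega) f
      have k3 := Bc_key s R m h S {Y + 1, Y} (mem_powerset.1 hS) (by
        intro x hx
        rw [hY]
        rcases mem_insert.1 hx with e | e
        · omega
        · rw [mem_singleton.1 e]; omega) f
      rw [empty_union, card_empty] at k0
      rw [← insert_eq, card_singleton] at k1 k2
      rw [insert_union, ← insert_eq, card_pair (by omega)] at k3
      rw [k0, k1, k2, k3]
      by_cases H : ∀ i ≤ m, UU s i ≤ h + cS S (YY s R i)
      · have h3 := hle S hS H
        simp only [if_pos H, TA, Module.End.mul_apply, Bc_up, Bc_dn, hU]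
        rw [if_pos (by omega : UU s m + 1 ≤ h + (1 + S.card)),
          if_pos (by omega : UU s m + 1 ≤ h + (2 + S.card)),
          if_neg (by omega : ¬ (h + S.card - UU s m + 1 = 0)),
          show h + (1 + S.card) - (UU s m + 1) = h + S.card - UU s m by omega,
          show h + (2 + S.card) - (UU s m + 1) = h + S.card - UU s m + 1 by omega,
          show h + S.card - UU s m + 1 - 1 = h + S.card - UU s m by omega]
        by_cases h4 : h + S.card - UU s m = 0
        · rw [if_pos h4, if_neg (by omega)]
          ring
        · rw [if_neg h4, if_pos (by omega),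
            show h + (0 + S.card) - (UU s m + 1) = h + S.card - UU s m - 1 by omega]
          ring
      · simp only [if_neg H, add_zero]
    · -- `(true, true)`
      rw [hs] at hU
      rw [hs, hr] at hY
      simp only [if_true, add_zero] at hU hY
      rw [hY, range_add_one, sum_powerset_insert (by simp), ← sum_add_distrib]
      refine sum_congr rfl fun S hS => ?_
      have k0 := Bc_key s R m h S ∅ (mem_powerset.1 hS) (by simp) f
      have k1 := Bc_key s R m h S {Y} (mem_powerset.1 hS) (by
        intro x hx; rw [mem_singleton.1 hx, hY]; omega) f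
      rw [empty_union, card_empty] at k0
      rw [← insert_eq, card_singleton] at k1
      rw [k0, k1]
      by_cases H : ∀ i ≤ m, UU s i ≤ h + cS S (YY s R i)
      · have h3 := hle S hS H
        simp only [if_pos H, TA, Bc_dn, hU]
        rw [if_pos (by omega : UU s m + 1 ≤ h + (1 + S.card)),
          show h + (1 + S.card) - (UU s m + 1) = h + S.card - UU s m by omega]
        by_cases h4 : h + S.card - UU s m = 0
        · rw [if_pos h4, if_neg (by omega)]
          ring
        · rw [if_neg h4, if_pos (by omega),
            show h + (0 + S.card) - (UU s m + 1) = h + S.card - UU s m - 1 by omega]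
          ring
      · simp only [if_neg H, add_zero]

end Pool.Agent.H85.GR
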