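import Pool.Agent.H85.GR.Df
import Pool.Agent.H85.CY3.D

/-!
ROW Bg. Elementary facts on counting functions.
(`LF0`, `L0`, `rot`, `RFB_*`, `CTC_x`, `CTC_per`: Pool/Agent/H63/CY; `mxx`, `mxx_le`: Pool/Agent/H85/CY3/C. `hU.1.1 i`: `U (i+1) - U i ∈ {0,1}`, `hU.1.2`: `U (i+d) = U i + p`, `hU.2 : U 0 = 0`.
`mxx d n U V = max_i (U i - V (x_n i))`, `x_n i = CTC_x n U i = i + n - (U (i + n) - U i)`.)
PROOF. `UU_lt`, `YY_lt`: induction on `i` (`YY`: the increments are `x_R (i+1) - x_R i = 1 - (U (i+1+R) - U (i+R)) + (U (i+1) - U i)`). `YY_d`: `x_R d - x_R 0 = d` by the period.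
`mxx_mono`: `x_r i ≤ x_(r+1) i` and `V` is monotone; use `mxx_le` for both.
`mxx_mid`: the pointwise version of the constraint in the middle: if all `U i - V (x_(r+1) i) ≤ H` and for all `i` with `U (i+1) ≠ U i` we have `U (i+1) - V (x_(r+1) i + 1) ≤ H` then `mxx d r U V ≤ H`:
for such `i`: `x_(r+1) i + 1 = x_r (i+1)`; if `U (i+1) = U i` then `x_r (i+1) = x_(r+1) i`. It is enough to have the hypotheses for `0 ≤ i ≤ d` (period).
-/

set_option autoImplicit false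

open Finset Pool.Agent.H63.CY Pool.Agent.H85.CY3

noncomputable section

namespace Pool.Agent.H85.GR

/-- the letters of a counting function -/
def lt (U : ℤ → ℤ) : ℕ → Bool := fun i => decide (U ((i : ℤ) + 1) ≠ U (i : ℤ))

private theorem Bg_step {d p : ℕ} {U : ℤ → ℤ} (hU : U ∈ LF0 d p) (i : ℕ) :
    ((if lt U i = true then 1 else 0 : ℕ) : ℤ) = U ((i : ℤ) + 1) - U i := by
  have h := hU.1.1 (i : ℤ)
  by_cases hc : U ((i : ℤ) + 1) = U (i : ℤ)
  · have : lt U i = false := by unfold lt; simp [hc]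
    rw [this, hc]; simp
  · have : lt U i = true := by unfold lt; simp [hc]
    rw [this]
    simp only [if_true]
    have : U ((i : ℤ) + 1) = U i + 1 := by omega
    rw [this]; push_cast; ring

private theorem Bg_step' {d p : ℕ} {U : ℤ → ℤ} (hU : U ∈ LF0 d p) (i : ℕ) :
    ((if lt U i = true then 0 else 1 : ℕ) : ℤ) = 1 - (U ((i : ℤ) + 1) - U i) := by
  rw [← Bg_step hU i]
  by_cases hc : lt U i = true
  · rw [if_pos hc, if_pos hc]; simp
  · rw [if_neg hc, if_neg hc]; simp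

theorem UU_lt {d p : ℕ} {U : ℤ → ℤ} (hU : U ∈ LF0 d p) (i : ℕ) : (UU (lt U) i : ℤ) = U i := by
  induction i with
  | zero =>
    unfold UU
    simp only [range_zero, sum_empty, Nat.cast_zero]
    exact hU.2.symm
  | succ i ih =>
    have h1 : UU (lt U) (i + 1) = UU (lt U) i + (if lt U i = true then 1 else 0) := by
      unfold UU; rw [sum_range_succ]
    rw [h1, Nat.cast_add, ih, Bg_step hU i]
    push_cast
    ring

theorem YY_lt {d p : ℕ} {U : ℤ → ℤ} (hU : U ∈ LF0 d p) (R i : ℕ) : (YY (lt U) R i : ℤ) = CTC_x R U i - CTC_x R U 0 := by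
  induction i with
  | zero =>
    unfold YY
    simp
  | succ i ih =>
    have h1 : YY (lt U) R (i + 1) = YY (lt U) R i +
        ((if lt U i = true then 1 else 0) + (if lt U (i + R) = true then 0 else 1)) := by
      unfold YY; rw [sum_range_succ]
    rw [h1, Nat.cast_add, ih, Nat.cast_add, Bg_step hU i, Bg_step' hU (i + R)]
    unfold CTC_x
    have e1 : ((i + R : ℕ) : ℤ) = (i : ℤ) + R := by push_cast; ring
    have e2 : ((i : ℤ) + R + 1) = ((i + 1 : ℕ) : ℤ) + R := by push_cast; ring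
    have e3 : ((i + 1 : ℕ) : ℤ) = (i : ℤ) + 1 := by push_cast; ring
    rw [e1, e2, e3]
    ring

theorem YY_d {d p : ℕ} {U : ℤ → ℤ} (hU : U ∈ LF0 d p) (R : ℕ) : YY (lt U) R d = d := by
  have h := YY_lt hU R d
  have h1 : CTC_x R U d - CTC_x R U 0 = d := by
    unfold CTC_x
    have h2 := hU.1.2 (R : ℤ)
    have h3 := hU.1.2 0
    have e1 : (d : ℤ) + R = R + d := by ring
    rw [zero_add] at h3
    rw [e1, h2, h3, zero_add]
    ring
  rw [h1] at h
  exact_mod_cast h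

private theorem Bg_x_mono {d p : ℕ} {U : ℤ → ℤ} (hU : U ∈ LF0 d p) (r : ℕ) (i : ℤ) :
    CTC_x (r : ℤ) U i ≤ CTC_x ((r : ℤ) + 1) U i := by
  unfold CTC_x
  have h := hU.1.1 (i + r)
  have e : i + ((r : ℤ) + 1) = i + r + 1 := by ring
  rw [e]
  linarith [h.2]

private theorem Bg_x_eq {d p : ℕ} {U : ℤ → ℤ} (hU : U ∈ LF0 d p) (r : ℕ) (i : ℤ) (h : U (i + 1) ≠ U i) :
    CTC_x (r : ℤ) U (i + 1) = CTC_x ((r : ℤ) + 1) U i + 1 := by
  have h1 := hU.1.1 i
  have h2 : U (i + 1) = U i + 1 := by omega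
  unfold CTC_x
  have e : i + ((r : ℤ) + 1) = i + 1 + r := by ring
  rw [e, h2]
  ring

private theorem Bg_x_eq' {U : ℤ → ℤ} (r : ℕ) (i : ℤ) (h : U (i + 1) = U i) :
    CTC_x (r : ℤ) U (i + 1) = CTC_x ((r : ℤ) + 1) U i := by
  unfold CTC_x
  have e : i + ((r : ℤ) + 1) = i + 1 + r := by ring
  rw [e, h]

theorem mxx_mono {d p : ℕ} (hd : 1 ≤ d) (r : ℕ) {U V : ℤ → ℤ} (hU : U ∈ LF0 d p) (hV : V ∈ LF0 d p) :
    mxx d ((r : ℤ) + 1) U V ≤ mxx d r U V := by
  rw [mxx_le hd _ hU hV]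
  intro i
  have h1 := (mxx_le hd (r : ℤ) hU hV (mxx d r U V)).1 le_rfl i
  have h2 := Bg_x_mono hU r i
  have h3 := (CTB_mono hV.1 h2).1
  linarith

theorem mxx_mid {d p : ℕ} (hd : 1 ≤ d) (r : ℕ) {U V : ℤ → ℤ} (hU : U ∈ LF0 d p) (hV : V ∈ LF0 d p) (H : ℤ) :
    ((∀ i : ℕ, i ≤ d → U i - V (CTC_x ((r : ℤ) + 1) U i) ≤ H) ∧
      ∀ i : ℕ, i < d → U ((i : ℤ) + 1) ≠ U i → U ((i : ℤ) + 1) - V (CTC_x ((r : ℤ) + 1) U i + 1) ≤ H) ↔ mxx d r U V ≤ H := by
  rw [mxx_le hd (r : ℤ) hU hV]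
  constructor
  · rintro ⟨h1, h2⟩
    have key : ∀ i : ℕ, i < d → U ((i : ℤ) + 1) - V (CTC_x (r : ℤ) U ((i : ℤ) + 1)) ≤ H := by
      intro i hi
      by_cases hc : U ((i : ℤ) + 1) = U (i : ℤ)
      · rw [Bg_x_eq' r (i : ℤ) hc, hc]
        exact h1 i hi.le
      · rw [Bg_x_eq hU r (i : ℤ) hc]
        exact h2 i hi hc
    have hper : Function.Periodic (fun i : ℤ => U i - V (CTC_x (r : ℤ) U i)) (d : ℤ) :=
      fun i => CTC_per (r : ℤ) hU hV i
    intro i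
    obtain ⟨y, hy, he⟩ := hper.exists_mem_Ioc (by exact_mod_cast hd) i 0
    have he' : U i - V (CTC_x (r : ℤ) U i) = U y - V (CTC_x (r : ℤ) U y) := he
    rw [he']
    obtain ⟨hy1, hy2⟩ := hy
    obtain ⟨m, hm⟩ := Int.eq_ofNat_of_zero_le (show 0 ≤ y - 1 by omega)
    have := key m (by omega)
    have e : (m : ℤ) + 1 = y := by omega
    rw [e] at this
    exact this
  · intro h
    refine ⟨fun i _ => ?_, fun i _ hc => ?_⟩
    · have h2 := (CTB_mono hV.1 (Bg_x_mono hU r (i : ℤ))).1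
      have := h i
      linarith
    · rw [← Bg_x_eq hU r (i : ℤ) hc]
      exact h _

end Pool.Agent.H85.GR
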