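import Pool.Agent.H85.GR.Df
import Pool.Agent.H85.CY3.D

/-!
ROW Bh. Sums over the subsets of `range d` with `p` elements are sums over `L0 d p`.
PROOF. `RFB_sum` (Pool/Agent/H63/CY/RFB): `∑ V ∈ L0 d p, G (RFB_w d V) = ∑ t with RFB_n t = p, G t`, and `V y = RFB_ct (RFB_w d V) y` for `y ≤ d` (`RFB_val`). Subsets `S` of `range d` correspond to
words `t : Fin d → Bool` (`t c = true ↔ (c : ℕ) ∈ S`), `card S = RFB_n t`, `cS S y = RFB_ct t y` (`Finset.sum_nbij'` or `Finset.sum_bij`).
-/

set_option autoImplicit false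

open Finset Pool.Agent.H63.CY Pool.Agent.H85.CY3

noncomputable section

namespace Pool.Agent.H85.GR

private theorem Bh_map {d : ℕ} {S : Finset ℕ} (hS : S ⊆ range d) (y : ℕ) :
    S.filter (fun x => x < y) = ((univ : Finset (Fin d)).filter
      (fun c : Fin d => (c : ℕ) < y ∧ decide ((c : ℕ) ∈ S) = true)).map Fin.valEmbedding := by
  ext x
  simp only [mem_filter, mem_map, mem_univ, true_and, Fin.valEmbedding_apply, decide_eq_true_eq]
  constructor
  · rintro ⟨h1, h2⟩
    exact ⟨⟨x, mem_range.1 (hS h1)⟩, ⟨h2, h1⟩, rfl⟩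
  · rintro ⟨c, ⟨h1, h2⟩, rfl⟩
    exact ⟨h2, h1⟩

private theorem Bh_map' {d : ℕ} {S : Finset ℕ} (hS : S ⊆ range d) :
    S = ((univ : Finset (Fin d)).filter
      (fun c : Fin d => decide ((c : ℕ) ∈ S) = true)).map Fin.valEmbedding := by
  ext x
  simp only [mem_filter, mem_map, mem_univ, true_and, Fin.valEmbedding_apply, decide_eq_true_eq]
  constructor
  · intro h1
    exact ⟨⟨x, mem_range.1 (hS h1)⟩, h1, rfl⟩
  · rintro ⟨c, h1, rfl⟩
    exact h1

theorem sum_sets {d : ℕ} (hd : 1 ≤ d) (p : ℕ) (F : (ℕ → ℤ) → ℤ) :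
    ∑ S ∈ (range d).powerset, (if S.card = p then F (fun y => if y ≤ d then (cS S y : ℤ) else 0) else 0) =
      ∑ V ∈ L0 d p, F (fun y => if y ≤ d then V y else 0) := by
  have h1 : ∑ V ∈ L0 d p, F (fun y => if y ≤ d then V y else 0) =
      ∑ V ∈ L0 d p, (fun t : Fin d → Bool => F (fun y => if y ≤ d then RFB_ct t y else 0)) (RFB_w d V) := by
    refine sum_congr rfl fun V hV => ?_
    beta_reduce
    congr 1
    funext y
    split_ifs with hy
    · exact RFB_val ((mem_L0 hd).mp hV) y hy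
    · rfl
  have h0 := RFB_sum hd p (fun t : Fin d → Bool => F (fun y => if y ≤ d then RFB_ct t y else 0))
  rw [h1, h0, sum_filter]
  refine sum_nbij' (fun S => fun c : Fin d => decide ((c : ℕ) ∈ S))
    (fun t => ((univ : Finset (Fin d)).filter (fun c : Fin d => t c = true)).map Fin.valEmbedding)
    (fun S _ => mem_univ _) ?_ ?_ ?_ ?_
  · intro t _
    rw [mem_powerset]
    intro x hx
    rw [mem_map] at hx
    obtain ⟨c, -, rfl⟩ := hx
    exact mem_range.2 c.2
  · intro S hS
    exact (Bh_map' (mem_powerset.1 hS)).symm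
  · intro t _
    funext c
    by_cases h : t c = true
    · rw [h, decide_eq_true_eq, mem_map]
      exact ⟨c, mem_filter.2 ⟨mem_univ _, h⟩, rfl⟩
    · rw [Bool.not_eq_true] at h
      rw [h, decide_eq_false_iff_not, mem_map]
      rintro ⟨c', hc', e⟩
      have e' : c' = c := Fin.val_injective e
      subst e'
      rw [(mem_filter.1 hc').2] at h
      exact absurd h (by decide)
  · intro S hS
    have hS' := mem_powerset.1 hS
    have h2 : RFB_n (fun c : Fin d => decide ((c : ℕ) ∈ S)) = S.card := by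
      unfold RFB_n
      conv_rhs => rw [Bh_map' hS']
      rw [card_map]
    have h3 : ∀ y : ℕ, RFB_ct (fun c : Fin d => decide ((c : ℕ) ∈ S)) y = (cS S y : ℤ) := by
      intro y
      unfold RFB_ct cS
      rw [Bh_map hS' y, card_map]
    rw [h2]
    simp only [h3]

end Pool.Agent.H85.GR
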