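import Pool.Agent.H85.GR.Bc
import Pool.Agent.H85.GR.Bg
import Pool.Agent.H85.GR.Bh

/-!
ROW Bd. For a counting function `U` the product of the operators `TA` counts the `V ∈ L0 d p` with a bound on `mxx d R U V`.
(`LF0`, `L0`, `rot`, `RFB_*`: Pool/Agent/H63/CY; `mxx`, `mxx_le`, `mx_spec`, `per_red`: Pool/Agent/H85/CY3/C, D. `mxx d n U V = max_i (U i - V (x_n i))`,
`x_n i = CTC_x n U i = i + n - (U (i + n) - U i)`.)
PROOF. Use `Pr_TA` with `s = lt U`, `m = d`, `f = del h`, and `UU_lt`, `YY_lt`, `YY_d`. The left side is the number of the `S ⊆ range d` with `card S = p` (`f (h + card S - U d) = 1` iff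
`card S = p`, as `U d = p ≤ h + card S` by the constraint `i = d`) and the constraints, which only involve `cS S y` with `y ≤ d`. By `sum_sets` it is the number of the `V' ∈ L0 d p` with the constraints for
`V' y` instead of `cS S y`. Now `∑ V' ∈ L0 d p, F V' = ∑ V ∈ L0 d p, F (rot c V)` with `c = x_R 0` (`sum_rot`), `rot c V y = V (c + y) - V c`: the constraint
`U i ≤ h + V' (x_R i - x_R 0)` says `U i - V (x_R i) ≤ h - V (x_R 0)`, for `0 ≤ i ≤ d`, hence for all integers `i` (period `d`, `CTC_per`), i.e. `mxx d R U V ≤ h - V (x_R 0)` (`mxx_le`).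
-/

set_option autoImplicit false

open Finset Pool.Agent.H63.CY Pool.Agent.H85.CY3

noncomputable section

namespace Pool.Agent.H85.GR

private theorem Bd_mono (s : ℕ → Bool) (R : ℕ) {i j : ℕ} (h : i ≤ j) : YY s R i ≤ YY s R j := by
  unfold YY
  exact Finset.sum_le_sum_of_subset (fun x hx => mem_range.2 (lt_of_lt_of_le (mem_range.1 hx) h))

private theorem Bd_cS {S : Finset ℕ} {d : ℕ} (hS : S ⊆ range d) : cS S d = S.card := by
  unfold cS
  rw [Finset.filter_true_of_mem]
  intro x hx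
  exact mem_range.1 (hS hx)

theorem Pr_TA_V {d p : ℕ} (hd : 1 ≤ d) (R : ℕ) {U : ℤ → ℤ} (hU : U ∈ LF0 d p) (h : ℕ) : Pr TA (lt U) R d (del h) h =
    ∑ V ∈ L0 d p, if mxx d R U V ≤ (h : ℤ) - V (CTC_x R U 0) then 1 else 0 := by
  have hYd := YY_d hU R
  have hYle : ∀ i ≤ d, YY (lt U) R i ≤ d := fun i hi => by
    have := Bd_mono (lt U) R hi
    omega
  have hUd : UU (lt U) d = p := by
    have h1 := UU_lt hU d
    have h2 := hU.1.2 0
    rw [hU.2, zero_add, zero_add] at h2
    rw [h2] at h1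
    exact_mod_cast h1
  rw [Pr_TA]
  rw [hYd]
  have e1 : ∀ S ∈ (range d).powerset,
      (if (∀ i ≤ d, UU (lt U) i ≤ h + cS S (YY (lt U) R i)) then del h (h + S.card - UU (lt U) d) else 0) =
      (if S.card = p then (fun V' : ℕ → ℤ => if ∀ i ≤ d, U ((i : ℕ) : ℤ) ≤ (h : ℤ) + V' (YY (lt U) R i) then (1 : ℤ) else 0)
        (fun y => if y ≤ d then (cS S y : ℤ) else 0) else 0) := by
    intro S hS
    rw [mem_powerset] at hS
    have e2 : (∀ i ≤ d, UU (lt U) i ≤ h + cS S (YY (lt U) R i)) ↔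
        (∀ i ≤ d, U ((i : ℕ) : ℤ) ≤ (h : ℤ) + (fun y : ℕ => if y ≤ d then (cS S y : ℤ) else 0) (YY (lt U) R i)) := by
      refine forall_congr' fun i => forall_congr' fun hi => ?_
      simp only [if_pos (hYle i hi)]
      rw [← UU_lt hU i]
      constructor
      · intro h3
        exact_mod_cast h3
      · intro h3
        exact_mod_cast h3
    by_cases hc : ∀ i ≤ d, UU (lt U) i ≤ h + cS S (YY (lt U) R i)
    · have h3 := hc d le_rfl
      rw [hYd, Bd_cS hS, hUd] at h3
      rw [if_pos hc]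
      simp only [if_pos (e2.1 hc)]
      unfold del
      rw [hUd]
      by_cases h4 : S.card = p
      · rw [if_pos h4, if_pos (by omega)]
      · rw [if_neg h4, if_neg (by omega)]
    · rw [if_neg hc]
      simp only [if_neg (fun h5 => hc (e2.2 h5)), ite_self]
  rw [sum_congr rfl e1, sum_sets hd p (fun V' : ℕ → ℤ => if ∀ i ≤ d, U ((i : ℕ) : ℤ) ≤ (h : ℤ) + V' (YY (lt U) R i) then (1 : ℤ) else 0)]
  have e3 : ∀ V ∈ L0 d p, (fun V' : ℕ → ℤ => if ∀ i ≤ d, U ((i : ℕ) : ℤ) ≤ (h : ℤ) + V' (YY (lt U) R i) then (1 : ℤ) else 0)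
        (fun y => if y ≤ d then V y else 0) =
      (fun V : ℤ → ℤ => if ∀ i : ℕ, i ≤ d → U i ≤ (h : ℤ) + V (YY (lt U) R i) then (1 : ℤ) else 0) V := by
    intro V _
    have e4 : (∀ i ≤ d, U ((i : ℕ) : ℤ) ≤ (h : ℤ) + (fun y : ℕ => if y ≤ d then V y else 0) (YY (lt U) R i)) ↔
        (∀ i : ℕ, i ≤ d → U i ≤ (h : ℤ) + V (YY (lt U) R i)) := by
      refine forall_congr' fun i => forall_congr' fun hi => ?_
      have e7 : (fun y : ℕ => if y ≤ d then V y else 0) (YY (lt U) R i) = V (YY (lt U) R i) := if_pos (hYle i hi)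
      rw [e7]
    simp only [e4]
  rw [sum_congr rfl e3, ← sum_rot hd (CTC_x R U 0)]
  refine sum_congr rfl fun V hV => ?_
  have hV' := (mem_L0 hd).1 hV
  have e5 : (∀ i : ℕ, i ≤ d → U i ≤ (h : ℤ) + rot (CTC_x R U 0) V (YY (lt U) R i)) ↔
      mxx d R U V ≤ (h : ℤ) - V (CTC_x R U 0) := by
    rw [mxx_le hd R hU hV']
    have e6 : ∀ i : ℕ, rot (CTC_x R U 0) V (YY (lt U) R i) = V (CTC_x R U i) - V (CTC_x R U 0) := by
      intro i
      unfold rot
      rw [YY_lt hU R i, sub_add_cancel]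
    constructor
    · intro h6 i
      obtain ⟨j, hj, h7, _⟩ := per_red hd (f := fun i => U i - V (CTC_x R U i)) (CTC_per R hU hV') i
      have h8 := h6 j hj.le
      rw [e6] at h8
      linarith
    · intro h6 i _
      have h7 := h6 i
      rw [e6]
      linarith
  simp only [e5]

end Pool.Agent.H85.GR
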