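import Pool.Agent.H85.GR.Bf
import Pool.Agent.H85.GR.Bg
import Pool.Agent.H85.GR.Bh

/-!
ROW Bi. For a counting function `U` the product of the operators `TB` counts the `V ∈ L0 d p` with a bound on `mxx d r U V`, `R = r + 1`.
(`LF0`, `L0`, `rot`, `RFB_*`: Pool/Agent/H63/CY; `mxx`, `mxx_le`, `mx_spec`, `per_red`: Pool/Agent/H85/CY3/C, D. `mxx d n U V = max_i (U i - V (x_n i))`,
`x_n i = CTC_x n U i = i + n - (U (i + n) - U i)`.)
PROOF. Use `Pr_TB` with `s = lt U`, `m = d`, `f = del h`, and `UU_lt`, `YY_lt`, `YY_d`. The left side is the number of the `S ⊆ range d` with `card S = p` (`f (h + card S - U d) = 1` iff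
`card S = p`, as `U d = p ≤ h + card S` by the constraint `i = d`) and the constraints, which only involve `cS S y` with `y ≤ d`. By `sum_sets` it is the number of the `V' ∈ L0 d p` with the constraints for
`V' y` instead of `cS S y`. Now `∑ V' ∈ L0 d p, F V' = ∑ V ∈ L0 d p, F (rot c V)` with `c = x_R 0` (`sum_rot`), `rot c V y = V (c + y) - V c`: the constraint
`U i ≤ h + V' (x_R i - x_R 0)` says `U i - V (x_R i) ≤ h - V (x_R 0)`, for `0 ≤ i ≤ d`, hence for all integers `i` (period `d`, `CTC_per`). The constraint in the middle, for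
`s i = true` i.e. `U (i+1) ≠ U i`, says `U (i+1) - V (x_R i + 1) ≤ h - V (x_R 0)`. Together: `mxx d r U V ≤ h - V (x_R 0)` by `mxx_mid`.
-/

set_option autoImplicit false

open Finset Pool.Agent.H63.CY Pool.Agent.H85.CY3

noncomputable section

namespace Pool.Agent.H85.GR

theorem Pr_TB_V {d p : ℕ} (hd : 1 ≤ d) (r : ℕ) {U : ℤ → ℤ} (hU : U ∈ LF0 d p) (h : ℕ) : Pr TB (lt U) (r + 1) d (del h) h =
    ∑ V ∈ L0 d p, if mxx d r U V ≤ (h : ℤ) - V (CTC_x ((r : ℤ) + 1) U 0) then 1 else 0 := by
  classical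
  have hYd : YY (lt U) (r + 1) d = d := YY_d hU (r + 1)
  have hY : ∀ i : ℕ, (YY (lt U) (r + 1) i : ℤ) = CTC_x ((r : ℤ) + 1) U i - CTC_x ((r : ℤ) + 1) U 0 := by
    intro i
    have h1 := YY_lt hU (r + 1) i
    push_cast at h1
    exact h1
  have hUd : UU (lt U) d = p := by
    have h1 := UU_lt hU d
    have h2 := hU.1.2 0
    rw [zero_add, hU.2, zero_add] at h2
    rw [h2] at h1
    exact_mod_cast h1
  have hYs : ∀ i, YY (lt U) (r + 1) (i + 1) = YY (lt U) (r + 1) i +
      ((if lt U i = true then 1 else 0) + (if lt U (i + (r + 1)) = true then 0 else 1)) := by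
    intro i
    unfold YY
    rw [sum_range_succ]
  have hmono : Monotone (YY (lt U) (r + 1)) := monotone_nat_of_le_succ (fun i => by rw [hYs]; omega)
  have hle : ∀ i ≤ d, YY (lt U) (r + 1) i ≤ d := fun i hi => (hmono hi).trans hYd.le
  have hle1 : ∀ i < d, lt U i = true → YY (lt U) (r + 1) i + 1 ≤ d := by
    intro i hi ht
    have h1 := hle (i + 1) hi
    rw [hYs, if_pos ht] at h1
    omega
  obtain ⟨G, hG⟩ : ∃ G : (ℕ → ℤ) → Prop, ∀ v, G v ↔
      ((∀ i : ℕ, i ≤ d → U i ≤ h + v (YY (lt U) (r + 1) i)) ∧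
        ∀ i : ℕ, i < d → lt U i = true → U ((i : ℤ) + 1) ≤ h + v (YY (lt U) (r + 1) i + 1)) :=
    ⟨fun v => _, fun _ => Iff.rfl⟩
  rw [Pr_TB, hYd]
  have key : ∀ S ∈ (range d).powerset,
      (((∀ i ≤ d, UU (lt U) i ≤ h + cS S (YY (lt U) (r + 1) i)) ∧
        ∀ i < d, lt U i = true → UU (lt U) (i + 1) ≤ h + cS S (YY (lt U) (r + 1) i + 1)) ↔
        G (fun y => if y ≤ d then (cS S y : ℤ) else 0)) := by
    intro S _
    rw [hG]
    refine and_congr ?_ ?_
    · refine forall_congr' (fun i => forall_congr' (fun hi => ?_))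
      rw [if_pos (hle i hi), ← UU_lt hU i]
      norm_cast
    · refine forall_congr' (fun i => forall_congr' (fun hi => forall_congr' (fun ht => ?_)))
      have h1 := UU_lt hU (i + 1)
      push_cast at h1
      rw [if_pos (hle1 i hi ht), ← h1]
      norm_cast
  refine Eq.trans (b := ∑ S ∈ (range d).powerset, (if S.card = p then
    (fun v => if G v then (1 : ℤ) else 0) (fun y => if y ≤ d then (cS S y : ℤ) else 0) else 0))
    (Finset.sum_congr rfl (fun S hS => ?_)) ?_
  · have hSd : cS S d = S.card := by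
      unfold cS
      rw [Finset.filter_true_of_mem]
      intro x hx
      exact Finset.mem_range.mp (Finset.mem_powerset.mp hS hx)
    by_cases hc : (∀ i ≤ d, UU (lt U) i ≤ h + cS S (YY (lt U) (r + 1) i)) ∧
        ∀ i < d, lt U i = true → UU (lt U) (i + 1) ≤ h + cS S (YY (lt U) (r + 1) i + 1)
    · rw [if_pos hc]
      have h1 := hc.1 d le_rfl
      rw [hYd, hSd, hUd] at h1
      have h2 := (key S hS).mp hc
      simp only [if_pos h2]
      unfold del
      rw [hUd]
      refine if_congr ?_ rfl rfl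
      omega
    · rw [if_neg hc]
      have h2 : ¬ G (fun y => if y ≤ d then (cS S y : ℤ) else 0) := fun h3 => hc ((key S hS).mpr h3)
      simp only [if_neg h2, ite_self]
  · rw [sum_sets hd p (fun v => if G v then (1 : ℤ) else 0)]
    rw [← sum_rot hd (CTC_x ((r : ℤ) + 1) U 0)
      (fun V => (fun v => if G v then (1 : ℤ) else 0) (fun y : ℕ => if y ≤ d then V y else 0))]
    refine Finset.sum_congr rfl (fun V hV => ?_)
    have hV' := (mem_L0 hd).1 hV
    have e2 : G (fun y : ℕ => if y ≤ d then rot (CTC_x ((r : ℤ) + 1) U 0) V y else 0) ↔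
        mxx d r U V ≤ (h : ℤ) - V (CTC_x ((r : ℤ) + 1) U 0) := by
      rw [← mxx_mid hd r hU hV' ((h : ℤ) - V (CTC_x ((r : ℤ) + 1) U 0)), hG]
      refine and_congr ?_ ?_
      · refine forall_congr' (fun i => forall_congr' (fun hi => ?_))
        rw [if_pos (hle i hi)]
        unfold rot
        rw [hY, sub_add_cancel]
        constructor <;> intro h1 <;> linarith
      · refine forall_congr' (fun i => forall_congr' (fun hi => ?_))
        have h3 : (lt U i = true ↔ U ((i : ℤ) + 1) ≠ U i) := by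
          unfold lt
          rw [decide_eq_true_iff]
        rw [← h3]
        refine forall_congr' (fun ht => ?_)
        rw [if_pos (hle1 i hi ht)]
        unfold rot
        push_cast
        rw [hY, show CTC_x ((r : ℤ) + 1) U i - CTC_x ((r : ℤ) + 1) U 0 + 1 + CTC_x ((r : ℤ) + 1) U 0 =
          CTC_x ((r : ℤ) + 1) U i + 1 by ring]
        constructor <;> intro h1 <;> linarith
    simp only [e2]

end Pool.Agent.H85.GR
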