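import Pool.Agent.H85.GR.Bd
import Pool.Agent.H85.GR.Bi
import Pool.Agent.H85.GR.Bb
import Pool.Agent.H85.GR.Ba

/-!
# The sum of the differences of the maxima
-/

set_option autoImplicit false

open Finset Pool.Agent.H63.CY Pool.Agent.H85.CY3

noncomputable section

namespace Pool.Agent.H85.GR

/-- all words -/
theorem sum_U {d : ℕ} (hd : 1 ≤ d) (G : (Fin d → Bool) → ℤ) :
    ∑ u : Fin d → Bool, G u = ∑ p ∈ range (d + 1), ∑ U ∈ L0 d p, G (RFB_w d U) := by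
  have h1 : ∀ p ∈ range (d + 1), ∑ U ∈ L0 d p, G (RFB_w d U) =
      ∑ s ∈ (univ : Finset (Fin d → Bool)).filter (fun s => RFB_n s = p), G s := fun p _ => RFB_sum hd p G
  rw [sum_congr rfl h1, sum_fiberwise_of_maps_to (fun s _ => mem_range.mpr (Nat.lt_succ_of_le (RFB_n_le s)))]

theorem per_lt {d p : ℕ} (hd : 0 < d) {U : ℤ → ℤ} (hU : U ∈ LF0 d p) : per hd (RFB_w d U) = lt U := by
  funext i
  unfold per RFB_w lt
  have h1 : (i : ℤ) = ((i % d : ℕ) : ℤ) + d * ((i / d : ℕ) : ℤ) := by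
    have := Nat.mod_add_div i d
    exact_mod_cast this.symm
  have e0 := RFB_per hU ((i % d : ℕ) : ℤ) ((i / d : ℕ) : ℤ)
  have e1 := RFB_per hU (((i % d : ℕ) : ℤ) + 1) ((i / d : ℕ) : ℤ)
  rw [← h1] at e0
  rw [show ((i % d : ℕ) : ℤ) + 1 + d * ((i / d : ℕ) : ℤ) = (i : ℤ) + 1 by rw [h1]; push_cast; ring] at e1
  have h2 : (U (((i % d : ℕ) : ℤ) + 1) ≠ U ((i % d : ℕ) : ℤ)) ↔ (U ((i : ℤ) + 1) ≠ U (i : ℤ)) := by
    rw [e0, e1]
    constructor
    · intro h h3; exact h (by linarith)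
    · intro h h3; exact h (by linarith)
  exact decide_eq_decide.mpr h2

theorem LF_step {d p : ℕ} {V : ℤ → ℤ} (hV : V ∈ LF0 d p) (a : ℤ) (n : ℕ) : V a ≤ V (a + n) ∧ V (a + n) ≤ V a + n := by
  induction n with
  | zero => simp
  | succ n ih =>
    have h := hV.1.1 (a + n)
    push_cast
    rw [show a + ((n : ℤ) + 1) = a + n + 1 by ring]
    constructor <;> omega

theorem LF_step' {d p : ℕ} {V : ℤ → ℤ} (hV : V ∈ LF0 d p) {a b : ℤ} (h : a ≤ b) : V a ≤ V b ∧ V b ≤ V a + (b - a) := by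
  obtain ⟨n, hn⟩ := Int.eq_ofNat_of_zero_le (by omega : 0 ≤ b - a)
  have h1 := LF_step hV a n
  rw [show a + (n : ℤ) = b by omega] at h1
  constructor
  · exact h1.1
  · omega

theorem mxx_ge {d p : ℕ} (hd : 1 ≤ d) (n : ℤ) {U V : ℤ → ℤ} (hU : U ∈ LF0 d p) (hV : V ∈ LF0 d p) (i : ℤ) :
    U i - V (CTC_x n U i) ≤ mxx d n U V := (mxx_le hd n hU hV _).1 le_rfl i

theorem mxx_up {d p : ℕ} (hd : 1 ≤ d) (r : ℕ) {U V : ℤ → ℤ} (hU : U ∈ LF0 d p) (hV : V ∈ LF0 d p) :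
    mxx d r U V ≤ (d : ℤ) + 1 - V (CTC_x ((r : ℤ) + 1) U 0) := by
  rw [mxx_le hd _ hU hV]
  -- reduce to one period
  have key : ∀ i : ℤ, 0 ≤ i → i ≤ d → U i - V (CTC_x r U i) ≤ (d : ℤ) + 1 - V (CTC_x ((r : ℤ) + 1) U 0) := by
    intro i h0 h1
    have hUi := LF_step' hU h0
    have a1 := hU.1.1 (i + r)
    have a2 := LF_step' hU (show (0 : ℤ) + (r + 1) ≤ i + (r + 1) by omega)
    have u0 := hU.2
    have hx : CTC_x ((r : ℤ) + 1) U 0 ≤ CTC_x r U i + 1 := by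
      unfold CTC_x
      rw [show i + (r : ℤ) + 1 = i + (r + 1) by ring] at a1
      omega
    have hv := hV.1.1 (CTC_x r U i)
    have hm := (LF_step' hV hx).1
    omega
  intro i
  have hd' : (0 : ℤ) < d := by omega
  have r1 := Int.emod_nonneg i hd'.ne'
  have r2 := Int.emod_lt_of_pos i hd'
  have r3 := Int.emod_add_mul_ediv i d
  have hper : ∀ a k : ℤ, (fun i => U i - V (CTC_x r U i)) (a + d * k) = (fun i => U i - V (CTC_x r U i)) a := by
    intro a k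
    have hf : ∀ i, (fun i => U i - V (CTC_x r U i)) (i + d) = (fun i => U i - V (CTC_x r U i)) i := fun i => CTC_per r hU hV i
    induction k using Int.induction_on with
    | zero => simp
    | succ k ih =>
      have e : a + (d : ℤ) * ((k : ℤ) + 1) = a + d * (k : ℤ) + d := by ring
      rw [e, hf, ih]
    | pred k ih =>
      have h := hf (a + d * (-(k : ℤ) - 1))
      have e : a + (d : ℤ) * (-(k : ℤ) - 1) + d = a + d * (-(k : ℤ)) := by ring
      rw [e, ih] at h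
      exact h.symm
  have h4 := hper (i % d) (i / d)
  rw [r3] at h4
  have h5 := key (i % d) r1 r2.le
  have h4' : U i - V (CTC_x r U i) = U (i % d) - V (CTC_x r U (i % d)) := h4
  rw [h4']
  exact h5

theorem sum_ind (L : ℕ) (a b v : ℤ) (h1 : -v ≤ a) (h2 : a ≤ b) (h3 : b ≤ L - v) :
    ∑ h ∈ range L, ((if a ≤ (h : ℤ) - v then (1 : ℤ) else 0) - (if b ≤ (h : ℤ) - v then 1 else 0)) = b - a := by
  have key : ∀ c : ℤ, -v ≤ c → c ≤ L - v → ∑ h ∈ range L, (if c ≤ (h : ℤ) - v then (1 : ℤ) else 0) = L - v - c := by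
    intro c hc1 hc2
    obtain ⟨n, hn⟩ := Int.eq_ofNat_of_zero_le (by omega : 0 ≤ c + v)
    have e : ∀ h ∈ range L, (if c ≤ (h : ℤ) - v then (1 : ℤ) else 0) = if n ≤ h then 1 else 0 := by
      intro h _
      by_cases hh : n ≤ h
      · rw [if_pos (by omega), if_pos hh]
      · rw [if_neg (by omega), if_neg hh]
    rw [sum_congr rfl e, ← sum_filter, sum_const, nsmul_eq_mul, mul_one]
    have e2 : (range L).filter (fun h => n ≤ h) = Ico n L := by
      ext h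
      simp only [mem_filter, mem_range, mem_Ico]
      tauto
    rw [e2, Nat.card_Ico]
    omega
  rw [sum_sub_distrib, key a h1 (by omega), key b (by omega) h3]
  ring

theorem Nn_eq (r : ℕ) {d : ℕ} (hd : 1 ≤ d) : Nn r d =
    ∑ p ∈ range (d + 1), ∑ U ∈ L0 d p, ∑ V ∈ L0 d p, (mxx d r U V - mxx d ((r : ℤ) + 1) U V) := by
  rw [← trace_fin r d (d + 2) (by omega)]
  have e1 : ∀ h ∈ range (d + 2), ∑ c : Wn (r + 1), (((AA (r + 1)) ^ d) (delw h c) h c - ((AB r) ^ d) (delw h c) h c) =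
      ∑ u : Fin d → Bool, (Pr TA (per hd u) (r + 1) d (del h) h - Pr TB (per hd u) (r + 1) d (del h) h) := by
    intro h _
    rw [sum_sub_distrib, sum_sub_distrib, AA_TT, AB_TT, closed_words r TA hd h, closed_words r TB hd h]
  rw [sum_congr rfl e1, sum_comm]
  rw [sum_U hd (fun u => ∑ h ∈ range (d + 2), (Pr TA (per hd u) (r + 1) d (del h) h - Pr TB (per hd u) (r + 1) d (del h) h))]
  refine sum_congr rfl fun p _ => sum_congr rfl fun U hU => ?_
  have hU' := (mem_L0 hd).1 hU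
  simp only [per_lt hd hU']
  have e2 : ∀ h ∈ range (d + 2), (Pr TA (lt U) (r + 1) d (del h) h - Pr TB (lt U) (r + 1) d (del h) h) =
      ∑ V ∈ L0 d p, ((if mxx d ((r : ℤ) + 1) U V ≤ (h : ℤ) - V (CTC_x ((r : ℤ) + 1) U 0) then (1 : ℤ) else 0) -
        (if mxx d r U V ≤ (h : ℤ) - V (CTC_x ((r : ℤ) + 1) U 0) then 1 else 0)) := by
    intro h _
    rw [Pr_TA_V hd (r + 1) hU' h, Pr_TB_V hd r hU' h, sum_sub_distrib]
    push_cast
    rfl
  rw [sum_congr rfl e2, sum_comm]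
  refine sum_congr rfl fun V hV => ?_
  have hV' := (mem_L0 hd).1 hV
  have b1 := mxx_ge hd ((r : ℤ) + 1) hU' hV' 0
  rw [hU'.2] at b1
  have b2 := mxx_mono hd r hU' hV'
  have b3 := mxx_up hd r hU' hV'
  exact sum_ind (d + 2) _ _ _ (by omega) b2 (by push_cast; omega)

end Pool.Agent.H85.GR
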