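import Pool.Agent.H85.GR.Df

/-!
ROW Bf. The product of the step operators `TB` counts the second words `S ⊆ range (YY m)` with the stronger constraint.
PROOF. Induction on `m`: `Pr (m+1) f h = Pr m (T f) h` with `T` the operator of `(s m, s (m+R))`; use the induction hypothesis for the function `T f`. For `S ⊆ range (YY m)` satisfying the
constraints put `H = h + card S - UU m` (`cS S (YY m) = card S`). Cases of `(s m, s (m+R))`:
`(false, true)`: nothing changes. `(false, false)`: `YY (m+1) = YY m + 1`, `UU (m+1) = UU m`, `(up f) H = f H + f (H+1)`: the sets `S` and `insert (YY m) S`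
(`Finset.range_add_one`, `Finset.sum_powerset_insert`); the new constraint `i = m + 1` is automatic. `(true, true)`: `(dn f) H = f H + [H ≠ 0] f (H-1)`: `insert (YY m) S` gives `f H`,
`S` gives `f (H-1)` and is allowed iff `1 ≤ H`. `(true, false)`: two new elements `YY m`, `YY m + 1`, `TA`: `(up (dn f)) H = f H + [H ≠ 0] f (H-1) + f (H+1) + f H`
(the sets with `0, 1, 1, 2` new elements: heights `H - 1, H, H, H + 1`); `TB`: `(dn (up f)) H = f H + f (H+1) + [H ≠ 0] (f (H-1) + f H)`, where the sets without `YY m` (i.e. `S`, `insert (YY m + 1) S`) are allowed only if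
`1 ≤ H` (constraint in the middle: `UU (m+1) ≤ h + cS S (YY m + 1)`).
The old constraints only involve `cS S y` with `y ≤ YY m` (in the middle `YY i + 1 ≤ YY (i+1) ≤ YY m` if `s i = true`, `i < m`), which do not change when larger elements are inserted.
-/

set_option autoImplicit false

open Finset

noncomputable section

namespace Pool.Agent.H85.GR

/-- the constraints -/
private def CC (s : ℕ → Bool) (R h m : ℕ) (S : Finset ℕ) : Prop :=
  (∀ i ≤ m, UU s i ≤ h + cS S (YY s R i)) ∧
    ∀ i < m, s i = true → UU s (i + 1) ≤ h + cS S (YY s R i + 1)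

/-- the terms of the sum -/
private def FF (s : ℕ → Bool) (R m : ℕ) (f : ℕ → ℤ) (h : ℕ) (S : Finset ℕ) : ℤ :=
  if ((∀ i ≤ m, UU s i ≤ h + cS S (YY s R i)) ∧ ∀ i < m, s i = true → UU s (i + 1) ≤ h + cS S (YY s R i + 1)) then
    f (h + S.card - UU s m) else 0

private theorem FF_pos {s : ℕ → Bool} {R m : ℕ} (f : ℕ → ℤ) {h : ℕ} {S : Finset ℕ} (hc : CC s R h m S) {k : ℕ}
    (hk : h + S.card - UU s m = k) : FF s R m f h S = f k := by
  rw [← hk]
  exact if_pos hc

private theorem FF_neg {s : ℕ → Bool} {R m : ℕ} (f : ℕ → ℤ) {h : ℕ} {S : Finset ℕ} (hc : ¬ CC s R h m S) :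
    FF s R m f h S = 0 := if_neg hc

private theorem CC_succ (s : ℕ → Bool) (R h m : ℕ) (S : Finset ℕ) : CC s R h (m + 1) S ↔ CC s R h m S ∧
    UU s (m + 1) ≤ h + cS S (YY s R (m + 1)) ∧ (s m = true → UU s (m + 1) ≤ h + cS S (YY s R m + 1)) := by
  unfold CC
  constructor
  · rintro ⟨h1, h2⟩
    exact ⟨⟨fun i hi => h1 i (by omega), fun i hi => h2 i (by omega)⟩, h1 _ le_rfl,
      fun hm => h2 m (by omega) hm⟩
  · rintro ⟨⟨h1, h2⟩, h3, h4⟩
    refine ⟨fun i hi => ?_, fun i hi hs => ?_⟩
    · rcases Nat.lt_or_ge i (m + 1) with h5 | h5
      · exact h1 i (by omega)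
      · have h6 : i = m + 1 := by omega
        subst h6
        exact h3
    · rcases Nat.lt_or_ge i m with h5 | h5
      · exact h2 i h5 hs
      · have h6 : i = m := by omega
        subst h6
        exact h4 hs

private theorem YY_succ (s : ℕ → Bool) (R m : ℕ) : YY s R (m + 1) =
    YY s R m + ((if s m = true then 1 else 0) + (if s (m + R) = true then 0 else 1)) :=
  Finset.sum_range_succ _ _

private theorem UU_succ (s : ℕ → Bool) (m : ℕ) : UU s (m + 1) = UU s m + (if s m = true then 1 else 0) :=
  Finset.sum_range_succ _ _

private theorem YY_mono (s : ℕ → Bool) (R : ℕ) {i j : ℕ} (hij : i ≤ j) : YY s R i ≤ YY s R j := by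
  induction hij with
  | refl => exact le_rfl
  | step _ ih =>
    rw [YY_succ]
    omega

private theorem cS_le {S : Finset ℕ} {Y y : ℕ} (hS : S ⊆ range Y) (hy : Y ≤ y) : cS S y = S.card := by
  unfold cS
  rw [Finset.filter_true_of_mem]
  intro x hx
  exact lt_of_lt_of_le (mem_range.1 (hS hx)) hy

private theorem cS_ge (S : Finset ℕ) {x y : ℕ} (h : y ≤ x) : cS (insert x S) y = cS S y := by
  unfold cS
  rw [Finset.filter_insert, if_neg (by omega)]

private theorem cS_lt {S : Finset ℕ} {x y : ℕ} (hx : x ∉ S) (h : x < y) : cS (insert x S) y = cS S y + 1 := by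
  unfold cS
  rw [Finset.filter_insert, if_pos h,
    Finset.card_insert_of_notMem (fun h' => hx (Finset.mem_of_mem_filter _ h'))]

private theorem CC_insert (s : ℕ → Bool) (R h m : ℕ) (S : Finset ℕ) {x : ℕ} (hx : YY s R m ≤ x) :
    CC s R h m (insert x S) ↔ CC s R h m S := by
  have h1 : ∀ i ≤ m, cS (insert x S) (YY s R i) = cS S (YY s R i) := fun i hi =>
    cS_ge S ((YY_mono s R hi).trans hx)
  have h2 : ∀ i < m, s i = true → cS (insert x S) (YY s R i + 1) = cS S (YY s R i + 1) := by
    intro i hi hs
    refine cS_ge S (le_trans ?_ hx)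
    have h3 : YY s R (i + 1) ≤ YY s R m := YY_mono s R hi
    rw [YY_succ, if_pos hs] at h3
    omega
  unfold CC
  constructor
  · rintro ⟨g1, g2⟩
    refine ⟨fun i hi => ?_, fun i hi hs => ?_⟩
    · rw [← h1 i hi]
      exact g1 i hi
    · rw [← h2 i hi hs]
      exact g2 i hi hs
  · rintro ⟨g1, g2⟩
    refine ⟨fun i hi => ?_, fun i hi hs => ?_⟩
    · rw [h1 i hi]
      exact g1 i hi
    · rw [h2 i hi hs]
      exact g2 i hi hs

private theorem up_apply (f : ℕ → ℤ) (h : ℕ) : up f h = f h + f (h + 1) := rfl

private theorem dn_apply (f : ℕ → ℤ) (h : ℕ) : dn f h = f h + (if h = 0 then 0 else f (h - 1)) := rfl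

private theorem main (s : ℕ → Bool) (R h : ℕ) : ∀ (m : ℕ) (f : ℕ → ℤ), Pr TB s R m f h =
    ∑ S ∈ (range (YY s R m)).powerset, FF s R m f h S := by
  intro m
  induction m with
  | zero =>
    intro f
    have h0 : YY s R 0 = 0 := rfl
    have h1 : UU s 0 = 0 := rfl
    rw [h0, Finset.range_zero, Finset.powerset_empty, Finset.sum_singleton]
    refine (FF_pos f ⟨fun i hi => ?_, fun i hi => absurd hi (Nat.not_lt_zero i)⟩ ?_).symm
    · rw [Nat.le_zero.1 hi, h1]
      exact Nat.zero_le _
    · rw [h1, Finset.card_empty]
      omega
  | succ m ih =>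
    intro f
    show Pr TB s R m (TB (s m) (s (m + R)) f) h = _
    rw [ih]
    have hY := YY_succ s R m
    have hU := UU_succ s m
    have hmem : ∀ S ∈ (range (YY s R m)).powerset, YY s R m ∉ S ∧ YY s R m + 1 ∉ S := by
      intro S hS
      rw [Finset.mem_powerset] at hS
      constructor
      · intro h1
        have h2 := mem_range.1 (hS h1)
        omega
      · intro h1
        have h2 := mem_range.1 (hS h1)
        omega
    have n0 : YY s R m ∉ range (YY s R m) := by simp
    have n1 : YY s R m + 1 ∉ insert (YY s R m) (range (YY s R m)) := by simp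
    rcases hs : s m with _ | _
    · rcases hr : s (m + R) with _ | _
      · rw [hs, hr] at hY
        rw [hs] at hU
        simp only [Bool.false_eq_true, if_false, zero_add, add_zero] at hY hU
        rw [hY, Finset.range_add_one, Finset.sum_powerset_insert n0, ← Finset.sum_add_distrib]
        refine Finset.sum_congr rfl fun S hS => ?_
        have hS' := Finset.mem_powerset.1 hS
        obtain ⟨m0, m1⟩ := hmem S hS
        have c0 : cS S (YY s R m) = S.card := cS_le hS' le_rfl
        have c1 : cS S (YY s R m + 1) = S.card := cS_le hS' (by omega)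
        have d0 : cS (insert (YY s R m) S) (YY s R m + 1) = S.card + 1 := by
          rw [cS_lt m0 (by omega), c1]
        have e0 : (insert (YY s R m) S).card = S.card + 1 := Finset.card_insert_of_notMem m0
        by_cases hC : CC s R h m S
        · have hC0 := hC.1 m le_rfl
          rw [c0] at hC0
          rw [FF_pos _ hC (k := h + S.card - UU s m) rfl,
            FF_pos f (k := h + S.card - UU s m) ((CC_succ s R h m S).2
              ⟨hC, by rw [hY, c1]; omega, fun h1 => by rw [hs] at h1; exact absurd h1 (by decide)⟩)
              (by rw [hU]),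
            FF_pos f (k := h + S.card - UU s m + 1) ((CC_succ s R h m _).2
              ⟨(CC_insert s R h m S le_rfl).2 hC, by rw [hY, d0]; omega,
                fun h1 => by rw [hs] at h1; exact absurd h1 (by decide)⟩)
              (by rw [hU, e0]; omega)]
          exact up_apply f _
        · rw [FF_neg _ hC, FF_neg f fun h1 => hC ((CC_succ s R h m S).1 h1).1,
            FF_neg f fun h1 => hC ((CC_insert s R h m S le_rfl).1 ((CC_succ s R h m _).1 h1).1), add_zero]
      · rw [hs, hr] at hY
        rw [hs] at hU
        simp only [Bool.false_eq_true, if_false, if_true, add_zero] at hY hU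
        rw [hY]
        refine Finset.sum_congr rfl fun S hS => ?_
        have hS' := Finset.mem_powerset.1 hS
        have c0 : cS S (YY s R m) = S.card := cS_le hS' le_rfl
        by_cases hC : CC s R h m S
        · have hC0 := hC.1 m le_rfl
          rw [c0] at hC0
          rw [FF_pos _ hC (k := h + S.card - UU s m) rfl,
            FF_pos f (k := h + S.card - UU s m) ((CC_succ s R h m S).2
              ⟨hC, by rw [hY, c0]; omega, fun h1 => by rw [hs] at h1; exact absurd h1 (by decide)⟩)
              (by rw [hU])]
          rfl
        · rw [FF_neg _ hC, FF_neg f fun h1 => hC ((CC_succ s R h m S).1 h1).1]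
    · rcases hr : s (m + R) with _ | _
      · rw [hs, hr] at hY
        rw [hs] at hU
        simp only [Bool.false_eq_true, if_false, if_true] at hY hU
        rw [hY, show YY s R m + (1 + 1) = YY s R m + 1 + 1 by omega, Finset.range_add_one,
          Finset.range_add_one, Finset.sum_powerset_insert n1, Finset.sum_powerset_insert n0,
          Finset.sum_powerset_insert n0, ← Finset.sum_add_distrib, ← Finset.sum_add_distrib,
          ← Finset.sum_add_distrib]
        refine Finset.sum_congr rfl fun S hS => ?_
        have hS' := Finset.mem_powerset.1 hS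
        obtain ⟨m0, m1⟩ := hmem S hS
        have m2 : YY s R m + 1 ∉ insert (YY s R m) S := by
          rw [Finset.mem_insert]
          rintro (h1 | h1)
          · omega
          · exact m1 h1
        have c0 : cS S (YY s R m) = S.card := cS_le hS' le_rfl
        have c1 : cS S (YY s R m + 1) = S.card := cS_le hS' (by omega)
        have c2 : cS S (YY s R m + (1 + 1)) = S.card := cS_le hS' (by omega)
        have d1 : cS (insert (YY s R m) S) (YY s R m + 1) = S.card + 1 := by
          rw [cS_lt m0 (by omega), c1]
        have d2 : cS (insert (YY s R m) S) (YY s R m + (1 + 1)) = S.card + 1 := by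
          rw [cS_lt m0 (by omega), c2]
        have g1 : cS (insert (YY s R m + 1) S) (YY s R m + 1) = S.card := by
          rw [cS_ge S le_rfl, c1]
        have g2 : cS (insert (YY s R m + 1) S) (YY s R m + (1 + 1)) = S.card + 1 := by
          rw [cS_lt m1 (by omega), c2]
        have k1 : cS (insert (YY s R m + 1) (insert (YY s R m) S)) (YY s R m + 1) = S.card + 1 := by
          rw [cS_ge _ le_rfl, d1]
        have k2 : cS (insert (YY s R m + 1) (insert (YY s R m) S)) (YY s R m + (1 + 1)) =
            S.card + 1 + 1 := by
          rw [cS_lt m2 (by omega), d2]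
        have e0 : (insert (YY s R m) S).card = S.card + 1 := Finset.card_insert_of_notMem m0
        have e1 : (insert (YY s R m + 1) S).card = S.card + 1 := Finset.card_insert_of_notMem m1
        have e2 : (insert (YY s R m + 1) (insert (YY s R m) S)).card = S.card + 1 + 1 := by
          rw [Finset.card_insert_of_notMem m2, e0]
        by_cases hC : CC s R h m S
        · have hC0 := hC.1 m le_rfl
          rw [c0] at hC0
          have i0 := (CC_insert s R h m S (x := YY s R m) le_rfl).2 hC
          have i1 := (CC_insert s R h m S (x := YY s R m + 1) (by omega)).2 hC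
          have i2 := (CC_insert s R h m (insert (YY s R m) S) (x := YY s R m + 1) (by omega)).2 i0
          rw [FF_pos _ hC (k := h + S.card - UU s m) rfl,
            FF_pos f (S := insert (YY s R m) S) (k := h + S.card - UU s m) ((CC_succ s R h m _).2
              ⟨i0, by rw [hY, hU, d2]; omega, fun _ => by rw [hU, d1]; omega⟩) (by rw [hU, e0]; omega),
            FF_pos f (S := insert (YY s R m + 1) (insert (YY s R m) S)) (k := h + S.card - UU s m + 1)
              ((CC_succ s R h m _).2 ⟨i2, by rw [hY, hU, k2]; omega, fun _ => by rw [hU, k1]; omega⟩)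
              (by rw [hU, e2]; omega)]
          show dn (up f) (h + S.card - UU s m) = _
          rw [dn_apply, up_apply, up_apply]
          by_cases hH : h + S.card - UU s m = 0
          · rw [if_pos hH, FF_neg f (S := S), FF_neg f (S := insert (YY s R m + 1) S)]
            · ring
            · intro h1
              have h2 := ((CC_succ s R h m _).1 h1).2.2 hs
              rw [hU, g1] at h2
              omega
            · intro h1
              have h2 := ((CC_succ s R h m _).1 h1).2.2 hs
              rw [hU, c1] at h2
              omega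
          · rw [if_neg hH, FF_pos f (S := S) (k := h + S.card - UU s m - 1) ((CC_succ s R h m _).2
              ⟨hC, by rw [hY, hU, c2]; omega, fun _ => by rw [hU, c1]; omega⟩) (by rw [hU]; omega),
              FF_pos f (S := insert (YY s R m + 1) S) (k := h + S.card - UU s m) ((CC_succ s R h m _).2
              ⟨i1, by rw [hY, hU, g2]; omega, fun _ => by rw [hU, g1]; omega⟩) (by rw [hU, e1]; omega),
              show h + S.card - UU s m - 1 + 1 = h + S.card - UU s m by omega]
            ring
        · rw [FF_neg _ hC, FF_neg f (S := S) fun h1 => hC ((CC_succ s R h m S).1 h1).1,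
            FF_neg f (S := insert (YY s R m) S)
              fun h1 => hC ((CC_insert s R h m S le_rfl).1 ((CC_succ s R h m _).1 h1).1),
            FF_neg f (S := insert (YY s R m + 1) S)
              fun h1 => hC ((CC_insert s R h m S (by omega)).1 ((CC_succ s R h m _).1 h1).1),
            FF_neg f (S := insert (YY s R m + 1) (insert (YY s R m) S))
              fun h1 => hC ((CC_insert s R h m S le_rfl).1
                ((CC_insert s R h m _ (by omega)).1 ((CC_succ s R h m _).1 h1).1))]
          rfl
      · rw [hs, hr] at hY
        rw [hs] at hU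
        simp only [if_true, add_zero] at hY hU
        rw [hY, Finset.range_add_one, Finset.sum_powerset_insert n0, ← Finset.sum_add_distrib]
        refine Finset.sum_congr rfl fun S hS => ?_
        have hS' := Finset.mem_powerset.1 hS
        obtain ⟨m0, m1⟩ := hmem S hS
        have c0 : cS S (YY s R m) = S.card := cS_le hS' le_rfl
        have c1 : cS S (YY s R m + 1) = S.card := cS_le hS' (by omega)
        have d0 : cS (insert (YY s R m) S) (YY s R m + 1) = S.card + 1 := by
          rw [cS_lt m0 (by omega), c1]
        have e0 : (insert (YY s R m) S).card = S.card + 1 := Finset.card_insert_of_notMem m0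
        by_cases hC : CC s R h m S
        · have hC0 := hC.1 m le_rfl
          rw [c0] at hC0
          rw [FF_pos _ hC (k := h + S.card - UU s m) rfl,
            FF_pos f (S := insert (YY s R m) S) (k := h + S.card - UU s m) ((CC_succ s R h m _).2
              ⟨(CC_insert s R h m S le_rfl).2 hC, by rw [hY, hU, d0]; omega,
                fun _ => by rw [hU, d0]; omega⟩) (by rw [hU, e0]; omega)]
          show dn f (h + S.card - UU s m) = _
          rw [dn_apply]
          by_cases hH : h + S.card - UU s m = 0
          · rw [if_pos hH, FF_neg f (S := S)]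
            · ring
            · intro h1
              have h2 := ((CC_succ s R h m _).1 h1).2.2 hs
              rw [hU, c1] at h2
              omega
          · rw [if_neg hH, FF_pos f (S := S) (k := h + S.card - UU s m - 1) ((CC_succ s R h m _).2
              ⟨hC, by rw [hY, hU, c1]; omega, fun _ => by rw [hU, c1]; omega⟩) (by rw [hU]; omega)]
            ring
        · rw [FF_neg _ hC, FF_neg f (S := S) fun h1 => hC ((CC_succ s R h m S).1 h1).1,
            FF_neg f (S := insert (YY s R m) S)
              fun h1 => hC ((CC_insert s R h m S le_rfl).1 ((CC_succ s R h m _).1 h1).1), add_zero]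

theorem Pr_TB (s : ℕ → Bool) (R m : ℕ) (f : ℕ → ℤ) (h : ℕ) : Pr TB s R m f h =
    ∑ S ∈ (range (YY s R m)).powerset,
      if ((∀ i ≤ m, UU s i ≤ h + cS S (YY s R i)) ∧ ∀ i < m, s i = true → UU s (i + 1) ≤ h + cS S (YY s R i + 1)) then
        f (h + S.card - UU s m) else 0 := main s R h m f

end Pool.Agent.H85.GR
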