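import Pool.Agent.H85.GR.Wf

/-!
ROW Ca. `Gs 0` after the substitution `t = w (1 - w)` is `1 / (1 - w)^2`.
PROOF. (1) `((AA 0)^m (io 1)) h c = C(2m, m+h) - C(2m, m+h+2)` (`Wn 0` has one element; `(AA 0 F) h = 2 F h + F (h+1) + [h ≠ 0] F (h-1)`; induction on `m` with
`C(2m+2, k+2) = C(2m,k) + 2 C(2m,k+1) + C(2m,k+2)`; for `h = 0` the term with `h - 1` vanishes because `C(2m, m-1) = C(2m, m+1)`; use `Nat.choose` with care for `m - 1`, or prove it for
`h ≥ 1` and `h = 0` separately). So `gm 0 m = C(2m, m) - C(2m, m+2) = catalan (m+1)`.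
Or use the equation of first returns, or any other way. (2) Let `g = Gs 0 () ()`; `g = 1 + 2 X g + X^2 g^2` (e.g. `g = C^2` with `C = 1 + X C^2` the Catalan series,
`PowerSeries.catalanSeries_sq_mul_X_add_one`). Apply `tau`: `γ = tau g` satisfies `γ = 1 + 2 z γ + z^2 γ^2`, `z = zz`, and `φ = ∑ (n+1) X^n = ww^2` satisfies the same equation
(`ww * (1 - X) = 1`). The difference `δ` satisfies `δ (1 - 2 z - z^2 (γ + φ)) = 0` and the second factor has constant coefficient `1`, so `δ = 0`.
-/

set_option autoImplicit false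

open Finset PowerSeries

noncomputable section

namespace Pool.Agent.H85.GR

/-- the step on functions of the height, window of length `0` -/
theorem ca_AA0_apply (F : ℕ → Wn 0 → ℤ) (h : ℕ) (c : Wn 0) :
    AA 0 F h c = 2 * F h c + F (h + 1) c + (if h = 0 then 0 else F (h - 1) c) := by
  have e1 : ∀ u : Bool, tl (sn c u) = c := fun u => Subsingleton.elim _ _
  have e2 : ∀ u : Bool, (sn c u) 0 = u := fun u => sn_last c u
  have e3 : AA 0 F h c = up (fun h' => be 0 F h' (sn c false)) h + be 0 F h (sn c true) := rfl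
  have e4 : ∀ h', be 0 F h' (sn c false) = F h' c := by
    intro h'
    have : be 0 F h' (sn c false) =
      if (sn c false) 0 = true then dn (fun h'' => F h'' (tl (sn c false))) h' else F h' (tl (sn c false)) := rfl
    rw [this, e2, e1]
    simp
  have e5 : be 0 F h (sn c true) = dn (fun h'' => F h'' c) h := by
    have : be 0 F h (sn c true) =
      if (sn c true) 0 = true then dn (fun h'' => F h'' (tl (sn c true))) h else F h (tl (sn c true)) := rfl
    rw [this, e2, e1]
    simp
  have e6 : up (fun h' => be 0 F h' (sn c false)) h = F h c + F (h + 1) c := by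
    have : up (fun h' => be 0 F h' (sn c false)) h = be 0 F h (sn c false) + be 0 F (h + 1) (sn c false) := rfl
    rw [this, e4, e4]
  have e7 : dn (fun h'' => F h'' c) h = F h c + (if h = 0 then 0 else F (h - 1) c) := rfl
  rw [e3, e5, e6, e7]
  ring

/-- the number of walks from height `h` to height `0` -/
def Vc (m h : ℕ) : ℤ := ((2 * m).choose (m + h) : ℤ) - ((2 * m).choose (m + h + 2) : ℤ)

theorem ca_choose_two (n k : ℕ) : (n + 2).choose (k + 2) = n.choose k + 2 * n.choose (k + 1) + n.choose (k + 2) := by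
  rw [Nat.choose_succ_succ' (n + 1) (k + 1), Nat.choose_succ_succ' n k, Nat.choose_succ_succ' n (k + 1)]
  ring

theorem ca_Vc_succ (m h : ℕ) : Vc (m + 1) h = 2 * Vc m h + Vc m (h + 1) + (if h = 0 then 0 else Vc m (h - 1)) := by
  unfold Vc
  rcases h with _ | h
  · have e1 : (2 * (m + 1)).choose (m + 1 + 0) = 2 * (2 * m).choose m + 2 * (2 * m).choose (m + 1) := by
      have h1 : (2 * m + 1).choose (m + 1) = (2 * m + 1).choose m := Nat.choose_symm_half m
      have h2 : (2 * m + 1).choose (m + 1) = (2 * m).choose m + (2 * m).choose (m + 1) := Nat.choose_succ_succ' _ _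
      rw [show 2 * (m + 1) = 2 * m + 1 + 1 by ring, show m + 1 + 0 = m + 1 by ring, Nat.choose_succ_succ' (2 * m + 1) m]
      omega
    have e2 : (2 * (m + 1)).choose (m + 1 + 0 + 2) =
        (2 * m).choose (m + 1) + 2 * (2 * m).choose (m + 2) + (2 * m).choose (m + 3) := by
      rw [show 2 * (m + 1) = 2 * m + 2 by ring, show m + 1 + 0 + 2 = m + 1 + 2 by ring, ca_choose_two]
    rw [e1, e2]
    simp only [if_true, Nat.add_zero, Nat.zero_add]
    rw [show m + 1 + 2 = m + 3 by ring]
    push_cast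
    ring
  · have e1 : (2 * (m + 1)).choose (m + 1 + (h + 1)) =
        (2 * m).choose (m + h) + 2 * (2 * m).choose (m + h + 1) + (2 * m).choose (m + h + 2) := by
      rw [show 2 * (m + 1) = 2 * m + 2 by ring, show m + 1 + (h + 1) = m + h + 2 by ring, ca_choose_two]
    have e2 : (2 * (m + 1)).choose (m + 1 + (h + 1) + 2) =
        (2 * m).choose (m + h + 2) + 2 * (2 * m).choose (m + h + 3) + (2 * m).choose (m + h + 4) := by
      rw [show 2 * (m + 1) = 2 * m + 2 by ring, show m + 1 + (h + 1) + 2 = m + h + 2 + 2 by ring, ca_choose_two]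
    rw [e1, e2]
    simp only [Nat.add_sub_cancel, if_neg (Nat.succ_ne_zero h)]
    rw [show m + (h + 1) = m + h + 1 by ring, show m + (h + 1 + 1) = m + h + 2 by ring,
      show m + h + 1 + 2 = m + h + 3 by ring, show m + h + 2 + 2 = m + h + 4 by ring]
    push_cast
    ring

theorem ca_AA0_pow (m : ℕ) (f : Wn 0 → ℤ) (h : ℕ) (c : Wn 0) :
    ((AA 0) ^ m : Module.End ℤ (ℕ → Wn 0 → ℤ)) (io 0 f) h c = Vc m h * f c := by
  induction m generalizing h with
  | zero =>
    have e1 : ((AA 0) ^ 0 : Module.End ℤ (ℕ → Wn 0 → ℤ)) (io 0 f) h c = if h = 0 then f c else 0 := rfl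
    rw [e1]
    unfold Vc
    rcases h with _ | h
    · simp
    · simp [Nat.choose_eq_zero_of_lt]
  | succ m ih =>
    rw [pow_succ', Module.End.mul_apply, ca_AA0_apply, ih, ih, ih, ca_Vc_succ]
    split_ifs <;> ring

theorem ca_Vc_zero (m : ℕ) : Vc m 0 = (catalan (m + 1) : ℤ) := by
  have h0 : ((m : ℤ) + 2) ≠ 0 := by positivity
  apply mul_left_cancel₀ h0
  have h1 : (m + 1 + 1) * catalan (m + 1) = (m + 1).centralBinom := succ_mul_catalan_eq_centralBinom (m + 1)
  have h2 : (m + 1).centralBinom = 2 * (2 * m).choose m + 2 * (2 * m).choose (m + 1) := by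
    rw [Nat.centralBinom_eq_two_mul_choose]
    have h1 : (2 * m + 1).choose (m + 1) = (2 * m + 1).choose m := Nat.choose_symm_half m
    have h2 : (2 * m + 1).choose (m + 1) = (2 * m).choose m + (2 * m).choose (m + 1) := Nat.choose_succ_succ' _ _
    rw [show 2 * (m + 1) = 2 * m + 1 + 1 by ring, Nat.choose_succ_succ' (2 * m + 1) m]
    omega
  have h3 : (2 * m).choose (m + 1) * (m + 1) = (2 * m).choose m * m := by
    rw [Nat.choose_succ_right_eq, show 2 * m - m = m by omega]
  have h4 : (2 * m).choose (m + 2) * (m + 2) + (2 * m).choose (m + 1) = (2 * m).choose (m + 1) * m := by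
    rcases m with _ | m
    · simp
    · rw [show m + 1 + 2 = m + 1 + 1 + 1 by ring, Nat.choose_succ_right_eq,
        show 2 * (m + 1) - (m + 1 + 1) = m by omega]
      ring
  have h1' : ((m : ℤ) + 1 + 1) * (catalan (m + 1) : ℤ) = 2 * ((2 * m).choose m : ℤ) + 2 * ((2 * m).choose (m + 1) : ℤ) := by
    rw [h2] at h1
    exact_mod_cast h1
  have h3' : ((2 * m).choose (m + 1) : ℤ) * (m + 1) = ((2 * m).choose m : ℤ) * m := by exact_mod_cast h3
  have h4' : ((2 * m).choose (m + 2) : ℤ) * (m + 2) + ((2 * m).choose (m + 1) : ℤ) = ((2 * m).choose (m + 1) : ℤ) * m := by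
    exact_mod_cast h4
  unfold Vc
  rw [Nat.add_zero]
  linear_combination h1' * (-1) + h3' * (-1) + h4' * (-1)

theorem ca_gm0_apply (m : ℕ) (c c' : Wn 0) : gm 0 m c c' = (catalan (m + 1) : ℤ) := by
  unfold gm
  rw [LinearMap.toMatrix'_apply]
  have e : (pr 0 ∘ₗ ((AA 0) ^ m : Module.End ℤ (ℕ → Wn 0 → ℤ)) ∘ₗ io 0) (Pi.single c' 1) c =
    ((AA 0) ^ m : Module.End ℤ (ℕ → Wn 0 → ℤ)) (io 0 (Pi.single c' 1)) 0 c := rfl
  rw [e, ca_AA0_pow, ca_Vc_zero, Subsingleton.elim c c', Pi.single_eq_same, mul_one]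

/-- the Catalan series over `ℤ` -/
def catZ : ℤ⟦X⟧ := PowerSeries.mk fun n => (catalan n : ℤ)

theorem ca_catZ_eq : catZ = 1 + X * catZ ^ 2 := by
  have h := congrArg (PowerSeries.map (Nat.castRingHom ℤ)) catalanSeries_sq_mul_X_add_one
  have e : PowerSeries.map (Nat.castRingHom ℤ) catalanSeries = catZ := by
    ext n
    simp [catZ]
  rw [map_add, map_mul, map_pow, e, map_one, map_X] at h
  rw [add_comm, mul_comm]
  exact h.symm

theorem ca_catZ_sq : catZ ^ 2 = PowerSeries.mk fun m => (catalan (m + 1) : ℤ) := by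
  ext m
  have h := congrArg (coeff (m + 1)) ca_catZ_eq
  rw [map_add, coeff_succ_X_mul, coeff_one, if_neg (Nat.succ_ne_zero m), zero_add] at h
  rw [← h, coeff_mk]
  simp [catZ]

theorem ca_ww_mul : ww * (1 - X) = 1 := by
  unfold ww
  ext n
  rcases n with _ | n
  · simp
  · rw [mul_sub, mul_one, map_sub, coeff_succ_mul_X]
    simp [coeff_one]

theorem ca_ww_eq : ww = 1 + zz * ww ^ 2 := by
  have h := ca_ww_mul
  unfold zz
  linear_combination (1 - X * ww) * h

theorem ca_tau_X : tau X = zz := by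
  rw [tau_apply, PowerSeries.subst_X hzz]

theorem ca_tau_catZ : tau catZ = ww := by
  have h1 : tau catZ = 1 + zz * (tau catZ) ^ 2 := by
    have h := congrArg tau ca_catZ_eq
    rw [map_add, map_one, map_mul, map_pow, ca_tau_X] at h
    exact h
  have h2 := ca_ww_eq
  have h3 : (tau catZ - ww) * (1 - zz * (tau catZ + ww)) = 0 := by
    linear_combination h1 - h2
  rcases mul_eq_zero.1 h3 with h | h
  · exact sub_eq_zero.1 h
  · exfalso
    have h5 := congrArg constantCoeff h
    simp [zz] at h5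

theorem ca_ww_sq : ww ^ 2 = PowerSeries.mk fun n => (n : ℤ) + 1 := by
  ext n
  rw [sq, coeff_mul]
  simp [ww]

theorem tau_G0 : (Gs 0).map tau = Gw 0 := by
  funext c c'
  have e1 : ((Gs 0).map tau) c c' = tau (PowerSeries.mk fun m => gm 0 m c c') := rfl
  have e2 : Gw 0 c c' = PowerSeries.mk fun n => (n : ℤ) + 1 := rfl
  rw [e1, e2, ← ca_ww_sq]
  simp_rw [ca_gm0_apply]
  rw [← ca_catZ_sq, map_pow, ca_tau_catZ]

end Pool.Agent.H85.GR
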