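import Pool.Agent.H85.GR.Ca
import Pool.Agent.H85.GR.Aa
import Pool.Agent.H85.GR.Ab
import Pool.Agent.H85.GR.Ac

/-!
ROW Cb. The series after the substitution.
PROOF. `tau X = zz` (`substAlgHom_X` / `subst_X`), `tau (C a) = C a`. Induction on `r`: `Cs_eq` gives `(Cs r).map tau = Cf r ((Gs r).map tau)` (`Matrix.map_mul`, or `RingHom.mapMatrix`; entrywise).
`Gs_eq` and `inv_series`: `Gs (r+1) = Cs r * (1 + X K0 G)` and `(1 - X K0 C) (1 + X K0 G) = 1`; apply `tau`: `1 + zz K0 (Gs (r+1)).map tau` is the inverse of `1 - Ef r (Gw r)`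
(`Matrix.inv_eq_right_inv`).
-/

set_option autoImplicit false

open Finset PowerSeries

noncomputable section

namespace Pool.Agent.H85.GR

theorem cb_tau_C (a : ℤ) : tau (PowerSeries.C a) = PowerSeries.C a := by
  have h1 : (tau.comp (PowerSeries.C (R := ℤ))) a = ((a : ℤ) : ℤ⟦X⟧) := eq_intCast _ a
  have h2 : (PowerSeries.C (R := ℤ)) a = ((a : ℤ) : ℤ⟦X⟧) := eq_intCast _ a
  rw [RingHom.comp_apply] at h1
  rw [h1, h2]

theorem cb_cst {m n : Type*} (M : Matrix m n ℤ) : (cst M).map tau = cst M := by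
  ext1 i j
  unfold cst
  rw [Matrix.map_apply, Matrix.map_apply, cb_tau_C]

theorem cb_mul {l m n : Type*} [Fintype m] (M : Matrix l m ℤ⟦X⟧) (N : Matrix m n ℤ⟦X⟧) :
    (M * N).map tau = M.map tau * N.map tau := Matrix.map_mul

theorem cb_smul {m n : Type*} (M : Matrix m n ℤ⟦X⟧) :
    ((PowerSeries.X : ℤ⟦X⟧) • M).map tau = zz • M.map tau := by
  ext1 i j
  rw [Matrix.map_apply, Matrix.smul_apply, Matrix.smul_apply, Matrix.map_apply, smul_eq_mul, smul_eq_mul, map_mul, ca_tau_X]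

theorem cb_add {m n : Type*} (M N : Matrix m n ℤ⟦X⟧) : (M + N).map tau = M.map tau + N.map tau := by
  ext1 i j
  rw [Matrix.map_apply, Matrix.add_apply, Matrix.add_apply, Matrix.map_apply, Matrix.map_apply, map_add]

theorem cb_sub {m n : Type*} (M N : Matrix m n ℤ⟦X⟧) : (M - N).map tau = M.map tau - N.map tau := by
  ext1 i j
  rw [Matrix.map_apply, Matrix.sub_apply, Matrix.sub_apply, Matrix.map_apply, Matrix.map_apply, map_sub]

theorem cb_one {n : Type*} [DecidableEq n] : (1 : Matrix n n ℤ⟦X⟧).map tau = 1 :=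
  Matrix.map_one tau (map_zero tau) (map_one tau)

theorem cb_Cs (r : ℕ) : (Cs r).map tau = Cf r ((Gs r).map tau) := by
  rw [Cs_eq, cb_add, cb_one, cb_smul, cb_mul, cb_mul, cb_cst, cb_cst]
  rfl

theorem cb_E (r : ℕ) : ((PowerSeries.X : ℤ⟦X⟧) • (cst (K0 r) * Cs r)).map tau = Ef r ((Gs r).map tau) := by
  rw [cb_smul, cb_mul, cb_cst, cb_Cs]
  rfl

theorem cb_inv (r : ℕ) : (1 + (PowerSeries.X : ℤ⟦X⟧) • (cst (K0 r) * Gs (r + 1))).map tau = (1 - Ef r ((Gs r).map tau))⁻¹ := by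
  symm
  apply Matrix.inv_eq_right_inv
  have h : ((1 - (PowerSeries.X : PowerSeries ℤ) • (cst (K0 r) * Cs r)) *
      (1 + (PowerSeries.X : PowerSeries ℤ) • (cst (K0 r) * Gs (r + 1)))).map tau =
      (1 : Matrix (Wn (r + 1)) (Wn (r + 1)) ℤ⟦X⟧).map tau := by
    rw [inv_series r]
  rw [cb_mul, cb_sub, cb_one, cb_E] at h
  exact h

theorem tau_G (r : ℕ) : (Gs r).map tau = Gw r := by
  induction r with
  | zero => exact tau_G0
  | succ r ih =>
    have h1 : Gs (r + 1) = Cs r * (1 + (PowerSeries.X : ℤ⟦X⟧) • (cst (K0 r) * Gs (r + 1))) := by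
      conv_lhs => rw [Gs_eq]
      rw [mul_add, mul_one]
      congr 1
      simp only [Matrix.mul_smul, Matrix.smul_mul, Matrix.mul_assoc]
    rw [h1, cb_mul, cb_Cs, cb_inv, ih]
    rfl

theorem tau_E (r : ℕ) : ((PowerSeries.X : ℤ⟦X⟧) • (cst (K0 r) * Cs r)).map tau = Ew r := by
  rw [cb_E, tau_G]
  rfl

theorem tau_inv (r : ℕ) : (1 + (PowerSeries.X : ℤ⟦X⟧) • (cst (K0 r) * Gs (r + 1))).map tau = (1 - Ew r)⁻¹ := by
  rw [cb_inv, tau_G]
  rfl

end Pool.Agent.H85.GR
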