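import Pool.Agent.H85.GR.Wf

/-!
ROW Cc. Coefficient extraction (Lagrange) and the chain rule.
PROOF. `coeff_tau`: `tau F = ∑_m F_m zz^m` (`coeff_subst'`; the terms `m > d` do not contribute to the coefficient `d` because `X^m ∣ zz^m`), so by linearity it is enough that
`coeff d (zz^m * (1 - 2 X) * ww^(d+1)) = [m = d]` for `m ≤ d`: `zz^m ww^(d+1) = X^m ww^(d+1-m)` for `m ≤ d`, with `s = d - m`: `coeff s ((1 - 2X) ww^(s+1)) = C(2s, s) - 2 C(2s-1, s-1) = [s = 0]`
(`coeff j (ww^(s+1)) = C(s+j, j)`; `PowerSeries.mk_one_pow_eq_mk_choose_add`, `PowerSeries.invOneSubPow`).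
`tau_deriv`: `derivative_subst`: `(tau f)' = tau (f') * (1 - 2X)`; `tau (X f') = zz tau (f')`, `zz = X (1 - X)`.
-/

set_option autoImplicit false

open Finset PowerSeries

noncomputable section

namespace Pool.Agent.H85.GR

theorem ww_mul : ww * (1 - X) = 1 := mk_one_mul_one_sub_eq_one ℤ

theorem coeff_ww (n j : ℕ) : coeff j (ww ^ (n + 1)) = ((n + j).choose n : ℤ) := by
  have h : ww ^ (n + 1) = (mk fun k => ((Nat.choose (n + k) n : ℕ) : ℤ) : ℤ⟦X⟧) :=
    mk_one_pow_eq_mk_choose_add ℤ n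
  rw [h, coeff_mk]

private theorem Cc_tau_X : tau (X : ℤ⟦X⟧) = zz := by
  rw [tau_apply, subst_X hzz]

private theorem Cc_mono {m d : ℕ} (h : m ≤ d) :
    coeff d (zz ^ m * (1 - 2 * X) * ww ^ (d + 1)) = if m = d then (1 : ℤ) else 0 := by
  obtain ⟨s, rfl⟩ := Nat.exists_eq_add_of_le h
  have e : zz ^ m * (1 - 2 * X) * ww ^ (m + s + 1) = X ^ m * ((1 - 2 * X) * ww ^ (s + 1)) := by
    have h1 : ww ^ m * (1 - X) ^ m = 1 := by rw [← mul_pow, ww_mul, one_pow]
    calc zz ^ m * (1 - 2 * X) * ww ^ (m + s + 1)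
        = X ^ m * ((1 - 2 * X) * ww ^ (s + 1)) * (ww ^ m * (1 - X) ^ m) := by
          rw [zz, mul_pow]
          ring
      _ = _ := by rw [h1, mul_one]
  rw [e, add_comm m s, coeff_X_pow_mul]
  rcases s with _ | t
  · simp [coeff_zero_eq_constantCoeff, ww]
  · rw [if_neg (by omega), sub_mul, one_mul, map_sub, coeff_ww, mul_assoc,
      show (2 : ℤ⟦X⟧) * (X * ww ^ (t + 1 + 1)) = X * ww ^ (t + 1 + 1) + X * ww ^ (t + 1 + 1) by ring,
      map_add, coeff_succ_X_mul, coeff_ww]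
    have h1 : (t + 1 + (t + 1)).choose (t + 1) = 2 * (t + 1 + t).choose (t + 1) := by
      have h2 : t + 1 + (t + 1) = (2 * t + 1) + 1 := by ring
      have h3 : t + 1 + t = 2 * t + 1 := by ring
      rw [h2, h3, Nat.choose_succ_succ, ← Nat.choose_symm_half]
      ring
    rw [h1]
    push_cast
    ring


theorem coeff_tau (F : ℤ⟦X⟧) (d : ℕ) : coeff d F = coeff d (tau F * (1 - 2 * X) * ww ^ (d + 1)) := by
  have hF := eq_X_pow_mul_shift_add_trunc (d + 1) F
  set H : ℤ⟦X⟧ := mk fun i => coeff (i + (d + 1)) F with hH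
  have h1 : tau F = zz ^ (d + 1) * tau H +
      ∑ m ∈ range (d + 1), C (coeff m F) * zz ^ m := by
    conv_lhs => rw [hF]
    rw [map_add, map_mul, map_pow, Cc_tau_X]
    congr 1
    rw [tau_apply, subst_coe hzz, Polynomial.aeval_eq_sum_range' (natDegree_trunc_lt F d)]
    refine Finset.sum_congr rfl fun m hm => ?_
    rw [coeff_trunc, if_pos (Finset.mem_range.1 hm), smul_eq_C_mul]
  have h2 : coeff d (zz ^ (d + 1) * tau H * (1 - 2 * X) * ww ^ (d + 1)) = 0 := by
    have e : zz ^ (d + 1) * tau H * (1 - 2 * X) * ww ^ (d + 1) =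
        X ^ (d + 1) * ((1 - X) ^ (d + 1) * tau H * (1 - 2 * X) * ww ^ (d + 1)) := by
      rw [show zz ^ (d + 1) = X ^ (d + 1) * (1 - X) ^ (d + 1) by rw [zz, mul_pow]]
      ring
    rw [e, coeff_X_pow_mul', if_neg (by omega)]
  rw [h1, add_mul, add_mul, map_add, h2, zero_add, Finset.sum_mul, Finset.sum_mul, map_sum]
  have h3 : ∀ m ∈ range (d + 1), coeff d (C (coeff m F) * zz ^ m * (1 - 2 * X) * ww ^ (d + 1)) =
      if m = d then coeff d F else 0 := by
    intro m hm
    rw [mul_assoc, mul_assoc, coeff_C_mul, ← mul_assoc, Cc_mono (Nat.lt_succ_iff.1 (Finset.mem_range.1 hm))]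
    split_ifs with h
    · rw [h, mul_one]
    · rw [mul_zero]
  rw [Finset.sum_congr rfl h3, Finset.sum_ite_eq' (range (d + 1)) d, if_pos (by simp)]

theorem tau_deriv (f : ℤ⟦X⟧) : tau (X * derivative ℤ f) * (1 - 2 * X) = (1 - X) * (X * derivative ℤ (tau f)) := by
  have hd : derivative ℤ zz = 1 - 2 * X := by
    have e : zz = X - X * X := by
      unfold zz
      ring
    rw [e, map_sub, Derivation.leibniz, derivative_X]
    simp only [smul_eq_mul, mul_one]
    ring
  have h2 : derivative ℤ (tau f) = tau (derivative ℤ f) * (1 - 2 * X) := by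
    rw [tau_apply, derivative_subst hzz, hd, tau_apply]
  rw [h2, map_mul, Cc_tau_X]
  unfold zz
  ring

end Pool.Agent.H85.GR
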