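import Pool.Agent.H85.GR.Cb
import Pool.Agent.H85.GR.Cc

/-!
ROW Cd. The numbers `Nn r d` as binomial sums.
PROOF. `Nn_series`: `Nn r d = coeff d (trace (DM E * I))`, `E = X K0 C`, `I = 1 + X K0 G`. `coeff_tau`: `= coeff d (tau (trace (DM E * I)) (1 - 2X) ww^(d+1))`. `tau` of the trace is
`trace ((DM E).map tau * I.map tau)`, `I.map tau = (1 - Ew r)⁻¹` (`tau_inv`), and by `tau_deriv` entrywise `(1 - 2X) • (DM E).map tau = (1 - X) • DM (E.map tau) = (1 - X) • DM (Ew r)`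
(`tau_E`). So the coefficient is `coeff d ((1 - X) T ww^(d+1)) = coeff d (T ww^d)`, `T = trace (DM (Ew r) * (1 - Ew r)⁻¹)` (`ww_mul`). `coeff 0 T = 0` (`DM` has constant coefficient `0`), and
`coeff (d-k) (ww^d) = C(2d-1-k, d-1)` for `1 ≤ k ≤ d`.
-/

set_option autoImplicit false

open Finset PowerSeries

noncomputable section

namespace Pool.Agent.H85.GR

theorem Nn_w (r : ℕ) {d : ℕ} (hd : 1 ≤ d) : Nn r d = ∑ k ∈ Icc 1 d,
    coeff k (Matrix.trace (DM (Ew r) * (1 - Ew r)⁻¹)) * ((2 * d - 1 - k).choose (d - 1) : ℤ) := by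
  set T := Matrix.trace (DM (Ew r) * (1 - Ew r)⁻¹) with hT
  have h1 : Nn r d = coeff d (Matrix.trace (DM ((PowerSeries.X : ℤ⟦X⟧) • (cst (K0 r) * Cs r)) *
      (1 + (PowerSeries.X : ℤ⟦X⟧) • (cst (K0 r) * Gs (r + 1))))) := by
    rw [← Nn_series, PowerSeries.coeff_mk]
  have hm : tau (Matrix.trace (DM ((PowerSeries.X : ℤ⟦X⟧) • (cst (K0 r) * Cs r)) *
      (1 + (PowerSeries.X : ℤ⟦X⟧) • (cst (K0 r) * Gs (r + 1))))) =
      Matrix.trace ((DM ((PowerSeries.X : ℤ⟦X⟧) • (cst (K0 r) * Cs r))).map tau * (1 - Ew r)⁻¹) := by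
    rw [← tau_inv r, ← Matrix.map_mul]
    unfold Matrix.trace
    rw [map_sum]
    rfl
  have hd1 : (1 - 2 * X : ℤ⟦X⟧) • (DM ((PowerSeries.X : ℤ⟦X⟧) • (cst (K0 r) * Cs r))).map tau =
      (1 - X : ℤ⟦X⟧) • DM (Ew r) := by
    rw [← tau_E r]
    refine Matrix.ext fun i j => ?_
    have h := tau_deriv (((PowerSeries.X : ℤ⟦X⟧) • (cst (K0 r) * Cs r)) i j)
    rw [mul_comm] at h
    exact h
  have h2 : tau (Matrix.trace (DM ((PowerSeries.X : ℤ⟦X⟧) • (cst (K0 r) * Cs r)) *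
      (1 + (PowerSeries.X : ℤ⟦X⟧) • (cst (K0 r) * Gs (r + 1))))) * (1 - 2 * X) = (1 - X) * T := by
    have e1 : ∀ (c : ℤ⟦X⟧) (M : Matrix (Wn (r + 1)) (Wn (r + 1)) ℤ⟦X⟧),
        c * Matrix.trace (M * (1 - Ew r)⁻¹) = Matrix.trace ((c • M) * (1 - Ew r)⁻¹) := by
      intro c M
      rw [Matrix.smul_mul, Matrix.trace_smul, smul_eq_mul]
    rw [hm, mul_comm, e1, hd1, ← e1]
  have h3 : Nn r d = coeff d (T * ww ^ d) := by
    rw [h1, coeff_tau, h2]
    congr 1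
    calc (1 - X) * T * ww ^ (d + 1) = (ww * (1 - X)) * (T * ww ^ d) := by
          rw [pow_succ]
          ring
      _ = T * ww ^ d := by rw [ww_mul, one_mul]
  have h0 : coeff 0 T = 0 := by
    rw [hT, cf_trace, cf_mul, Finset.Nat.antidiagonal_zero, sum_singleton, cf_DM, Nat.cast_zero, zero_smul, zero_mul,
      Matrix.trace_zero]
  have hc : ∀ k ∈ Icc 1 d, coeff k T * ((2 * d - 1 - k).choose (d - 1) : ℤ) =
      coeff k T * coeff (d - k) (ww ^ d) := by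
    intro k hk
    rw [mem_Icc] at hk
    obtain ⟨n, rfl⟩ : ∃ n, d = n + 1 := ⟨d - 1, by omega⟩
    rw [coeff_ww, show 2 * (n + 1) - 1 - k = n + (n + 1 - k) by omega, Nat.add_sub_cancel]
  rw [sum_congr rfl hc, h3, PowerSeries.coeff_mul, Nat.sum_antidiagonal_eq_sum_range_succ_mk]
  symm
  apply sum_subset
  · intro k hk
    rw [mem_Icc] at hk
    rw [mem_range]
    omega
  · intro k hk hk'
    rw [mem_range] at hk
    rw [mem_Icc] at hk'
    have : k = 0 := by omega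
    subst this
    rw [h0, zero_mul]

end Pool.Agent.H85.GR
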