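import Mathlib

/-!
# Transfer operators for the closed walks in `G(n, 321)`, `n = e d + r`: definitions

Operators are in pull form: `(T f) h` is the sum of `f h'` over the steps `h → h'`. Composition `T₁ * T₂` is the step `T₁` first, then `T₂`.
A window is a word of length `r`.
-/

set_option autoImplicit false

open Finset

noncomputable section

namespace Pool.Agent.H85.GR

/-- windows -/
abbrev Wn (r : ℕ) := Fin r → Bool

/-- append a letter at the end -/
def sn {r : ℕ} (c : Wn r) (u : Bool) : Wn (r + 1) := Fin.snoc (α := fun _ => Bool) c u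
/-- drop the first letter -/
def tl {r : ℕ} (w : Wn (r + 1)) : Wn r := fun i => w i.succ
/-- drop the last letter -/
def it {r : ℕ} (w : Wn (r + 1)) : Wn r := fun i => w i.castSucc

/-- the height stays or grows by one -/
def up : Module.End ℤ (ℕ → ℤ) where
  toFun f h := f h + f (h + 1)
  map_add' f g := by funext h; simp only [Pi.add_apply]; ring
  map_smul' a f := by funext h; simp only [Pi.smul_apply, smul_eq_mul, RingHom.id_apply]; ring

/-- the height stays or drops by one (never below `0`) -/
def dn : Module.End ℤ (ℕ → ℤ) where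
  toFun f h := f h + (if h = 0 then 0 else f (h - 1))
  map_add' f g := by funext h; simp only [Pi.add_apply]; split_ifs <;> ring
  map_smul' a f := by funext h; simp only [Pi.smul_apply, smul_eq_mul, RingHom.id_apply]; split_ifs <;> ring

/-- `α`: append a letter `u`; if `u = false` the height may grow -/
def al (r : ℕ) : (ℕ → Wn (r + 1) → ℤ) →ₗ[ℤ] (ℕ → Wn r → ℤ) where
  toFun F h c := up (fun h' => F h' (sn c false)) h + F h (sn c true)
  map_add' F G := by
    funext h c
    simp only [Pi.add_apply, up, LinearMap.coe_mk, AddHom.coe_mk]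
    ring
  map_smul' a F := by
    funext h c
    simp only [Pi.smul_apply, smul_eq_mul, RingHom.id_apply, up, LinearMap.coe_mk, AddHom.coe_mk]
    ring

/-- `β`: drop the first letter; if it is `true` the height may drop -/
def be (r : ℕ) : (ℕ → Wn r → ℤ) →ₗ[ℤ] (ℕ → Wn (r + 1) → ℤ) where
  toFun F h w := if w 0 = true then dn (fun h' => F h' (tl w)) h else F h (tl w)
  map_add' F G := by
    funext h w
    simp only [Pi.add_apply, dn, LinearMap.coe_mk, AddHom.coe_mk]
    split_ifs <;> ring
  map_smul' a F := by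
    funext h w
    simp only [Pi.smul_apply, smul_eq_mul, RingHom.id_apply, dn, LinearMap.coe_mk, AddHom.coe_mk]
    split_ifs <;> ring

/-- one step of the `r`-system -/
def AA (r : ℕ) : Module.End ℤ (ℕ → Wn r → ℤ) := al r ∘ₗ be r
/-- one step of the `(r+1)`-system with the constraint also at the `r`-times -/
def AB (r : ℕ) : Module.End ℤ (ℕ → Wn (r + 1) → ℤ) := be r ∘ₗ al r

/-- functions supported at height `0` -/
def io (r : ℕ) : (Wn r → ℤ) →ₗ[ℤ] (ℕ → Wn r → ℤ) where
  toFun f h c := if h = 0 then f c else 0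
  map_add' f g := by
    funext h c
    simp only [Pi.add_apply]
    split_ifs <;> ring
  map_smul' a f := by
    funext h c
    simp only [Pi.smul_apply, smul_eq_mul, RingHom.id_apply]
    split_ifs <;> ring

/-- restriction to height `0` -/
def pr (r : ℕ) : (ℕ → Wn r → ℤ) →ₗ[ℤ] (Wn r → ℤ) where
  toFun F := F 0
  map_add' _ _ := rfl
  map_smul' _ _ := rfl

/-- the matrix of the extra step at height `0` -/
def K0 (r : ℕ) : Matrix (Wn (r + 1)) (Wn (r + 1)) ℤ :=
  fun w w' => if w 0 = true ∧ w' (Fin.last r) = false ∧ tl w = it w' then 1 else 0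
def A0 (r : ℕ) : Matrix (Wn r) (Wn (r + 1)) ℤ := fun c w => if c = it w then 1 else 0
def B0 (r : ℕ) : Matrix (Wn (r + 1)) (Wn r) ℤ := fun w c => if tl w = c then 1 else 0

/-- numbers of walks from height `0` to height `0` -/
def gm (r m : ℕ) : Matrix (Wn r) (Wn r) ℤ := LinearMap.toMatrix' (pr r ∘ₗ ((AA r) ^ m : Module.End ℤ (ℕ → Wn r → ℤ)) ∘ₗ io r)
def cm (r m : ℕ) : Matrix (Wn (r + 1)) (Wn (r + 1)) ℤ := LinearMap.toMatrix' (pr (r + 1) ∘ₗ ((AB r) ^ m : Module.End ℤ (ℕ → Wn (r + 1) → ℤ)) ∘ₗ io (r + 1))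

/-- the generating functions -/
def Gs (r : ℕ) : Matrix (Wn r) (Wn r) (PowerSeries ℤ) := fun c c' => PowerSeries.mk fun m => gm r m c c'
def Cs (r : ℕ) : Matrix (Wn (r + 1)) (Wn (r + 1)) (PowerSeries ℤ) := fun c c' => PowerSeries.mk fun m => cm r m c c'

/-- constant matrices over power series -/
def cst {m n : Type*} (M : Matrix m n ℤ) : Matrix m n (PowerSeries ℤ) := M.map (PowerSeries.C (R := ℤ))

/-- the derivation `X d/dX` on matrices -/
def DM {m n : Type*} (M : Matrix m n (PowerSeries ℤ)) : Matrix m n (PowerSeries ℤ) :=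
  M.map fun f => PowerSeries.X * PowerSeries.derivative ℤ f

/-- the regularized trace -/
def Nn (r d : ℕ) : ℤ := ∑ k ∈ range d, Matrix.trace (K0 r *
  LinearMap.toMatrix' (pr (r + 1) ∘ₗ ((AB r) ^ (d - 1 - k) * (AA (r + 1)) ^ k : Module.End ℤ (ℕ → Wn (r + 1) → ℤ)) ∘ₗ io (r + 1)))

/-- the step operators of the closed words -/
def TA : Bool → Bool → Module.End ℤ (ℕ → ℤ)
  | true, false => up * dn
  | true, true => dn
  | false, false => up
  | false, true => 1

def TB : Bool → Bool → Module.End ℤ (ℕ → ℤ)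
  | true, false => dn * up
  | true, true => dn
  | false, false => up
  | false, true => 1

/-- the window operator with the steps `T` -/
def TT (r : ℕ) (T : Bool → Bool → Module.End ℤ (ℕ → ℤ)) : Module.End ℤ (ℕ → Wn (r + 1) → ℤ) where
  toFun F h c := ∑ u : Bool, T (c 0) u (fun h' => F h' (sn (tl c) u)) h
  map_add' F G := by
    funext h c
    simp only [Pi.add_apply, ← sum_add_distrib]
    refine sum_congr rfl fun u _ => ?_
    have e : (fun h' => F h' (sn (tl c) u) + G h' (sn (tl c) u)) =
      (fun h' => F h' (sn (tl c) u)) + (fun h' => G h' (sn (tl c) u)) := rfl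
    rw [e, map_add]
    rfl
  map_smul' a F := by
    funext h c
    simp only [Pi.smul_apply, smul_eq_mul, RingHom.id_apply, mul_sum]
    refine sum_congr rfl fun u _ => ?_
    have e : (fun h' => a * F h' (sn (tl c) u)) = a • (fun h' => F h' (sn (tl c) u)) := rfl
    rw [e, map_smul]
    rfl

/-- product of the step operators along the letters `s 0, s 1, …, s (m - 1)` with the letters read `R` places ahead -/
def Pr (T : Bool → Bool → Module.End ℤ (ℕ → ℤ)) (s : ℕ → Bool) (R : ℕ) : ℕ → (ℕ → ℤ) → (ℕ → ℤ)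
  | 0, f => f
  | m + 1, f => Pr T s R m (T (s m) (s (m + R)) f)

/-- indicator functions -/
def del (h : ℕ) : ℕ → ℤ := fun h' => if h' = h then 1 else 0
def delw {r : ℕ} (h : ℕ) (c : Wn r) : ℕ → Wn r → ℤ := fun h' c' => if h' = h ∧ c' = c then 1 else 0

/-- the periodic sequence of a word -/
def per {d : ℕ} (hd : 0 < d) (u : Fin d → Bool) : ℕ → Bool := fun i => u ⟨i % d, Nat.mod_lt i hd⟩

/-- number of the letters `true` before `i` -/
def UU (s : ℕ → Bool) (i : ℕ) : ℕ := ∑ j ∈ range i, (if s j = true then 1 else 0)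
/-- number of the letters of the second word read before `i` -/
def YY (s : ℕ → Bool) (R i : ℕ) : ℕ := ∑ j ∈ range i, ((if s j = true then 1 else 0) + (if s (j + R) = true then 0 else 1))
/-- number of the elements of `S` below `y` -/
def cS (S : Finset ℕ) (y : ℕ) : ℕ := (S.filter (fun x => x < y)).card

/-! ## elementary lemmas -/

theorem tl_sn {r : ℕ} (c : Wn (r + 1)) (u : Bool) : tl (sn c u) = sn (tl c) u := by
  funext i
  unfold tl sn
  refine Fin.lastCases ?_ (fun j => ?_) i
  · rw [Fin.succ_last, Fin.snoc_last, Fin.snoc_last]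
  · rw [Fin.succ_castSucc, Fin.snoc_castSucc, Fin.snoc_castSucc]

theorem it_sn {r : ℕ} (c : Wn r) (u : Bool) : it (sn c u) = c := by
  funext i
  unfold it sn
  rw [Fin.snoc_castSucc]

theorem sn_last {r : ℕ} (c : Wn r) (u : Bool) : sn c u (Fin.last r) = u := by
  unfold sn
  rw [Fin.snoc_last]

theorem sn_zero {r : ℕ} (c : Wn (r + 1)) (u : Bool) : sn c u 0 = c 0 := by
  unfold sn
  rw [show (0 : Fin (r + 1 + 1)) = Fin.castSucc 0 by rfl, Fin.snoc_castSucc]

theorem sn_it {r : ℕ} (w : Wn (r + 1)) : sn (it w) (w (Fin.last r)) = w := by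
  funext i
  unfold it sn
  refine Fin.lastCases ?_ (fun j => ?_) i
  · rw [Fin.snoc_last]
  · rw [Fin.snoc_castSucc]

end Pool.Agent.H85.GR
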