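import Pool.Agent.H85.GR.Be
import Pool.Agent.H85.GR.Cd
import Pool.Agent.H85.CY3.M

/-!
# The number of closed walks for all `n = e d + r`
-/

set_option autoImplicit false

open Finset Pool.Agent.H63.CY Pool.Agent.H85.CY3

noncomputable section

namespace Pool.Agent.H85.GR

theorem sum_all (r : ℕ) {d : ℕ} (hd : 1 ≤ d) :
    ∑ p ∈ range (d + 1), ∑ U ∈ L0 d p, ∑ V ∈ L0 d p, (mxx d 0 U V - mxx d (r : ℤ) U V) =
      ∑ k ∈ Icc 1 d, pw r k * ((2 * d - 1 - k).choose (d - 1) : ℤ) := by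
  have h1 : ∑ p ∈ range (d + 1), ∑ U ∈ L0 d p, ∑ V ∈ L0 d p, (mxx d 0 U V - mxx d (r : ℤ) U V) =
      ∑ s ∈ range r, Nn s d := by
    have e : ∀ s ∈ range r, Nn s d = ∑ p ∈ range (d + 1), ∑ U ∈ L0 d p, ∑ V ∈ L0 d p, (mxx d (s : ℤ) U V - mxx d ((s + 1 : ℕ) : ℤ) U V) := by
      intro s _
      rw [Nn_eq s hd]
      push_cast
      rfl
    rw [sum_congr rfl e]
    symm
    rw [sum_comm]
    refine sum_congr rfl fun p _ => ?_
    rw [sum_comm]
    refine sum_congr rfl fun U _ => ?_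
    rw [sum_comm]
    refine sum_congr rfl fun V _ => ?_
    rw [sum_range_sub' (fun s : ℕ => mxx d (s : ℤ) U V)]
    rfl
  rw [h1]
  have e : ∀ s ∈ range r, Nn s d = ∑ k ∈ Icc 1 d,
    PowerSeries.coeff k (Matrix.trace (DM (Ew s) * (1 - Ew s)⁻¹)) * ((2 * d - 1 - k).choose (d - 1) : ℤ) := fun s _ => Nn_w s hd
  rw [sum_congr rfl e, sum_comm]
  refine sum_congr rfl fun k _ => ?_
  unfold pw
  rw [sum_mul]

/-- the number of closed walks for all `n > d` -/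
theorem W_all {n d e r : ℕ} (hd : 1 ≤ d) (he : 1 ≤ e) (hn : n = e * d + r) (hdn : d < n) :
    2 * (W n d : ℤ) = 3 * (2 * d).choose d - 4 ^ d + 2 * e * ((d - 1) * (2 * d - 2).choose (d - 1)) +
      2 * ∑ k ∈ Icc 1 d, pw r k * ((2 * d - 1 - k).choose (d - 1) : ℤ) := by
  have hed : d ≤ e * d := Nat.le_mul_of_pos_left d he
  rw [W_TS hd hdn]
  have h := TS_diff (n := n) (m := e * d) (d := d) (e := e) (r := (r : ℤ)) (s := 0) hd (by rw [hn]; push_cast; ring) (by ring) hdn.le hed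
    (fun p U V hp hU hV => by rw [mxx_end hd _ hp hU hV, mxx_end hd _ hp hU hV]; ring)
  rw [sum_all r hd] at h
  have h2 := TS_mult hd he
  rw [h]
  linarith

end Pool.Agent.H85.GR
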