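import Mathlib

/-!
ROW Ja. Jacobi's formula for matrices of power series.
PROOF. `det M = ∑ σ, sign σ * ∏ i, M (σ i) i`; the derivative of a product is `∑ i, (∏_{j ≠ i} ...) * derivative` (`Derivation.leibniz_prod` or `Finset` induction), so
`derivative (det M) = ∑ i, det (M.updateCol i (fun j => derivative (M j i)))`, and `det (M.updateCol i v) = ∑ j, adjugate M i j * v j` (`Matrix.cramer`, `Matrix.cramer_apply`, `Matrix.adjugate_def`/`mulVec_cramer`,
`Matrix.cramer_eq_adjugate_mulVec`).
-/

set_option autoImplicit false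

open Finset PowerSeries

noncomputable section

namespace Pool.Agent.H85.GR

private lemma Ja_prod {R A ι : Type*} [CommRing R] [CommRing A] [Algebra R A] [DecidableEq ι]
    (D : Derivation R A A) (s : Finset ι) (f : ι → A) :
    D (∏ i ∈ s, f i) = ∑ i ∈ s, (∏ j ∈ s.erase i, f j) * D (f i) := by
  induction s using Finset.induction_on with
  | empty => simp
  | insert a s ha ih =>
    rw [Finset.prod_insert ha, Derivation.leibniz, ih, Finset.sum_insert ha,
      Finset.erase_insert ha, smul_eq_mul, smul_eq_mul, Finset.mul_sum, add_comm]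
    congr 1
    refine Finset.sum_congr rfl fun i hi => ?_
    have hne : a ≠ i := fun h => ha (h ▸ hi)
    rw [Finset.erase_insert_of_ne hne, Finset.prod_insert (fun h => ha (Finset.mem_of_mem_erase h)),
      mul_assoc]

private lemma Ja_det {R A n : Type*} [CommRing R] [CommRing A] [Algebra R A] [Fintype n]
    [DecidableEq n] (D : Derivation R A A) (M : Matrix n n A) :
    D M.det = Matrix.trace (M.adjugate * M.map D) := by
  have h1 : Matrix.trace (M.adjugate * M.map D) =
      ∑ i, (M.updateCol i (fun j => D (M j i))).det := by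
    rw [Matrix.trace]
    refine Finset.sum_congr rfl fun i _ => ?_
    rw [← Matrix.cramer_apply, Matrix.cramer_eq_adjugate_mulVec]
    rfl
  rw [h1, Matrix.det_apply, map_sum]
  have h2 : ∀ i, (M.updateCol i (fun j => D (M j i))).det = ∑ σ : Equiv.Perm n,
      Equiv.Perm.sign σ • ((∏ j ∈ univ.erase i, M (σ j) j) * D (M (σ i) i)) := by
    intro i
    rw [Matrix.det_apply]
    refine Finset.sum_congr rfl fun σ _ => ?_
    congr 1
    rw [← Finset.prod_erase_mul univ _ (Finset.mem_univ i), Matrix.updateCol_self]
    congr 1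
    refine Finset.prod_congr rfl fun j hj => ?_
    rw [Matrix.updateCol_ne (Finset.ne_of_mem_erase hj)]
  simp only [h2]
  rw [Finset.sum_comm]
  refine Finset.sum_congr rfl fun σ _ => ?_
  rw [← Finset.smul_sum, Units.smul_def, Units.smul_def, map_zsmul, Ja_prod]

theorem jacobi {n : Type*} [Fintype n] [DecidableEq n] (M : Matrix n n ℤ⟦X⟧) :
    derivative ℤ M.det = Matrix.trace (M.adjugate * M.map (derivative ℤ)) :=
  Ja_det (derivative ℤ) M

/-- logarithmic derivative of the determinant -/
theorem log_det {n : Type*} [Fintype n] [DecidableEq n] (M : Matrix n n ℤ⟦X⟧) (hM : IsUnit M.det) :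
    derivative ℤ M.det = M.det * Matrix.trace (M.map (derivative ℤ) * M⁻¹) := by
  rw [jacobi, Matrix.inv_def, Matrix.mul_smul, Matrix.trace_smul, smul_eq_mul, ← mul_assoc,
    Ring.mul_inverse_cancel _ hM, one_mul, Matrix.trace_mul_comm]

end Pool.Agent.H85.GR
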