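import Pool.Agent.H85.GR.Mb
import Pool.Agent.H85.GR.Ja

/-!
ROW Mc. The coefficients `pw r k` as power sums of the determinant of the block matrix.
PROOF. `prod_det`: by `det_rec` and induction `(∏ s < r, det (1 - Ew s)) * det (Yw 0) = (∏ s < r, det (Yw s + ZA s)) * det (Yw r)` (cancel the unit `det (Yw r)` in the step), `det (Yw 0) = (1-X)^2`, and `Mt_all` with `Z = 0`.
`pw_det`: for an `s` put `q_s = det (1 - Ew s)`; `log_det`: `q_s' = q_s * trace ((1 - Ew s)' * (1 - Ew s)⁻¹) = - q_s * trace (Ew s' * (1 - Ew s)⁻¹)`, so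
`trace (DM (Ew s) * (1 - Ew s)⁻¹) * q_s = - X q_s'`. With `L f = X f' / f` (for `f` with constant term `1`; `L (f g) = L f + L g`) the sum over `s < r` is `- L (∏ q_s) = - L Δ + 2 L (1 - X) = - L Δ - 2 X / (1 - X)`,
`Δ = det (Mt r 0) = (∏ q_s) (1-X)^2`. The coefficient of `X / (1 - X)` at `k ≥ 1` is `1`. (`PowerSeries.mul_invOfUnit`.)
-/

set_option autoImplicit false

open Finset PowerSeries

noncomputable section

namespace Pool.Agent.H85.GR

theorem prod_det (r : ℕ) : (∏ s ∈ range r, (1 - Ew s).det) * (1 - X) ^ 2 = (Mt r 0).det := by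
  have h1 : ∀ r : ℕ, (∏ s ∈ range r, (1 - Ew s).det) * (Yw 0).det =
      (∏ s ∈ range r, (Yw s + ZA s).det) * (Yw r).det := by
    intro r
    induction r with
    | zero => rw [range_zero, prod_empty, prod_empty]
    | succ r ih =>
      rw [prod_range_succ, prod_range_succ]
      calc (∏ s ∈ range r, (1 - Ew s).det) * (1 - Ew r).det * (Yw 0).det
          = (∏ s ∈ range r, (1 - Ew s).det) * (Yw 0).det * (1 - Ew r).det := by ring
        _ = (∏ s ∈ range r, (Yw s + ZA s).det) * ((1 - Ew r).det * (Yw r).det) := by rw [ih]; ring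
        _ = (∏ s ∈ range r, (Yw s + ZA s).det) * (Yw r + ZA r).det * (Yw (r + 1)).det := by
            rw [det_rec]; ring
  have h2 : (Yw 0).det = (1 - X) ^ 2 := by
    rw [Y_zero, Matrix.det_smul, Matrix.det_one, mul_one]
    have h3 : Fintype.card (Wn 0) = 1 := by simp [Wn]
    rw [h3, pow_one]
  have h4 := (Mt_all r 0 (by unfold NP; rw [Matrix.map_zero _ (map_zero _)])).2.1
  rw [h4, add_zero, ← h1 r, h2]

/-- power sums of the reciprocal roots -/
def ps (f : ℤ⟦X⟧) (k : ℕ) : ℤ := coeff k (-(X * derivative ℤ f) * invOfUnit f 1)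

private lemma Mc_inv {f : ℤ⟦X⟧} (hf : constantCoeff f = 1) : f * invOfUnit f 1 = 1 :=
  mul_invOfUnit f 1 (by rw [hf, Units.val_one])

private lemma Mc_uniq {f g : ℤ⟦X⟧} (hf : constantCoeff f = 1) (h : f * g = 1) :
    invOfUnit f 1 = g := by
  calc invOfUnit f 1 = invOfUnit f 1 * (f * g) := by rw [h, mul_one]
    _ = (f * invOfUnit f 1) * g := by ring
    _ = g := by rw [Mc_inv hf, one_mul]

private lemma Mc_eq {f t : ℤ⟦X⟧} (hf : constantCoeff f = 1) (h : t * f = -(X * derivative ℤ f)) :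
    t = -(X * derivative ℤ f) * invOfUnit f 1 := by
  rw [← h, mul_assoc, Mc_inv hf, mul_one]

private lemma Mc_mul {f g : ℤ⟦X⟧} (hf : constantCoeff f = 1) (hg : constantCoeff g = 1) (k : ℕ) :
    ps (f * g) k = ps f k + ps g k := by
  have hfg : constantCoeff (f * g) = 1 := by rw [map_mul, hf, hg, one_mul]
  have h1 : invOfUnit (f * g) 1 = invOfUnit f 1 * invOfUnit g 1 := by
    refine Mc_uniq hfg ?_
    calc f * g * (invOfUnit f 1 * invOfUnit g 1) = (f * invOfUnit f 1) * (g * invOfUnit g 1) := by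
          ring
      _ = 1 := by rw [Mc_inv hf, Mc_inv hg, one_mul]
  unfold ps
  rw [h1, ← map_add]
  congr 1
  have h2 : derivative ℤ (f * g) = f * derivative ℤ g + g * derivative ℤ f := by
    rw [Derivation.leibniz, smul_eq_mul, smul_eq_mul]
  rw [h2]
  calc -(X * (f * derivative ℤ g + g * derivative ℤ f)) * (invOfUnit f 1 * invOfUnit g 1)
      = -(X * derivative ℤ f) * invOfUnit f 1 * (g * invOfUnit g 1) +
        -(X * derivative ℤ g) * invOfUnit g 1 * (f * invOfUnit f 1) := by ring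
    _ = _ := by rw [Mc_inv hf, Mc_inv hg, mul_one, mul_one]

private lemma Mc_one (k : ℕ) : ps 1 k = 0 := by
  unfold ps
  rw [Derivation.map_one_eq_zero, mul_zero, neg_zero, zero_mul, map_zero]

private lemma Mc_prod {f : ℕ → ℤ⟦X⟧} (hf : ∀ s, constantCoeff (f s) = 1) (k r : ℕ) :
    constantCoeff (∏ s ∈ range r, f s) = 1 ∧
      ps (∏ s ∈ range r, f s) k = ∑ s ∈ range r, ps (f s) k := by
  induction r with
  | zero =>
    rw [range_zero, prod_empty, sum_empty]
    exact ⟨map_one _, Mc_one k⟩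
  | succ r ih =>
    rw [prod_range_succ, sum_range_succ]
    refine ⟨?_, ?_⟩
    · rw [map_mul, ih.1, hf, one_mul]
    · rw [Mc_mul ih.1 (hf r), ih.2]

private lemma Mc_X {k : ℕ} (hk : 1 ≤ k) : ps (1 - X) k = 1 := by
  have h0 : constantCoeff (1 - X : ℤ⟦X⟧) = 1 := by simp
  have h1 : invOfUnit (1 - X : ℤ⟦X⟧) 1 = PowerSeries.mk 1 := by
    refine Mc_uniq h0 ?_
    rw [mul_comm]
    exact PowerSeries.mk_one_mul_one_sub_eq_one ℤ
  unfold ps
  rw [h1]
  have h2 : derivative ℤ (1 - X : ℤ⟦X⟧) = -1 := by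
    rw [map_sub, Derivation.map_one_eq_zero, PowerSeries.derivative_X, zero_sub]
  rw [h2]
  have h3 : -((X : ℤ⟦X⟧) * -1) * PowerSeries.mk 1 = X * PowerSeries.mk 1 := by ring
  rw [h3]
  obtain ⟨j, rfl⟩ : ∃ j, k = j + 1 := ⟨k - 1, by omega⟩
  rw [PowerSeries.coeff_succ_X_mul, PowerSeries.coeff_mk]
  rfl

private lemma Mc_tr (s : ℕ) : Matrix.trace (DM (Ew s) * (1 - Ew s)⁻¹) =
    -(X * derivative ℤ (1 - Ew s).det) * invOfUnit (1 - Ew s).det 1 := by
  obtain ⟨h1, h2⟩ := UP.unit (UP_E s)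
  refine Mc_eq h1 ?_
  rw [log_det _ h2]
  have h3 : DM (Ew s) = (X : ℤ⟦X⟧) • (Ew s).map (derivative ℤ) := by
    ext i j
    rfl
  have h4 : (1 - Ew s).map (derivative ℤ) = -(Ew s).map (derivative ℤ) := by
    ext1 i j
    rw [Matrix.map_apply, Matrix.neg_apply, Matrix.map_apply, Matrix.sub_apply, map_sub,
      Matrix.one_apply]
    split_ifs
    · rw [Derivation.map_one_eq_zero, zero_sub]
    · rw [map_zero, zero_sub]
  rw [h3, h4, Matrix.smul_mul, Matrix.trace_smul, Matrix.neg_mul, Matrix.trace_neg, smul_eq_mul]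
  ring

theorem pw_det (r : ℕ) {k : ℕ} (hk : 1 ≤ k) : pw r k = ps (Mt r 0).det k - 2 := by
  have h0 : ∀ s, constantCoeff (1 - Ew s).det = 1 := fun s => (UP.unit (UP_E s)).1
  have h1 : pw r k = ps (∏ s ∈ range r, (1 - Ew s).det) k := by
    rw [(Mc_prod h0 k r).2]
    unfold pw
    refine sum_congr rfl fun s _ => ?_
    rw [Mc_tr]
    rfl
  have h2 : constantCoeff (1 - X : ℤ⟦X⟧) = 1 := by simp
  have h3 : constantCoeff ((1 - X : ℤ⟦X⟧) ^ 2) = 1 := by rw [map_pow, h2, one_pow]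
  rw [← prod_det, Mc_mul (Mc_prod h0 k r).1 h3, h1, sq, Mc_mul h2 h2, Mc_X hk]
  ring

end Pool.Agent.H85.GR
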