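import Pool.Agent.H85.GR.Wg

/-!
ROW Me. The block matrix `Mt r 0` written directly, indexed by the words (lists) of length at most `r`.
PROOF. `lst r : Ix r → List Bool` is injective with image the words of length `≤ r` (length exactly `r` on `emb r`). `ent_eq`: by induction on `r` (two statements: for `Z = ZA r` and `r < R`, and for `Z = 0`, `R = r`):
the entries are `ent R` of the words. The block `inl, inl` is the induction hypothesis (first statement for `r`, `r < r + 1 ≤ R`). `inl i, inr w`: `lst i` has length `≤ r`, `w` has length `r + 1`, so only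
the term `w.dropLast = v` remains (`List.ofFn` and `it`: `(List.ofFn w).dropLast = List.ofFn (it w)`, `(List.ofFn w).tail = List.ofFn (tl w)`). `inr w, inl i`: only the term `v.tail = w`. `inr, inr`:
`[v = w]` and the last term: `(A0 s * B0 s) v w = [tl v = it w]` for `s = r + 1` (the only `x` with `it x = v`, `tl x = w` is `sn v (w last)`), `K0`: first letter `true`, last letter `false`, `tl v = it w`.
`r = 0`: `(A0 0 * B0 0) = 2`, `(1-X)^2 + 2 zz = 1 - X^2`.
`det_direct`: `Matrix.det_submatrix_equiv_self` (or `Matrix.det_reindex_self`) with the bijection `Ix r ≃ {l // l.length ≤ r}` given by `lst`.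
-/

set_option autoImplicit false

open Finset PowerSeries

noncomputable section

namespace Pool.Agent.H85.GR

/-- the entries -/
def ent (R : ℕ) (v w : List Bool) : ℤ⟦X⟧ :=
  if v = [] ∧ w = [] then (if R = 0 then (1 - X) ^ 2 else 1 - X ^ 2)
  else (if v = w then 1 else 0) + (if w ≠ [] ∧ w.dropLast = v then 1 else 0) + (if v ≠ [] ∧ v.tail = w then zz else 0) +
    (if v ≠ [] ∧ w ≠ [] ∧ v.tail = w.dropLast then
      zz * ((if v.length < R then 1 else 0) - (if v.head? = some true ∧ w.getLast? = some false then 1 else 0)) else 0)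

instance instFtWd (r : ℕ) : Fintype {l : List Bool // l.length ≤ r} := (List.finite_length_le Bool r).fintype

/-- the matrix -/
def Mdir (r : ℕ) : Matrix {l : List Bool // l.length ≤ r} {l : List Bool // l.length ≤ r} ℤ⟦X⟧ := fun v w => ent r v.1 w.1

/-- the word of an index -/
def lst : (r : ℕ) → Ix r → List Bool
  | 0, _ => []
  | r + 1, i => Sum.elim (lst r) (fun w => List.ofFn w) i

theorem Me_len (r : ℕ) (i : Ix r) : (lst r i).length ≤ r := by
  induction r with
  | zero => exact le_refl _
  | succ r ih =>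
    rcases i with i | w
    · exact (ih i).trans (Nat.le_succ r)
    · show (List.ofFn w).length ≤ r + 1
      rw [List.length_ofFn]

theorem lst_inj (r : ℕ) : Function.Injective (lst r) := by
  induction r with
  | zero =>
    intro i j _
    funext x
    exact x.elim0
  | succ r ih =>
    intro i j hij
    rcases i with i | v <;> rcases j with j | w
    · exact congrArg Sum.inl (ih hij)
    · exfalso
      have h1 : lst r i = List.ofFn w := hij
      have h2 := Me_len r i
      rw [h1, List.length_ofFn] at h2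
      omega
    · exfalso
      have h1 : List.ofFn v = lst r j := hij
      have h2 := Me_len r j
      rw [← h1, List.length_ofFn] at h2
      omega
    · have h1 : List.ofFn v = List.ofFn w := hij
      exact congrArg Sum.inr (List.ofFn_injective h1)

theorem Me_get (l : List Bool) (n : ℕ) (hn : l.length = n) :
    List.ofFn (fun i : Fin n => l.get (Fin.cast hn.symm i)) = l := by
  subst hn
  exact List.ofFn_get l

theorem lst_range (r : ℕ) (l : List Bool) : (∃ i, lst r i = l) ↔ l.length ≤ r := by
  constructor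
  · rintro ⟨i, rfl⟩
    exact Me_len r i
  · intro hl
    induction r with
    | zero =>
      have h1 : l = [] := List.length_eq_zero_iff.1 (Nat.le_zero.1 hl)
      exact ⟨fun x => x.elim0, h1.symm⟩
    | succ r ih =>
      rcases Nat.lt_or_ge r l.length with h | h
      · have h1 : l.length = r + 1 := by omega
        refine ⟨Sum.inr (fun i => l.get (Fin.cast h1.symm i)), ?_⟩
        exact Me_get l (r + 1) h1
      · obtain ⟨i, hi⟩ := ih h
        exact ⟨Sum.inl i, hi⟩

theorem lst_emb (r : ℕ) (w : Wn r) : lst r (emb r w) = List.ofFn w := by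
  cases r with
  | zero => exact (List.ofFn_zero).symm
  | succ r => rfl

theorem Me_tail {r : ℕ} (w : Wn (r + 1)) : (List.ofFn w).tail = List.ofFn (tl w) := by
  rw [List.ofFn_succ]
  rfl

theorem Me_drop {r : ℕ} (w : Wn (r + 1)) : (List.ofFn w).dropLast = List.ofFn (it w) := by
  rw [List.ofFn_succ', List.concat_eq_append, List.dropLast_concat]
  rfl

theorem Me_head {r : ℕ} (w : Wn (r + 1)) : (List.ofFn w).head? = some (w 0) := by
  rw [List.ofFn_succ]
  rfl

theorem Me_last {r : ℕ} (w : Wn (r + 1)) : (List.ofFn w).getLast? = some (w (Fin.last r)) := by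
  rw [List.ofFn_succ', List.concat_eq_append, List.getLast?_append]
  rfl

theorem Me_ne {r : ℕ} (w : Wn (r + 1)) : List.ofFn w ≠ [] := by
  rw [List.ofFn_succ]
  exact List.cons_ne_nil _ _

theorem Me_emb (r : ℕ) (i : Ix r) (w : Wn r) : i = emb r w ↔ List.ofFn w = lst r i := by
  rw [← lst_emb r w]
  constructor
  · rintro rfl
    rfl
  · intro h
    exact (lst_inj r h).symm

theorem Me_ZA (r : ℕ) (v w : Wn r) (p : Prop) [Decidable p]
    (hp : p ↔ ∃ x : Wn (r + 1), v = it x ∧ tl x = w)
    (hu : ∀ x y : Wn (r + 1), it x = it y → tl x = tl y → x = y) :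
    ZA r v w = if p then zz else 0 := by
  show (zz • (cst (A0 r) * cst (B0 r))) v w = _
  rw [Matrix.smul_apply, Matrix.mul_apply]
  simp only [cst, Matrix.map_apply, A0, B0]
  by_cases h : p
  · rw [if_pos h]
    obtain ⟨x, hx1, hx2⟩ := hp.1 h
    rw [Finset.sum_eq_single x]
    · rw [if_pos hx1, if_pos hx2]
      simp
    · intro y _ hy
      by_cases h1 : v = it y
      · by_cases h2 : tl y = w
        · exact absurd (hu y x (h1.symm.trans hx1) (h2.trans hx2.symm)) hy
        · rw [if_neg h2]
          simp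
      · rw [if_neg h1]
        simp
    · intro h3
      exact absurd (Finset.mem_univ _) h3
  · rw [if_neg h, Finset.sum_eq_zero, smul_zero]
    intro y _
    by_cases h1 : v = it y
    · by_cases h2 : tl y = w
      · exact absurd (hp.2 ⟨y, h1, h2⟩) h
      · rw [if_neg h2]
        simp
    · rw [if_neg h1]
      simp

theorem Me_ZA_zero (v w : Wn 0) : ZA 0 v w = zz + zz := by
  show (zz • (cst (A0 0) * cst (B0 0))) v w = _
  rw [Matrix.smul_apply, Matrix.mul_apply]
  have h1 : ∀ x : Wn 1, cst (A0 0) v x * cst (B0 0) x w = 1 := by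
    intro x
    have e1 : v = it x := funext fun i => i.elim0
    have e2 : tl x = w := funext fun i => i.elim0
    simp only [cst, Matrix.map_apply, A0, B0]
    rw [if_pos e1, if_pos e2]
    simp
  rw [Finset.sum_congr rfl fun x _ => h1 x, Finset.sum_const, Finset.card_univ]
  simp
  ring

theorem Me_ZA_succ (r : ℕ) (v w : Wn (r + 1)) :
    ZA (r + 1) v w = if tl v = it w then zz else 0 := by
  refine Me_ZA (r + 1) v w _ ?_ ?_
  · constructor
    · intro h
      refine ⟨sn v (w (Fin.last r)), (it_sn v _).symm, ?_⟩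
      rw [tl_sn, h, sn_it]
    · rintro ⟨x, rfl, rfl⟩
      rfl
  · intro x y h1 h2
    funext i
    refine Fin.lastCases ?_ (fun j => ?_) i
    · exact congrFun h2 (Fin.last r)
    · exact congrFun h1 j

theorem Me_ent (R : ℕ) (v w : List Bool) (h : ¬ (v = [] ∧ w = [])) : ent R v w =
    (if v = w then 1 else 0) + (if w ≠ [] ∧ w.dropLast = v then 1 else 0) +
    (if v ≠ [] ∧ v.tail = w then zz else 0) +
    (if v ≠ [] ∧ w ≠ [] ∧ v.tail = w.dropLast then
      zz * ((if v.length < R then 1 else 0) -
        (if v.head? = some true ∧ w.getLast? = some false then 1 else 0)) else 0) := by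
  unfold ent
  exact if_neg h

theorem Me_rr (r R : ℕ) (v w : Wn (r + 1)) (Z : ℤ⟦X⟧)
    (hZ : Z = (if tl v = it w then zz * (if r + 1 < R then 1 else 0) else 0)) :
    (1 - zz • cst (K0 r) : Matrix (Wn (r + 1)) (Wn (r + 1)) ℤ⟦X⟧) v w + Z =
      ent R (List.ofFn v) (List.ofFn w) := by
  have f1 : (if List.ofFn v = List.ofFn w then 1 else 0 : ℤ⟦X⟧) =
      (1 : Matrix (Wn (r + 1)) (Wn (r + 1)) ℤ⟦X⟧) v w := by
    by_cases h : v = w
    · rw [h, Matrix.one_apply_eq, if_pos rfl]
    · rw [Matrix.one_apply_ne h, if_neg (fun h' => h (List.ofFn_injective h'))]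
  have f2 : (if List.ofFn w ≠ [] ∧ (List.ofFn w).dropLast = List.ofFn v then 1 else 0 : ℤ⟦X⟧) = 0 := by
    refine if_neg (fun h => ?_)
    have := congrArg List.length h.2
    rw [List.length_dropLast, List.length_ofFn, List.length_ofFn] at this
    omega
  have f3 : (if List.ofFn v ≠ [] ∧ (List.ofFn v).tail = List.ofFn w then zz else 0 : ℤ⟦X⟧) = 0 := by
    refine if_neg (fun h => ?_)
    have := congrArg List.length h.2
    rw [List.length_tail, List.length_ofFn, List.length_ofFn] at this
    omega
  have e4 : ((List.ofFn v).tail = (List.ofFn w).dropLast) ↔ tl v = it w := by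
    rw [Me_tail, Me_drop]
    exact ⟨fun h => List.ofFn_injective h, fun h => by rw [h]⟩
  have hK1 : (v 0 = true ∧ w (Fin.last r) = false ∧ tl v = it w) → cst (K0 r) v w = 1 := by
    intro h
    have h5 : K0 r v w = 1 := if_pos h
    show PowerSeries.C (K0 r v w) = 1
    rw [h5, map_one]
  have hK0 : ¬ (v 0 = true ∧ w (Fin.last r) = false ∧ tl v = it w) → cst (K0 r) v w = 0 := by
    intro h
    have h5 : K0 r v w = 0 := if_neg h
    show PowerSeries.C (K0 r v w) = 0
    rw [h5, map_zero]
  have hL : (List.ofFn v).length = r + 1 := List.length_ofFn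
  rw [Me_ent R _ _ (fun h => Me_ne v h.1), f1, f2, f3, Matrix.sub_apply, Matrix.smul_apply,
    smul_eq_mul, Me_head, Me_last, hL]
  generalize (1 : Matrix (Wn (r + 1)) (Wn (r + 1)) ℤ⟦X⟧) v w = D
  by_cases h1 : tl v = it w
  · have hZ1 : Z = zz * (if r + 1 < R then 1 else 0) := hZ.trans (if_pos h1)
    have g0 : List.ofFn v ≠ [] ∧ List.ofFn w ≠ [] ∧ (List.ofFn v).tail = (List.ofFn w).dropLast :=
      ⟨Me_ne v, Me_ne w, e4.2 h1⟩
    rw [if_pos g0, hZ1]
    by_cases h2 : v 0 = true ∧ w (Fin.last r) = false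
    · have g1 : (some (v 0) = some true ∧ some (w (Fin.last r)) = some false) := by
        rw [h2.1, h2.2]
        exact ⟨rfl, rfl⟩
      rw [if_pos g1, hK1 ⟨h2.1, h2.2, h1⟩]
      ring
    · have g1 : ¬ (some (v 0) = some true ∧ some (w (Fin.last r)) = some false) := by
        rintro ⟨h3, h4⟩
        exact h2 ⟨Option.some.inj h3, Option.some.inj h4⟩
      rw [if_neg g1, hK0 (fun h => h2 ⟨h.1, h.2.1⟩)]
      ring
  · have hZ1 : Z = 0 := hZ.trans (if_neg h1)
    have g0 : ¬ (List.ofFn v ≠ [] ∧ List.ofFn w ≠ [] ∧ (List.ofFn v).tail = (List.ofFn w).dropLast) :=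
      fun h => h1 (e4.1 h.2.2)
    rw [if_neg g0, hZ1, hK0 (fun h => h1 h.2.2)]
    ring

theorem Me_lr (r R : ℕ) (i : Ix r) (w : Wn (r + 1)) :
    (if i = emb r (it w) then 1 else 0 : ℤ⟦X⟧) = ent R (lst r i) (List.ofFn w) := by
  have hl := Me_len r i
  have f1 : (if lst r i = List.ofFn w then 1 else 0 : ℤ⟦X⟧) = 0 := by
    refine if_neg (fun h => ?_)
    rw [h, List.length_ofFn] at hl
    omega
  have f2 : (if List.ofFn w ≠ [] ∧ (List.ofFn w).dropLast = lst r i then 1 else 0 : ℤ⟦X⟧) =
      if i = emb r (it w) then 1 else 0 := by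
    rw [Me_drop]
    by_cases h : i = emb r (it w)
    · rw [if_pos h, if_pos ⟨Me_ne w, (Me_emb _ _ _).1 h⟩]
    · rw [if_neg h, if_neg (fun h' => h ((Me_emb _ _ _).2 h'.2))]
  have f3 : (if lst r i ≠ [] ∧ (lst r i).tail = List.ofFn w then zz else 0 : ℤ⟦X⟧) = 0 := by
    refine if_neg (fun h => ?_)
    have := congrArg List.length h.2
    rw [List.length_tail, List.length_ofFn] at this
    omega
  have e4 : ¬ (lst r i ≠ [] ∧ List.ofFn w ≠ [] ∧ (lst r i).tail = (List.ofFn w).dropLast) := by
    rintro ⟨h1, -, h⟩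
    have := congrArg List.length h
    rw [List.length_tail, List.length_dropLast, List.length_ofFn] at this
    have h2 := List.length_pos_iff.2 h1
    omega
  rw [Me_ent R _ _ (fun h => Me_ne w h.2), f1, f2, f3, if_neg e4]
  ring

theorem Me_rl (r R : ℕ) (i : Ix r) (w : Wn (r + 1)) :
    (if i = emb r (tl w) then zz else 0 : ℤ⟦X⟧) = ent R (List.ofFn w) (lst r i) := by
  have hl := Me_len r i
  have f1 : (if List.ofFn w = lst r i then 1 else 0 : ℤ⟦X⟧) = 0 := by
    refine if_neg (fun h => ?_)
    rw [← h, List.length_ofFn] at hl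
    omega
  have f2 : (if lst r i ≠ [] ∧ (lst r i).dropLast = List.ofFn w then 1 else 0 : ℤ⟦X⟧) = 0 := by
    refine if_neg (fun h => ?_)
    have := congrArg List.length h.2
    rw [List.length_dropLast, List.length_ofFn] at this
    omega
  have f3 : (if List.ofFn w ≠ [] ∧ (List.ofFn w).tail = lst r i then zz else 0 : ℤ⟦X⟧) =
      if i = emb r (tl w) then zz else 0 := by
    rw [Me_tail]
    by_cases h : i = emb r (tl w)
    · rw [if_pos h, if_pos ⟨Me_ne w, (Me_emb _ _ _).1 h⟩]
    · rw [if_neg h, if_neg (fun h' => h ((Me_emb _ _ _).2 h'.2))]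
  have e4 : ¬ (List.ofFn w ≠ [] ∧ lst r i ≠ [] ∧ (List.ofFn w).tail = (lst r i).dropLast) := by
    rintro ⟨-, h1, h⟩
    have := congrArg List.length h
    rw [List.length_tail, List.length_dropLast, List.length_ofFn] at this
    have h2 := List.length_pos_iff.2 h1
    omega
  rw [Me_ent R _ _ (fun h => Me_ne w h.1), f1, f2, f3, if_neg e4]
  ring

theorem Me_M0 (Z : Matrix (Wn 0) (Wn 0) ℤ⟦X⟧) (i j : Wn 0) :
    ((((1 - X) ^ 2 : ℤ⟦X⟧) • (1 : Matrix (Wn 0) (Wn 0) ℤ⟦X⟧)) + Z) i j = (1 - X) ^ 2 + Z i j := by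
  rw [Matrix.add_apply, Matrix.smul_apply, Matrix.one_apply, if_pos (funext fun x => x.elim0),
    smul_eq_mul, mul_one]

theorem ent_eq (r : ℕ) : (∀ R, r < R → ∀ i j, Mt r (ZA r) i j = ent R (lst r i) (lst r j)) ∧
    ∀ i j, Mt r 0 i j = ent r (lst r i) (lst r j) := by
  induction r with
  | zero =>
    constructor
    · intro R hR i j
      refine (Me_M0 (ZA 0) i j).trans ?_
      rw [Me_ZA_zero]
      show _ = ent R [] []
      unfold ent
      rw [if_pos ⟨rfl, rfl⟩, if_neg (by omega)]
      simp only [zz]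
      ring
    · intro i j
      refine (Me_M0 0 i j).trans ?_
      show _ = ent 0 [] []
      unfold ent
      rw [if_pos ⟨rfl, rfl⟩, if_pos rfl]
      exact add_zero _
  | succ r ih =>
    have key : ∀ (R : ℕ) (hR : r < R) (Z : Matrix (Wn (r + 1)) (Wn (r + 1)) ℤ⟦X⟧)
        (hZ : ∀ v w, Z v w = (if tl v = it w then zz * (if r + 1 < R then 1 else 0) else 0))
        (i j : Ix (r + 1)), Mt (r + 1) Z i j = ent R (lst (r + 1) i) (lst (r + 1) j) := by
      intro R hR Z hZ i j
      rcases i with i | v <;> rcases j with j | w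
      · exact ih.1 R hR i j
      · exact Me_lr r R i w
      · exact Me_rl r R j v
      · exact Me_rr r R v w (Z v w) (hZ v w)
    constructor
    · intro R hR i j
      refine key R (by omega) (ZA (r + 1)) ?_ i j
      intro v w
      rw [Me_ZA_succ, if_pos hR, mul_one]
    · intro i j
      refine key (r + 1) (by omega) 0 ?_ i j
      intro v w
      rw [if_neg (lt_irrefl _), mul_zero, ite_self]
      rfl

theorem det_direct (r : ℕ) : (Mdir r).det = (Mt r 0).det := by
  have hbij : Function.Bijective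
      (fun i : Ix r => (⟨lst r i, (lst_range r _).1 ⟨i, rfl⟩⟩ : {l : List Bool // l.length ≤ r})) := by
    constructor
    · intro i j h
      exact lst_inj r (congrArg Subtype.val h)
    · rintro ⟨l, hl⟩
      obtain ⟨i, hi⟩ := (lst_range r l).2 hl
      exact ⟨i, Subtype.ext hi⟩
  have h1 : Mt r 0 = (Mdir r).submatrix (Equiv.ofBijective _ hbij) (Equiv.ofBijective _ hbij) := by
    ext1 i j
    rw [Matrix.submatrix_apply, (ent_eq r).2 i j]
    rfl
  rw [h1, Matrix.det_submatrix_equiv_self]

end Pool.Agent.H85.GR
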