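import Pool.Agent.H85.GR.Fin
import Pool.Agent.H85.GR.Mc
import Pool.Agent.H85.GR.Me

/-!
# The number of closed walks for all `n > d`, in terms of the determinant
-/

set_option autoImplicit false

open Finset Pool.Agent.H63.CY Pool.Agent.H85.CY3

noncomputable section

namespace Pool.Agent.H85.GR

theorem hockey {d : ℕ} (hd : 1 ≤ d) : 2 * ∑ k ∈ Icc 1 d, ((2 * d - 1 - k).choose (d - 1) : ℤ) = ((2 * d).choose d : ℤ) := by
  have h1 : ∑ k ∈ Icc 1 d, (2 * d - 1 - k).choose (d - 1) = ∑ i ∈ Icc (d - 1) (2 * d - 2), i.choose (d - 1) := by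
    refine sum_nbij' (fun k => 2 * d - 1 - k) (fun i => 2 * d - 1 - i) ?_ ?_ ?_ ?_ ?_
    · intro k hk; rw [mem_Icc] at hk ⊢; omega
    · intro k hk; rw [mem_Icc] at hk ⊢; omega
    · intro k hk; rw [mem_Icc] at hk; omega
    · intro k hk; rw [mem_Icc] at hk; omega
    · intro k _; rfl
  have h2 := Nat.sum_Icc_choose (2 * d - 2) (d - 1)
  rw [show 2 * d - 2 + 1 = 2 * d - 1 by omega, show d - 1 + 1 = d by omega] at h2
  have h3 : (2 * d).choose d = 2 * (2 * d - 1).choose d := by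
    have e := Nat.choose_succ_succ (2 * d - 1) (d - 1)
    rw [show (2 * d - 1).succ = 2 * d by omega, show (d - 1).succ = d by omega] at e
    have e2 := Nat.choose_symm_of_eq_add (show 2 * d - 1 = d + (d - 1) by omega)
    omega
  rw [h3, ← h2, ← h1]
  push_cast
  ring

theorem W_ps {n d e r : ℕ} (hd : 1 ≤ d) (he : 1 ≤ e) (hn : n = e * d + r) (hdn : d < n) :
    2 * (W n d : ℤ) = (2 * d).choose d - 4 ^ d + 2 * e * ((d - 1) * (2 * d - 2).choose (d - 1)) +
      2 * ∑ k ∈ Icc 1 d, ps (Mdir r).det k * ((2 * d - 1 - k).choose (d - 1) : ℤ) := by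
  rw [W_all hd he hn hdn, det_direct]
  have h1 : ∑ k ∈ Icc 1 d, pw r k * ((2 * d - 1 - k).choose (d - 1) : ℤ) =
      ∑ k ∈ Icc 1 d, ps (Mt r 0).det k * ((2 * d - 1 - k).choose (d - 1) : ℤ) -
        2 * ∑ k ∈ Icc 1 d, ((2 * d - 1 - k).choose (d - 1) : ℤ) := by
    rw [mul_sum, ← sum_sub_distrib]
    refine sum_congr rfl fun k hk => ?_
    rw [mem_Icc] at hk
    rw [pw_det r hk.1]
    ring
  rw [h1, hockey hd]
  ring

end Pool.Agent.H85.GR
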