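import Pool.Agent.H85.GR.Fin2

/-!
# Polynomial form
-/

set_option autoImplicit false

open Finset Pool.Agent.H63.CY Pool.Agent.H85.CY3

noncomputable section

namespace Pool.Agent.H85.GR

open Polynomial in
/-- the entries, as polynomials -/
def entP (R : ℕ) (v w : List Bool) : ℤ[X] :=
  if v = [] ∧ w = [] then (if R = 0 then (1 - X) ^ 2 else 1 - X ^ 2)
  else (if v = w then 1 else 0) + (if w ≠ [] ∧ w.dropLast = v then 1 else 0) + (if v ≠ [] ∧ v.tail = w then X * (1 - X) else 0) +
    (if v ≠ [] ∧ w ≠ [] ∧ v.tail = w.dropLast then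
      X * (1 - X) * ((if v.length < R then 1 else 0) - (if v.head? = some true ∧ w.getLast? = some false then 1 else 0)) else 0)

theorem ent_coe (R : ℕ) (v w : List Bool) : ((entP R v w : Polynomial ℤ) : PowerSeries ℤ) = ent R v w := by
  unfold entP ent zz
  split_ifs <;> push_cast <;> ring

/-- the matrix -/
def MP (r : ℕ) : Matrix {l : List Bool // l.length ≤ r} {l : List Bool // l.length ≤ r} (Polynomial ℤ) := fun v w => entP r v.1 w.1

theorem det_coe (r : ℕ) : (((MP r).det : Polynomial ℤ) : PowerSeries ℤ) = (Mdir r).det := by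
  have h : (Polynomial.coeToPowerSeries.ringHom (R := ℤ)).mapMatrix (MP r) = Mdir r := by
    funext v w
    exact ent_coe r v.1 w.1
  rw [← h, ← RingHom.map_det]
  rfl

theorem const_det (r : ℕ) : PowerSeries.constantCoeff (Mdir r).det = 1 := by
  rw [det_direct, ← prod_det, map_mul, map_prod, map_pow]
  rw [prod_eq_one fun s _ => (UP.unit (UP_E s)).1]
  simp

theorem const_MP (r : ℕ) : (MP r).det.coeff 0 = 1 := by
  have h := const_det r
  rw [← det_coe, ← PowerSeries.coeff_zero_eq_constantCoeff_apply, Polynomial.coeff_coe] at h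
  exact h

/-- the number of closed walks for all `n ≥ d` -/
theorem W_le {n d e r : ℕ} (hd : 1 ≤ d) (he : 1 ≤ e) (hn : n = e * d + r) :
    2 * (W n d : ℤ) = (2 * d).choose d - 4 ^ d + 2 * e * ((d - 1) * (2 * d - 2).choose (d - 1)) +
      2 * ∑ k ∈ Icc 1 d, ps (Mdir r).det k * ((2 * d - 1 - k).choose (d - 1) : ℤ) +
      (if n = d then 2 * d * ((catalan (n + 1) : ℤ) - 2 ^ (d - 1)) else 0) := by
  have hed : d ≤ e * d := Nat.le_mul_of_pos_left d he
  rcases (by omega : n = d ∨ d < n) with h | h
  · have hr : r = 0 := by omega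
    subst hr
    have he1 : e = 1 := by
      rcases (by omega : e = 1 ∨ 2 ≤ e) with h1 | h1
      · exact h1
      · exfalso
        have : 2 * d ≤ e * d := Nat.mul_le_mul_right d h1
        omega
    subst he1
    subst h
    rw [if_pos rfl, main_eq hd]
    have h1 : ∑ k ∈ Icc 1 n, ps (Mdir 0).det k * ((2 * n - 1 - k).choose (n - 1) : ℤ) =
        2 * ∑ k ∈ Icc 1 n, ((2 * n - 1 - k).choose (n - 1) : ℤ) := by
      rw [mul_sum]
      refine sum_congr rfl fun k hk => ?_
      rw [mem_Icc] at hk
      have h2 := pw_det 0 hk.1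
      have h3 : pw 0 k = 0 := by
        unfold pw
        simp
      rw [det_direct]
      rw [h3] at h2
      rw [show ps (Mt 0 0).det k = 2 by linarith]
    rw [h1, hockey hd]
    push_cast
    ring
  · rw [if_neg (by omega), W_ps hd he hn h]
    ring

end Pool.Agent.H85.GR
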