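import Pool.Agent.H85.GR.Df

/-!
ROW La. The elementary identities of the operators.
* `AA_succ`: `al (r+1) ∘ be (r+1) = be r ∘ al r + io ∘ K0 ∘ pr`: both sides at `(h, c)`: write out the four cases of the letter `u` and of `c 0`;
  the only difference is `up (dn f) - dn (up f) = [h = 0] f 0` for `c 0 = true`, `u = false`; `tl_sn`, `sn_zero`. The matrix `K0 r` applied to `F 0` at `c`:
  `∑ w', K0 c w' * F 0 w' = if c 0 = true then F 0 (sn (tl c) false) else 0` (the only `w'` is `sn (tl c) false`, `sn_it`, `it_sn`, `sn_last`).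
* `pr_be`, `al_io`: at height `0` nothing can drop; from height `≥ 1` the height `0` is not reached by `al`.
* `AA_TT`, `AB_TT`: write out.
-/

set_option autoImplicit false

open Finset

noncomputable section

namespace Pool.Agent.H85.GR

private theorem La_up (f : ℕ → ℤ) (h : ℕ) : up f h = f h + f (h + 1) := rfl
private theorem La_dn (f : ℕ → ℤ) (h : ℕ) : dn f h = f h + (if h = 0 then 0 else f (h - 1)) := rfl
private theorem La_al (r : ℕ) (F : ℕ → Wn (r + 1) → ℤ) (h : ℕ) (c : Wn r) :
    al r F h c = up (fun h' => F h' (sn c false)) h + F h (sn c true) := rfl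
private theorem La_be (r : ℕ) (F : ℕ → Wn r → ℤ) (h : ℕ) (w : Wn (r + 1)) :
    be r F h w = if w 0 = true then dn (fun h' => F h' (tl w)) h else F h (tl w) := rfl
private theorem La_io (r : ℕ) (f : Wn r → ℤ) (h : ℕ) (c : Wn r) :
    io r f h c = if h = 0 then f c else 0 := rfl
private theorem La_pr (r : ℕ) (F : ℕ → Wn r → ℤ) : pr r F = F 0 := rfl
private theorem La_TT (r : ℕ) (T : Bool → Bool → Module.End ℤ (ℕ → ℤ)) (F : ℕ → Wn (r + 1) → ℤ) (h : ℕ)
    (c : Wn (r + 1)) : TT r T F h c = ∑ u : Bool, T (c 0) u (fun h' => F h' (sn (tl c) u)) h := rfl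

private theorem La_K0 (r : ℕ) (f : Wn (r + 1) → ℤ) (c : Wn (r + 1)) :
    Matrix.toLin' (K0 r) f c = if c 0 = true then f (sn (tl c) false) else 0 := by
  rw [Matrix.toLin'_apply]
  have e0 : Matrix.mulVec (K0 r) f c = ∑ w', (if c 0 = true ∧ w' (Fin.last r) = false ∧ tl c = it w' then (1 : ℤ) else 0) * f w' := rfl
  rw [e0]
  by_cases hc : c 0 = true
  · rw [if_pos hc, Finset.sum_eq_single (sn (tl c) false)]
    · rw [if_pos ⟨hc, sn_last (tl c) false, Eq.symm (it_sn (tl c) false)⟩, one_mul]
    · intro w _ hw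
      rw [if_neg, zero_mul]
      rintro ⟨_, h2, h3⟩
      apply hw
      rw [h3, ← h2, sn_it]
    · intro h
      exact absurd (Finset.mem_univ _) h
  · rw [if_neg hc]
    apply Finset.sum_eq_zero
    intro w _
    rw [if_neg (fun h => hc h.1), zero_mul]

theorem AA_succ (r : ℕ) : AA (r + 1) = AB r + io (r + 1) ∘ₗ (Matrix.toLin' (K0 r)) ∘ₗ pr (r + 1) := by
  apply LinearMap.ext
  intro F
  funext h c
  have hL : AA (r + 1) F h c = al (r + 1) (be (r + 1) F) h c := rfl
  have hR : (AB r + io (r + 1) ∘ₗ (Matrix.toLin' (K0 r)) ∘ₗ pr (r + 1)) F h c =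
    be r (al r F) h c + io (r + 1) (Matrix.toLin' (K0 r) (pr (r + 1) F)) h c := rfl
  rw [hL, hR]
  simp only [La_al, La_be, La_io, La_pr, La_K0, sn_zero, tl_sn, La_up, La_dn]
  by_cases hc : c 0 = true
  · simp only [hc, if_true]
    rcases h with _ | h
    · simp
      ring
    · simp
      ring
  · simp [hc]

theorem pr_be (r : ℕ) : pr (r + 1) ∘ₗ be r = Matrix.toLin' (B0 r) ∘ₗ pr r := by
  apply LinearMap.ext
  intro F
  funext w
  have hL : (pr (r + 1) ∘ₗ be r) F w = be r F 0 w := rfl
  have hR : (Matrix.toLin' (B0 r) ∘ₗ pr r) F w = Matrix.toLin' (B0 r) (F 0) w := rfl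
  rw [hL, hR, Matrix.toLin'_apply, La_be, La_dn]
  have e0 : Matrix.mulVec (B0 r) (F 0) w = ∑ c', (if tl w = c' then (1 : ℤ) else 0) * F 0 c' := rfl
  rw [e0, Finset.sum_eq_single (tl w)]
  · simp
  · intro b _ hb
    rw [if_neg (fun h => hb h.symm), zero_mul]
  · intro h
    exact absurd (Finset.mem_univ _) h

theorem al_io (r : ℕ) : al r ∘ₗ io (r + 1) = io r ∘ₗ Matrix.toLin' (A0 r) := by
  apply LinearMap.ext
  intro f
  funext h c
  have hL : (al r ∘ₗ io (r + 1)) f h c = al r (io (r + 1) f) h c := rfl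
  have hR : (io r ∘ₗ Matrix.toLin' (A0 r)) f h c = io r (Matrix.toLin' (A0 r) f) h c := rfl
  rw [hL, hR, La_al, La_io, La_up, Matrix.toLin'_apply]
  simp only [La_io]
  have hs : Matrix.mulVec (A0 r) f c = f (sn c false) + f (sn c true) := by
    have e0 : Matrix.mulVec (A0 r) f c = ∑ w', (if c = it w' then (1 : ℤ) else 0) * f w' := rfl
    rw [e0]
    rw [← Finset.sum_subset (Finset.subset_univ ({sn c false, sn c true} : Finset (Wn (r + 1))))]
    · rw [Finset.sum_pair]
      · rw [if_pos (Eq.symm (it_sn c false)), if_pos (Eq.symm (it_sn c true)), one_mul, one_mul]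
      · intro h
        have := congrFun h (Fin.last r)
        rw [sn_last, sn_last] at this
        exact absurd this (by decide)
    · intro w _ hw
      rw [if_neg, zero_mul]
      intro h
      apply hw
      rw [Finset.mem_insert, Finset.mem_singleton, h]
      rcases Bool.eq_false_or_eq_true (w (Fin.last r)) with h1 | h1
      · right
        rw [← h1, sn_it]
      · left
        rw [← h1, sn_it]
  rw [hs]
  rcases h with _ | h
  · simp
  · simp

theorem AA_TT (r : ℕ) : AA (r + 1) = TT r TA := by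
  apply LinearMap.ext
  intro F
  funext h c
  have hL : AA (r + 1) F h c = al (r + 1) (be (r + 1) F) h c := rfl
  rw [hL, La_TT, Fintype.sum_bool]
  simp only [La_al, La_be, sn_zero, tl_sn]
  by_cases hc : c 0 = true
  · simp only [hc, if_true]
    rw [add_comm]
    rfl
  · have hc' : c 0 = false := by simpa using hc
    rw [hc']
    simp only [Bool.false_eq_true, if_false]
    rw [add_comm]
    rfl

theorem AB_TT (r : ℕ) : AB r = TT r TB := by
  apply LinearMap.ext
  intro F
  funext h c
  have hL : AB r F h c = be r (al r F) h c := rfl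
  rw [hL, La_TT, Fintype.sum_bool]
  simp only [La_al, La_be]
  by_cases hc : c 0 = true
  · simp only [hc, if_true]
    have e : (fun h' => up (fun h' => F h' (sn (tl c) false)) h' + F h' (sn (tl c) true)) =
      (up (fun h' => F h' (sn (tl c) false)) : ℕ → ℤ) + (fun h' => F h' (sn (tl c) true)) := rfl
    rw [e, map_add, Pi.add_apply, add_comm]
    rfl
  · have hc' : c 0 = false := by simpa using hc
    rw [hc']
    simp only [Bool.false_eq_true, if_false]
    rw [add_comm]
    rfl

end Pool.Agent.H85.GR
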