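import Pool.Agent.H85.GR.Wg

/-!
ROW Ma. The inverses `Yw r = (Gw r)⁻¹`.
PROOF. `UP M` implies `constantCoeff M.det = 1` (`RingHom.map_det`), so `M.det` is a unit. Products, inverses (`Matrix.nonsing_inv`: apply `map` to `M * M⁻¹ = 1`), and `1 + zz • N` (and `1 - zz • N`), are `UP`
(`constantCoeff zz = 0`); so `Gw r`, `Cf r (Gw r)`, `1 - Ew r`, `Yw r`, `Yw r + Z` with `NP Z` are `UP`.
`Y_zero`: `∑ (n+1) X^n` is inverse to `(1 - X)^2` (`1 × 1` matrices; `Wn 0` is a `Unique` type).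
`Y_succ`: `Gw (r+1) = C (1 - E)⁻¹`, `E = zz K C`, so `Yw (r+1) = (1 - E) C⁻¹ = C⁻¹ - zz K`, and `C = 1 + zz B G A`, `C⁻¹ = 1 - zz B (G⁻¹ + zz A B)⁻¹ A` (Woodbury; check
`(1 + zz B G A) (1 - zz B W A) = 1` with `W = (G⁻¹ + zz A B)⁻¹`: `G - W - G (zz A B) W = G ((G⁻¹ + zz A B) - G⁻¹ - zz A B) W = 0`).
`det_rec`: `det (1 - E) = det (Yw (r+1)) det C`, and `det C = det (1 + zz B (G A)) = det (1 + zz (G A) B)` (`Matrix.det_one_add_mul_comm`) `= det G * det (G⁻¹ + zz A B)`.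
-/

set_option autoImplicit false

open Finset PowerSeries

noncomputable section

namespace Pool.Agent.H85.GR

theorem UP.unit {n : Type*} [Fintype n] [DecidableEq n] {M : Matrix n n ℤ⟦X⟧} (h : UP M) : constantCoeff M.det = 1 ∧ IsUnit M.det := by
  have h1 : constantCoeff M.det = 1 := by
    have e : constantCoeff (R := ℤ) M.det = ((constantCoeff (R := ℤ)).mapMatrix M).det :=
      RingHom.map_det (constantCoeff (R := ℤ)) M
    rw [e, RingHom.mapMatrix_apply, show M.map (constantCoeff (R := ℤ)) = 1 from h, Matrix.det_one]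
  exact ⟨h1, PowerSeries.isUnit_iff_constantCoeff.2 (by rw [h1]; exact isUnit_one)⟩

private theorem ma_mul {n : Type*} [Fintype n] [DecidableEq n] {M N : Matrix n n ℤ⟦X⟧} (hM : UP M)
    (hN : UP N) : UP (M * N) := by
  unfold UP at *
  have e : (M * N).map (constantCoeff (R := ℤ)) = M.map (constantCoeff (R := ℤ)) *
    N.map (constantCoeff (R := ℤ)) := Matrix.map_mul
  rw [e, hM, hN, one_mul]

private theorem ma_inv {n : Type*} [Fintype n] [DecidableEq n] {M : Matrix n n ℤ⟦X⟧} (hM : UP M) :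
    UP M⁻¹ := by
  have h1 := Matrix.mul_nonsing_inv M hM.unit.2
  have e : (M * M⁻¹).map (constantCoeff (R := ℤ)) = M.map (constantCoeff (R := ℤ)) *
    (M⁻¹).map (constantCoeff (R := ℤ)) := Matrix.map_mul
  rw [h1, show M.map (constantCoeff (R := ℤ)) = 1 from hM, one_mul] at e
  unfold UP
  rw [← e]
  exact Matrix.map_one _ (map_zero _) (map_one _)

private theorem ma_add {n : Type*} [DecidableEq n] {M N : Matrix n n ℤ⟦X⟧} (hM : UP M)
    (hN : NP N) : UP (M + N) := by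
  unfold UP NP at *
  have e : (M + N).map (constantCoeff (R := ℤ)) = M.map (constantCoeff (R := ℤ)) +
    N.map (constantCoeff (R := ℤ)) := by
      ext i j
      simp
  rw [e, hM, hN, add_zero]

private theorem ma_one {n : Type*} [DecidableEq n] : UP (1 : Matrix n n ℤ⟦X⟧) := by
  unfold UP
  exact Matrix.map_one _ (map_zero _) (map_one _)

private theorem ma_smul {m n : Type*} (N : Matrix m n ℤ⟦X⟧) : NP (zz • N) := by
  unfold NP
  ext i j
  simp [zz]

private theorem ma_neg {m n : Type*} {N : Matrix m n ℤ⟦X⟧} (h : NP N) : NP (-N) := by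
  unfold NP at *
  ext i j
  have e := congrFun (congrFun h i) j
  simp only [Matrix.map_apply, Matrix.zero_apply, Matrix.neg_apply, map_neg] at e ⊢
  rw [e, neg_zero]

private theorem ma_C {r : ℕ} (G : Matrix (Wn r) (Wn r) ℤ⟦X⟧) : UP (Cf r G) := by
  unfold Cf
  exact ma_add ma_one (ma_smul _)

private theorem ma_E {r : ℕ} (G : Matrix (Wn r) (Wn r) ℤ⟦X⟧) : UP (1 - Ef r G) := by
  unfold Ef
  rw [sub_eq_add_neg]
  exact ma_add ma_one (ma_neg (ma_smul _))

theorem UP_G (r : ℕ) : UP (Gw r) := by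
  induction r with
  | zero =>
    unfold UP
    ext i j
    rw [Subsingleton.elim i j, Matrix.one_apply_eq, Matrix.map_apply]
    simp [Gw]
  | succ r ih =>
    unfold Gw
    exact ma_mul (ma_C _) (ma_inv (ma_E _))

theorem UP_C (r : ℕ) : UP (Cf r (Gw r)) := ma_C _

theorem UP_E (r : ℕ) : UP (1 - Ew r) := ma_E _

theorem UP_Y (r : ℕ) {Z : Matrix (Wn r) (Wn r) ℤ⟦X⟧} (hZ : NP Z) : UP (Yw r + Z) := by
  unfold Yw
  exact ma_add (ma_inv (UP_G r)) hZ

theorem NP_ZA (r : ℕ) : NP (ZA r) := ma_smul _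

theorem Y_zero : Yw 0 = ((1 - X) ^ 2 : ℤ⟦X⟧) • (1 : Matrix (Wn 0) (Wn 0) ℤ⟦X⟧) := by
  unfold Yw
  apply Matrix.inv_eq_right_inv
  rw [Matrix.mul_smul, mul_one]
  have h1 : (PowerSeries.mk fun n => (n : ℤ) + 1) * (1 - X) ^ 2 = 1 := by
    have h2 : (PowerSeries.mk fun n => (n : ℤ) + 1) = (PowerSeries.mk 1 : ℤ⟦X⟧) ^ 2 := by
      rw [PowerSeries.mk_one_pow_eq_mk_choose_add ℤ 1]
      congr 1
      funext n
      rw [Nat.choose_one_right]
      push_cast
      ring
    rw [h2, ← mul_pow, PowerSeries.mk_one_mul_one_sub_eq_one, one_pow]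
  refine Matrix.ext fun i j => ?_
  rw [Subsingleton.elim i j, Matrix.one_apply_eq, Matrix.smul_apply, smul_eq_mul]
  change _ * (PowerSeries.mk fun n => (n : ℤ) + 1) = _
  rw [mul_comm, h1]

end Pool.Agent.H85.GR
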