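import Pool.Agent.H85.GR.Md

/-!
ROW Mb. The determinant of the block matrix.
PROOF. Induction on `r` for all `Z` with `NP Z`. `r = 0`: `Y_zero` (and `emb 0 = id`). `r + 1`: `Mt (r+1) Z = fromBlocks M₁ P Q D` with `M₁ = Mt r (ZA r)`, whose determinant is a unit by induction,
and `P i w = [i = emb (it w)]`, `Q w i = [i = emb (tl w)] zz`, `D = 1 - zz K + Z`. `Q * M₁⁻¹ * P = zz B ((M₁⁻¹).submatrix emb emb) A = zz B (Yw r + ZA r)⁻¹ A` (second statement for `r`; `emb` is
injective, sums over `i` reduce to one term), so the Schur complement `D - Q M₁⁻¹ P` is `Yw (r+1) + Z` (`Y_succ`). `Matrix.det_fromBlocks₁₁` gives the determinant, and the block inverse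
(`Matrix.invOf_fromBlocks₁₁_eq` or check directly the four blocks, or `Matrix.inv_eq_right_inv`) has the lower right block `(D - Q M₁⁻¹ P)⁻¹`, which is the second statement (`emb (r+1) = Sum.inr`).
-/

set_option autoImplicit false

open Finset PowerSeries

noncomputable section

namespace Pool.Agent.H85.GR

/-- The determinant and the lower right block of the inverse of a block matrix. -/
private theorem blk {m n R : Type*} [CommRing R] [Fintype m] [DecidableEq m] [Fintype n]
    [DecidableEq n] (A : Matrix m m R) (B : Matrix m n R) (C : Matrix n m R) (D S : Matrix n n R)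
    (hA : IsUnit A.det) (hS : IsUnit S.det) (h : D - C * A⁻¹ * B = S) :
    IsUnit (Matrix.fromBlocks A B C D).det ∧
      (Matrix.fromBlocks A B C D).det = A.det * S.det ∧
      ((Matrix.fromBlocks A B C D)⁻¹).submatrix Sum.inr Sum.inr = S⁻¹ := by
  let iA : Invertible A := Matrix.invertibleOfIsUnitDet A hA
  have h' : D - C * ⅟A * B = S := by rw [Matrix.invOf_eq_nonsing_inv]; exact h
  let iS : Invertible (D - C * ⅟A * B) := Matrix.invertibleOfIsUnitDet _ (by rw [h']; exact hS)
  have hdet : (Matrix.fromBlocks A B C D).det = A.det * S.det := by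
    rw [Matrix.det_fromBlocks₁₁, h']
  have hu : IsUnit (Matrix.fromBlocks A B C D).det := by
    rw [hdet]
    exact hA.mul hS
  let iM : Invertible (Matrix.fromBlocks A B C D) := Matrix.invertibleOfIsUnitDet _ hu
  refine ⟨hu, hdet, ?_⟩
  rw [← Matrix.invOf_eq_nonsing_inv, Matrix.invOf_fromBlocks₁₁_eq]
  ext i j
  rw [Matrix.submatrix_apply, Matrix.fromBlocks_apply₂₂, Matrix.invOf_eq_nonsing_inv, h']

private theorem schur (r : ℕ) {N : Matrix (Ix r) (Ix r) ℤ⟦X⟧} {Y : Matrix (Wn r) (Wn r) ℤ⟦X⟧}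
    (h : N.submatrix (emb r) (emb r) = Y) (Q : Matrix (Wn (r + 1)) (Ix r) ℤ⟦X⟧)
    (P : Matrix (Ix r) (Wn (r + 1)) ℤ⟦X⟧)
    (hQ : ∀ w i, Q w i = if i = emb r (tl w) then zz else 0)
    (hP : ∀ i w, P i w = if i = emb r (it w) then 1 else 0) :
    Q * N * P = zz • (cst (B0 r) * Y * cst (A0 r)) := by
  subst h
  ext w w'
  rw [Matrix.smul_apply, Matrix.mul_apply, Matrix.mul_apply]
  have e1 : ∀ j, (Q * N) w j = zz * N (emb r (tl w)) j := by
    intro j
    rw [Matrix.mul_apply]
    simp only [hQ, ite_mul, zero_mul, Finset.sum_ite_eq', Finset.mem_univ, if_true]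
  have e2 : ∀ c, (cst (B0 r) * N.submatrix (emb r) (emb r)) w c =
      N (emb r (tl w)) (emb r c) := by
    intro c
    rw [Matrix.mul_apply]
    simp only [cst, B0, Matrix.map_apply, Matrix.submatrix_apply, apply_ite, map_one, map_zero,
      ite_mul, one_mul, zero_mul, Finset.sum_ite_eq, Finset.mem_univ, if_true]
  simp only [e1, e2, hP]
  simp only [cst, A0, Matrix.map_apply, apply_ite, map_one, map_zero, mul_one, mul_zero,
    Finset.sum_ite_eq', Finset.mem_univ, if_true, smul_eq_mul]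

theorem Mt_all (r : ℕ) : ∀ Z : Matrix (Wn r) (Wn r) ℤ⟦X⟧, NP Z →
    IsUnit (Mt r Z).det ∧ (Mt r Z).det = (∏ s ∈ range r, (Yw s + ZA s).det) * (Yw r + Z).det ∧
      ((Mt r Z)⁻¹).submatrix (emb r) (emb r) = (Yw r + Z)⁻¹ := by
  induction r with
  | zero =>
    intro Z hZ
    have e : Mt 0 Z = Yw 0 + Z := by
      rw [Y_zero]
      rfl
    rw [e, prod_range_zero, one_mul]
    exact ⟨(UP_Y 0 hZ).unit.2, rfl, rfl⟩
  | succ r ih =>
    intro Z hZ
    obtain ⟨h1, h2, h3⟩ := ih (ZA r) (NP_ZA r)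
    have h4 := blk (Mt r (ZA r)) (fun i w => if i = emb r (it w) then 1 else 0)
      (fun w i => if i = emb r (tl w) then zz else 0) (1 - zz • cst (K0 r) + Z)
      (Yw (r + 1) + Z) h1 (UP_Y (r + 1) hZ).unit.2 (by
        rw [schur r h3 _ _ (fun _ _ => rfl) (fun _ _ => rfl), Y_succ]
        abel)
    rw [h2, ← prod_range_succ] at h4
    exact h4

end Pool.Agent.H85.GR
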