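import Pool.Agent.H85.GR.Ma

/-!
ROW Md (only `Y_succ` and `det_rec`). The inverses `Yw r = (Gw r)⁻¹`.
PROOF. `UP M` implies `constantCoeff M.det = 1` (`RingHom.map_det`), so `M.det` is a unit. Products, inverses (`Matrix.nonsing_inv`: apply `map` to `M * M⁻¹ = 1`), and `1 + zz • N` (and `1 - zz • N`), are `UP`
(`constantCoeff zz = 0`); so `Gw r`, `Cf r (Gw r)`, `1 - Ew r`, `Yw r`, `Yw r + Z` with `NP Z` are `UP`.
`Y_zero`: `∑ (n+1) X^n` is inverse to `(1 - X)^2` (`1 × 1` matrices; `Wn 0` is a `Unique` type).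
`Y_succ`: `Gw (r+1) = C (1 - E)⁻¹`, `E = zz K C`, so `Yw (r+1) = (1 - E) C⁻¹ = C⁻¹ - zz K`, and `C = 1 + zz B G A`, `C⁻¹ = 1 - zz B (G⁻¹ + zz A B)⁻¹ A` (Woodbury; check
`(1 + zz B G A) (1 - zz B W A) = 1` with `W = (G⁻¹ + zz A B)⁻¹`: `G - W - G (zz A B) W = G ((G⁻¹ + zz A B) - G⁻¹ - zz A B) W = 0`).
`det_rec`: `det (1 - E) = det (Yw (r+1)) det C`, and `det C = det (1 + zz B (G A)) = det (1 + zz (G A) B)` (`Matrix.det_one_add_mul_comm`) `= det G * det (G⁻¹ + zz A B)`.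
-/

set_option autoImplicit false

open Finset PowerSeries

noncomputable section

namespace Pool.Agent.H85.GR

theorem Md_mulC (r : ℕ) : Yw (r + 1) = (1 - Ew r) * (Cf r (Gw r))⁻¹ := by
  have hE : IsUnit (1 - Ew r).det := (UP_E r).unit.2
  have h : Gw (r + 1) = Cf r (Gw r) * (1 - Ew r)⁻¹ := rfl
  unfold Yw
  rw [h, Matrix.mul_inv_rev, Matrix.nonsing_inv_nonsing_inv _ hE]

theorem Md_G (r : ℕ) : Gw r = (Yw r + ZA r)⁻¹ + Gw r * ZA r * (Yw r + ZA r)⁻¹ := by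
  have hG : IsUnit (Gw r).det := (UP_G r).unit.2
  have hY : IsUnit (Yw r + ZA r).det := (UP_Y r (NP_ZA r)).unit.2
  have h1 : Gw r * Yw r = 1 := Matrix.mul_nonsing_inv _ hG
  have h2 : (Yw r + ZA r) * (Yw r + ZA r)⁻¹ = 1 := Matrix.mul_nonsing_inv _ hY
  calc Gw r = Gw r * ((Yw r + ZA r) * (Yw r + ZA r)⁻¹) := by rw [h2, Matrix.mul_one]
    _ = (Gw r * Yw r) * (Yw r + ZA r)⁻¹ + Gw r * ZA r * (Yw r + ZA r)⁻¹ := by
        rw [← Matrix.mul_assoc, Matrix.mul_add, Matrix.add_mul]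
    _ = (Yw r + ZA r)⁻¹ + Gw r * ZA r * (Yw r + ZA r)⁻¹ := by rw [h1, Matrix.one_mul]

theorem Md_C (r : ℕ) : (Cf r (Gw r))⁻¹ = 1 - zz • (cst (B0 r) * (Yw r + ZA r)⁻¹ * cst (A0 r)) := by
  apply Matrix.inv_eq_right_inv
  set W := (Yw r + ZA r)⁻¹ with hW
  have hG : Gw r = W + Gw r * ZA r * W := Md_G r
  have e1 : cst (B0 r) * Gw r * cst (A0 r) =
      cst (B0 r) * W * cst (A0 r) + cst (B0 r) * (Gw r * ZA r * W) * cst (A0 r) := by
    conv_lhs => rw [hG]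
    rw [Matrix.mul_add, Matrix.add_mul]
  have e2 : (zz • (cst (B0 r) * Gw r * cst (A0 r))) * (zz • (cst (B0 r) * W * cst (A0 r))) =
      zz • (cst (B0 r) * (Gw r * ZA r * W) * cst (A0 r)) := by
    unfold ZA
    simp only [Matrix.mul_smul, Matrix.smul_mul, Matrix.mul_assoc]
  unfold Cf
  rw [add_mul, one_mul, mul_sub, mul_one, e2, e1, smul_add]
  abel

theorem Y_succ (r : ℕ) : Yw (r + 1) = 1 - zz • cst (K0 r) - zz • (cst (B0 r) * (Yw r + ZA r)⁻¹ * cst (A0 r)) := by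
  have hC : IsUnit (Cf r (Gw r)).det := (UP_C r).unit.2
  have h1 : Cf r (Gw r) * (Cf r (Gw r))⁻¹ = 1 := Matrix.mul_nonsing_inv _ hC
  have h2 : Ew r = zz • (cst (K0 r) * Cf r (Gw r)) := rfl
  have h3 : (1 - Ew r) * (Cf r (Gw r))⁻¹ = (Cf r (Gw r))⁻¹ - zz • cst (K0 r) := by
    rw [sub_mul, one_mul, h2, Matrix.smul_mul, Matrix.mul_assoc, h1, Matrix.mul_one]
  rw [Md_mulC, h3, Md_C]
  abel

theorem det_rec (r : ℕ) : (1 - Ew r).det * (Yw r).det = (Yw (r + 1)).det * (Yw r + ZA r).det := by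
  have hG : IsUnit (Gw r).det := (UP_G r).unit.2
  have hC : IsUnit (Cf r (Gw r)).det := (UP_C r).unit.2
  have h1 : Gw r * Yw r = 1 := Matrix.mul_nonsing_inv _ hG
  have h2 : (Cf r (Gw r))⁻¹ * Cf r (Gw r) = 1 := Matrix.nonsing_inv_mul _ hC
  have h3 : 1 - Ew r = Yw (r + 1) * Cf r (Gw r) := by
    rw [Md_mulC, Matrix.mul_assoc, h2, Matrix.mul_one]
  have h4 : (Cf r (Gw r)).det = (Gw r).det * (Yw r + ZA r).det := by
    have e1 : Cf r (Gw r) = 1 + cst (B0 r) * (zz • (Gw r * cst (A0 r))) := by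
      unfold Cf
      rw [Matrix.mul_smul, Matrix.mul_assoc]
    have e2 : 1 + (zz • (Gw r * cst (A0 r))) * cst (B0 r) = Gw r * (Yw r + ZA r) := by
      rw [Matrix.mul_add, h1]
      unfold ZA
      rw [Matrix.smul_mul, Matrix.mul_smul, Matrix.mul_assoc]
    rw [e1, Matrix.det_one_add_mul_comm, e2, Matrix.det_mul]
  have h5 : (Gw r).det * (Yw r).det = 1 := by
    rw [← Matrix.det_mul, h1, Matrix.det_one]
  rw [h3, Matrix.det_mul, h4]
  calc (Yw (r + 1)).det * ((Gw r).det * (Yw r + ZA r).det) * (Yw r).det =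
      (Yw (r + 1)).det * (Yw r + ZA r).det * ((Gw r).det * (Yw r).det) := by ring
    _ = (Yw (r + 1)).det * (Yw r + ZA r).det := by rw [h5, mul_one]

end Pool.Agent.H85.GR
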