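import Pool.Agent.H85.GR.Df

/-!
Definitions of the power series in `w` (`t = w (1 - w)`).
-/

set_option autoImplicit false

open Finset PowerSeries

noncomputable section

namespace Pool.Agent.H85.GR

/-- `X (1 - X)` -/
def zz : ℤ⟦X⟧ := X * (1 - X)

theorem hzz : HasSubst (zz : ℤ⟦X⟧) := by
  apply HasSubst.of_constantCoeff_zero'
  simp [zz]

/-- the substitution `t = w (1 - w)` -/
def tau : ℤ⟦X⟧ →+* ℤ⟦X⟧ := ((substAlgHom hzz : ℤ⟦X⟧ →ₐ[ℤ] ℤ⟦X⟧) : ℤ⟦X⟧ →+* ℤ⟦X⟧)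

theorem tau_apply (f : ℤ⟦X⟧) : tau f = f.subst zz := by
  unfold tau
  rw [← coe_substAlgHom hzz]
  rfl

/-- `C` as a function of `G` -/
def Cf (r : ℕ) (G : Matrix (Wn r) (Wn r) ℤ⟦X⟧) : Matrix (Wn (r + 1)) (Wn (r + 1)) ℤ⟦X⟧ :=
  1 + zz • (cst (B0 r) * G * cst (A0 r))

/-- `E` as a function of `G` -/
def Ef (r : ℕ) (G : Matrix (Wn r) (Wn r) ℤ⟦X⟧) : Matrix (Wn (r + 1)) (Wn (r + 1)) ℤ⟦X⟧ :=
  zz • (cst (K0 r) * Cf r G)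

/-- the recursion -/
def Gw : (r : ℕ) → Matrix (Wn r) (Wn r) ℤ⟦X⟧
  | 0 => fun _ _ => PowerSeries.mk fun n => (n : ℤ) + 1
  | r + 1 => Cf r (Gw r) * (1 - Ef r (Gw r))⁻¹

def Ew (r : ℕ) : Matrix (Wn (r + 1)) (Wn (r + 1)) ℤ⟦X⟧ := Ef r (Gw r)

/-- the coefficients -/
def pw (r k : ℕ) : ℤ := ∑ s ∈ range r, coeff k (Matrix.trace (DM (Ew s) * (1 - Ew s)⁻¹))

/-- `1 / (1 - X)` -/
def ww : ℤ⟦X⟧ := PowerSeries.mk fun _ => 1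

end Pool.Agent.H85.GR
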