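import Pool.Agent.H85.GR.Wf

/-!
The block matrix whose determinant gives the coefficients.
-/

set_option autoImplicit false

open Finset PowerSeries

noncomputable section

namespace Pool.Agent.H85.GR

/-- the words of length at most `r` -/
def Ix : ℕ → Type
  | 0 => Wn 0
  | r + 1 => Ix r ⊕ Wn (r + 1)

instance instFintypeIx : (r : ℕ) → Fintype (Ix r)
  | 0 => inferInstanceAs (Fintype (Wn 0))
  | r + 1 => by
      haveI := instFintypeIx r
      exact inferInstanceAs (Fintype (Ix r ⊕ Wn (r + 1)))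

instance instDecEqIx : (r : ℕ) → DecidableEq (Ix r)
  | 0 => inferInstanceAs (DecidableEq (Wn 0))
  | r + 1 => by
      haveI := instDecEqIx r
      exact inferInstanceAs (DecidableEq (Ix r ⊕ Wn (r + 1)))

/-- the words of length `r` -/
def emb : (r : ℕ) → Wn r → Ix r
  | 0 => id
  | _ + 1 => Sum.inr

/-- the block tridiagonal matrix -/
def Mt : (r : ℕ) → Matrix (Wn r) (Wn r) ℤ⟦X⟧ → Matrix (Ix r) (Ix r) ℤ⟦X⟧
  | 0, Z => ((1 - X) ^ 2 : ℤ⟦X⟧) • (1 : Matrix (Wn 0) (Wn 0) ℤ⟦X⟧) + Z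
  | r + 1, Z => Matrix.fromBlocks (Mt r (zz • (cst (A0 r) * cst (B0 r)))) (fun i w => if i = emb r (it w) then 1 else 0)
      (fun w i => if i = emb r (tl w) then zz else 0) (1 - zz • cst (K0 r) + Z)

/-- constant term the identity -/
def UP {n : Type*} [DecidableEq n] (M : Matrix n n ℤ⟦X⟧) : Prop := M.map (constantCoeff (R := ℤ)) = 1
/-- constant term zero -/
def NP {m n : Type*} (M : Matrix m n ℤ⟦X⟧) : Prop := M.map (constantCoeff (R := ℤ)) = 0

/-- the inverses -/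
def Yw (r : ℕ) : Matrix (Wn r) (Wn r) ℤ⟦X⟧ := (Gw r)⁻¹
def ZA (r : ℕ) : Matrix (Wn r) (Wn r) ℤ⟦X⟧ := zz • (cst (A0 r) * cst (B0 r))

end Pool.Agent.H85.GR
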